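import Pool.Agent.Helper673_greedy.DeepTree

namespace Pool.Agent.Helper673_greedy

open BT SimpleGraph

variable {E : Type} [NormedAddCommGroup E] [InnerProductSpace ℝ E] [FiniteDimensional ℝ E]

/-- `σ` lies strictly between `τ` and `ρ` in the infinite binary tree on finite strings, in which
the children of `σ` are `false :: σ` and `true :: σ` -/
def Between (σ τ ρ : List Bool) : Prop :=
  τ ≠ σ ∧ ρ ≠ σ ∧ (σ <:+ τ ∨ σ <:+ ρ) ∧ ∀ b : Bool, ¬ ((b :: σ) <:+ τ ∧ (b :: σ) <:+ ρ)

lemma suffix_cons_unique {b c : Bool} {σ τ : List Bool} (h1 : (b :: σ) <:+ τ)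
    (h2 : (c :: σ) <:+ τ) : b = c := by
  have := List.suffix_of_suffix_length_le h1 h2 (by simp)
  have h3 := this.eq_of_length (by simp)
  exact (List.cons.inj h3).1

lemma suffix_of_cons {b : Bool} {σ τ : List Bool} (h : (b :: σ) <:+ τ) : σ <:+ τ :=
  (List.suffix_cons b σ).trans h

/-- the labelled binary tree below `σ` -/
def build {V : Type} (p : V → E) (w : List Bool → V) : ℕ → List Bool → BT E
  | 0, σ => leaf (p (w σ))
  | n + 1, σ => node (p (w σ)) (build p w n (false :: σ)) (build p w n (true :: σ))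

omit [InnerProductSpace ℝ E] [FiniteDimensional ℝ E] in
lemma rk_build {V : Type} (p : V → E) (w : List Bool → V) :
    ∀ (n : ℕ) (σ : List Bool), rk (build p w n σ) = n
  | 0, _ => rfl
  | n + 1, σ => by simp only [build, rk, rk_build p w n]; omega

omit [InnerProductSpace ℝ E] [FiniteDimensional ℝ E] in
lemma mem_build {V : Type} (p : V → E) (w : List Bool → V) (x : E) :
    ∀ (n : ℕ) (σ : List Bool), mem x (build p w n σ) →
      ∃ τ, σ <:+ τ ∧ τ.length ≤ σ.length + n ∧ x = p (w τ)
  | 0, σ, h => ⟨σ, List.suffix_refl σ, by simp, h⟩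
  | n + 1, σ, h => by
    rcases h with h | h | h
    · exact ⟨σ, List.suffix_refl σ, by omega, h⟩
    · obtain ⟨τ, h1, h2, h3⟩ := mem_build p w x n _ h
      exact ⟨τ, suffix_of_cons h1, by simp only [List.length_cons] at h2; omega, h3⟩
    · obtain ⟨τ, h1, h2, h3⟩ := mem_build p w x n _ h
      exact ⟨τ, suffix_of_cons h1, by simp only [List.length_cons] at h2; omega, h3⟩

lemma between_branches {σ τ ρ : List Bool} (h1 : (false :: σ) <:+ τ) (h2 : (true :: σ) <:+ ρ) :
    Between σ τ ρ := by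
  refine ⟨?_, ?_, Or.inl (suffix_of_cons h1), ?_⟩
  · rintro rfl
    have := h1.length_le
    simp at this
  · rintro rfl
    have := h2.length_le
    simp at this
  · rintro b ⟨h3, h4⟩
    have e1 := suffix_cons_unique h1 h3
    have e2 := suffix_cons_unique h2 h4
    rw [← e1] at e2
    exact Bool.noConfusion e2

lemma between_outside {σ τ ρ : List Bool} {b : Bool} (h1 : (b :: σ) <:+ τ) (h2 : ¬ σ <:+ ρ) :
    Between σ τ ρ := by
  refine ⟨?_, ?_, Or.inl (suffix_of_cons h1), ?_⟩
  · rintro rfl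
    have := h1.length_le
    simp at this
  · rintro rfl
    exact h2 (List.suffix_refl _)
  · rintro c ⟨_, h4⟩
    exact h2 (suffix_of_cons h4)

omit [InnerProductSpace ℝ E] [FiniteDimensional ℝ E] in
lemma sep_build {V : Type} (p : V → E) (w : List Bool → V) {B : E → E → E → Prop} {N : ℕ}
    (hB : ∀ σ τ ρ : List Bool, τ.length ≤ N → ρ.length ≤ N → Between σ τ ρ →
      B (p (w τ)) (p (w σ)) (p (w ρ))) :
    ∀ (n : ℕ) (σ : List Bool) (U : E → Prop), σ.length + n ≤ N →
      (∀ u, U u → ∃ ρ : List Bool, ρ.length ≤ N ∧ ¬ σ <:+ ρ ∧ u = p (w ρ)) →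
        Sep B U (build p w n σ)
  | 0, _, _, _, _ => trivial
  | n + 1, σ, U, hlen, hU => by
    have hl : ∀ a, mem a (build p w n (false :: σ)) →
        ∃ τ : List Bool, (false :: σ) <:+ τ ∧ τ.length ≤ N ∧ a = p (w τ) := by
      intro a ha
      obtain ⟨τ, h1, h2, h3⟩ := mem_build p w a n _ ha
      exact ⟨τ, h1, by simp only [List.length_cons] at h2; omega, h3⟩
    have hr : ∀ a, mem a (build p w n (true :: σ)) →
        ∃ τ : List Bool, (true :: σ) <:+ τ ∧ τ.length ≤ N ∧ a = p (w τ) := by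
      intro a ha
      obtain ⟨τ, h1, h2, h3⟩ := mem_build p w a n _ ha
      exact ⟨τ, h1, by simp only [List.length_cons] at h2; omega, h3⟩
    have hlt : ∀ b : Bool, ¬ (b :: σ) <:+ σ := by
      intro b h
      have := h.length_le
      simp at this
    refine ⟨?_, ?_, ?_, ?_⟩
    · intro a ha c hc
      obtain ⟨τ, h1, h2, rfl⟩ := hl a ha
      obtain ⟨ρ, h3, h4, rfl⟩ := hr c hc
      exact hB σ τ ρ h2 h4 (between_branches h1 h3)
    · rintro a (ha | ha) u hu
      · obtain ⟨τ, h1, h2, rfl⟩ := hl a ha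
        obtain ⟨ρ, h3, h4, rfl⟩ := hU u hu
        exact hB σ τ ρ h2 h3 (between_outside h1 h4)
      · obtain ⟨τ, h1, h2, rfl⟩ := hr a ha
        obtain ⟨ρ, h3, h4, rfl⟩ := hU u hu
        exact hB σ τ ρ h2 h3 (between_outside h1 h4)
    · refine sep_build p w hB n (false :: σ) _ (by simp only [List.length_cons]; omega) ?_
      rintro u (hu | hu | hu)
      · obtain ⟨ρ, h3, h4, rfl⟩ := hU u hu
        exact ⟨ρ, h3, fun h => h4 (suffix_of_cons h), rfl⟩
      · exact ⟨σ, by omega, hlt false, hu⟩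
      · obtain ⟨ρ, h3, h4, rfl⟩ := hr u hu
        exact ⟨ρ, h4, fun h => Bool.noConfusion (suffix_cons_unique h h3), rfl⟩
    · refine sep_build p w hB n (true :: σ) _ (by simp only [List.length_cons]; omega) ?_
      rintro u (hu | hu | hu)
      · obtain ⟨ρ, h3, h4, rfl⟩ := hU u hu
        exact ⟨ρ, h3, fun h => h4 (suffix_of_cons h), rfl⟩
      · exact ⟨σ, by omega, hlt true, hu⟩
      · obtain ⟨ρ, h3, h4, rfl⟩ := hl u hu
        exact ⟨ρ, h4, fun h => Bool.noConfusion (suffix_cons_unique h h3), rfl⟩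

omit [InnerProductSpace ℝ E] [FiniteDimensional ℝ E] in
/-- greedy routes avoid the vertices of `X` as long as these are not closer to the target -/
lemma greedy_route {V : Type} [Finite V] {G : SimpleGraph V} {p : V → E}
    (hg : ∀ s t : V, s ≠ t → ∃ u : V, G.Adj s u ∧ dist (p u) (p t) < dist (p s) (p t))
    (X : Finset V) (c : V) : ∀ a : V, a ∉ X → (∀ x ∈ X, dist (p a) (p c) ≤ dist (p x) (p c)) →
      ∃ q : G.Walk a c, (∀ x ∈ q.support, x ∉ X) ∧
        ∀ x ∈ q.support, x = a ∨ dist (p x) (p c) < dist (p a) (p c) := by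
  have hwf : WellFounded (fun x y : V => dist (p x) (p c) < dist (p y) (p c)) := by
    have : IsStrictOrder V (fun x y : V => dist (p x) (p c) < dist (p y) (p c)) :=
      { irrefl := fun _ => lt_irrefl _, trans := fun _ _ _ => lt_trans }
    exact Finite.wellFounded_of_trans_of_irrefl _
  intro a
  induction a using hwf.induction with
  | _ a ih =>
    intro haX hX
    by_cases hac : a = c
    · subst hac
      exact ⟨Walk.nil, by simpa using haX, by simp⟩
    · obtain ⟨u, hu, hlt⟩ := hg a c hac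
      have huX : u ∉ X := fun h => absurd (hX u h) (not_le.2 hlt)
      obtain ⟨q, hq1, hq2⟩ := ih u hlt huX (fun x hx => hlt.le.trans (hX x hx))
      refine ⟨Walk.cons hu q, ?_, ?_⟩
      · intro x hx
        rw [Walk.support_cons, List.mem_cons] at hx
        rcases hx with rfl | hx
        · exact haX
        · exact hq1 x hx
      · intro x hx
        rw [Walk.support_cons, List.mem_cons] at hx
        rcases hx with rfl | hx
        · exact Or.inl rfl
        · rcases hq2 x hx with rfl | h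
          · exact Or.inr hlt
          · exact Or.inr (h.trans hlt)

/-- A graph with a bounded set `X` of vertices and a deep binary tree of cut vertices in `G - X`
has no greedy placement. -/
theorem no_greedy_of_deep_cut_tree (E : Type) [NormedAddCommGroup E] [InnerProductSpace ℝ E]
    [FiniteDimensional ℝ E] (k : ℕ) : ∃ N : ℕ, ∀ (V : Type) [Finite V] (G : SimpleGraph V)
      (X : Finset V) (w : List Bool → V), X.card ≤ k →
      (∀ σ τ : List Bool, σ.length ≤ N → τ.length ≤ N → w σ = w τ → σ = τ) →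
      (∀ σ : List Bool, σ.length ≤ N → w σ ∉ X) →
      (∀ σ τ ρ : List Bool, τ.length ≤ N → ρ.length ≤ N → Between σ τ ρ →
        ∀ q : G.Walk (w τ) (w ρ), (∀ x ∈ q.support, x ∉ X) → w σ ∈ q.support) →
      ¬ ∃ p : V → E, Function.Injective p ∧
        ∀ s t : V, s ≠ t → ∃ u : V, G.Adj s u ∧ dist (p u) (p t) < dist (p s) (p t) := by
  obtain ⟨N₀, hN₀⟩ := no_deep_tree (E := E)
  obtain ⟨N₁, hN₁⟩ := localise (E := E) (η := 1) one_pos N₀
  refine ⟨max (k * N₁) N₀, fun V _ G X w hk hinj hwX hsep ⟨p, hp, hg⟩ => ?_⟩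
  set N := max (k * N₁) N₀ with hN
  -- the relation satisfied by all labels
  set BX : E → E → E → Prop := fun a b c =>
    ((∀ x ∈ X, dist a c ≤ dist (p x) c) → dist b c < dist a c) ∧
    ((∀ x ∈ X, dist c a ≤ dist (p x) a) → dist b a < dist c a) with hBX
  have hrel : ∀ σ τ ρ : List Bool, τ.length ≤ N → ρ.length ≤ N → Between σ τ ρ →
      BX (p (w τ)) (p (w σ)) (p (w ρ)) := by
    intro σ τ ρ hτ hρ hb
    have hσ : σ.length ≤ N := by
      rcases hb.2.2.1 with h | h
      · exact h.length_le.trans hτ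
      · exact h.length_le.trans hρ
    have hne1 : w σ ≠ w τ := fun h => hb.1 (hinj σ τ hσ hτ h).symm
    have hne2 : w σ ≠ w ρ := fun h => hb.2.1 (hinj σ ρ hσ hρ h).symm
    constructor
    · intro hX
      obtain ⟨q, hq1, hq2⟩ := greedy_route hg X (w ρ) (w τ) (hwX τ hτ) hX
      exact (hq2 _ (hsep σ τ ρ hτ hρ hb q hq1)).resolve_left hne1
    · intro hX
      obtain ⟨q, hq1, hq2⟩ := greedy_route hg X (w τ) (w ρ) (hwX ρ hρ) hX
      have h3 : w σ ∈ q.reverse.support := by
        refine hsep σ τ ρ hτ hρ hb q.reverse ?_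
        intro x hx
        rw [Walk.support_reverse, List.mem_reverse] at hx
        exact hq1 x hx
      rw [Walk.support_reverse, List.mem_reverse] at h3
      exact (hq2 _ h3).resolve_left hne2
  have hS : Sep BX (fun _ => False) (build p w N []) :=
    sep_build p w hrel N [] _ (by simp) (fun _ h => h.elim)
  have hmem : ∀ x, mem x (build p w N []) → ∃ v, v ∉ X ∧ x = p v := by
    intro x hx
    obtain ⟨τ, _, h2, h3⟩ := mem_build p w x N [] hx
    exact ⟨w τ, hwX τ (by simpa using h2), h3⟩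
  have hrkN := rk_build p w N []
  rcases X.eq_empty_or_nonempty with hXe | hXne
  · refine hN₀ (build p w N []) (by rw [hrkN]; exact le_max_right _ _) ?_
    refine Sep.mono (Q := fun _ => True) ?_ _ _ _ (fun _ h => h) (fun _ _ => trivial)
      (fun _ _ => trivial) hS
    rintro a b c - - - ⟨h1, h2⟩
    exact ⟨h1 (by rw [hXe]; simp), h2 (by rw [hXe]; simp)⟩
  · obtain ⟨i, hiX, t1, hs1, hr1, hc1⟩ := ramsey_color X
      (fun i x => ∀ x' ∈ X, dist (p i) x ≤ dist (p x') x) N₁ (build p w N [])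
      (by rw [hrkN]
          exact (Nat.mul_le_mul_right _ hk).trans (le_max_left _ _))
      (fun x _ => X.exists_min_image (fun i => dist (p i) x) hXne)
    have hS1 : Sep (BetO (p i)) (fun _ => False) t1 := by
      refine Sep.mono (Q := fun x => ∀ x' ∈ X, dist (p i) x ≤ dist (p x') x) ?_ _ _ _
        (fun _ h => h) (fun _ h => h.elim) hc1 (hS.sub hs1)
      rintro a b c ha - hc ⟨h1, h2⟩
      exact ⟨fun h => h1 fun x hx => h.trans (hc x hx), fun h => h2 fun x hx => h.trans (ha x hx)⟩
    have hne : ∀ x, mem x t1 → x ≠ p i := by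
      intro x hx
      obtain ⟨v, hv, rfl⟩ := hmem x (hs1.mem hx)
      intro heq
      exact hv (hp heq ▸ hiX)
    obtain ⟨t2, hs2, hr2, R, hR, h3, h4⟩ := hN₁ (p i) t1 hr1 hne hS1
    refine hN₀ t2 hr2 (Sep.mono (Q := fun x => mem x t2) ?_ _ _ _ (fun _ h => h)
      (fun _ h => h.elim) (fun _ h => h) (hS1.sub hs2))
    rintro a b c ha - hc ⟨h5, h6⟩
    refine ⟨h5 ?_, h6 ?_⟩
    · have := h3 c hc
      have := h4 a c ha hc
      rw [dist_comm (p i) c]; linarith
    · have := h3 a ha
      have := h4 c a hc ha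
      rw [dist_comm (p i) a]; linarith

end Pool.Agent.Helper673_greedy
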