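import Mathlib

namespace Pool.Agent.Helper673_greedy

/-- finite binary trees with labels at the nodes -/
inductive BT (α : Type) : Type where
  | leaf : α → BT α
  | node : α → BT α → BT α → BT α

namespace BT

variable {α : Type}

/-- label of the root -/
def root : BT α → α
  | leaf v => v
  | node v _ _ => v

/-- `x` is a label of the tree -/
def mem (x : α) : BT α → Prop
  | leaf v => x = v
  | node v l r => x = v ∨ mem x l ∨ mem x r

/-- smallest depth of a leaf -/
def rk : BT α → ℕ
  | leaf _ => 0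
  | node _ l r => min (rk l) (rk r) + 1

/-- `Sub t' t`: the binary tree `t'` is obtained from `t` by selecting nodes so that the two
subtrees at a node of `t'` come from the two different subtrees at this node in `t` -/
inductive Sub : BT α → BT α → Prop where
  | refl_leaf (v : α) : Sub (leaf v) (leaf v)
  | root_leaf (v : α) (l r : BT α) : Sub (leaf v) (node v l r)
  | both (v : α) {l l' r r' : BT α} : Sub l' l → Sub r' r → Sub (node v l' r') (node v l r)
  | inl (v : α) {t l : BT α} (r : BT α) : Sub t l → Sub t (node v l r)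
  | inr (v : α) (l : BT α) {t r : BT α} : Sub t r → Sub t (node v l r)

lemma mem_root : ∀ t : BT α, mem (root t) t
  | leaf _ => rfl
  | node _ _ _ => Or.inl rfl

lemma Sub.refl : ∀ t : BT α, Sub t t
  | leaf v => Sub.refl_leaf v
  | node v l r => Sub.both v (Sub.refl l) (Sub.refl r)

lemma Sub.leaf_root : ∀ t : BT α, Sub (leaf (root t)) t
  | leaf v => Sub.refl_leaf v
  | node v l r => Sub.root_leaf v l r

lemma Sub.mem {t' t : BT α} (h : Sub t' t) : ∀ {x : α}, mem x t' → mem x t := by
  induction h with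
  | refl_leaf v => exact fun h => h
  | root_leaf v l r => exact fun h => Or.inl h
  | both v _ _ ih1 ih2 =>
    intro x hx
    rcases hx with hx | hx | hx
    · exact Or.inl hx
    · exact Or.inr (Or.inl (ih1 hx))
    · exact Or.inr (Or.inr (ih2 hx))
  | inl v r _ ih => exact fun hx => Or.inr (Or.inl (ih hx))
  | inr v l _ ih => exact fun hx => Or.inr (Or.inr (ih hx))

lemma Sub.trans {t₁ t₂ t₃ : BT α} (h12 : Sub t₁ t₂) (h23 : Sub t₂ t₃) : Sub t₁ t₃ := by
  induction h23 generalizing t₁ with
  | refl_leaf v => exact h12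
  | root_leaf v l r =>
    cases h12 with
    | refl_leaf => exact Sub.root_leaf v l r
  | both v _ _ ih1 ih2 =>
    cases h12 with
    | root_leaf => exact Sub.root_leaf v _ _
    | both _ ha hb => exact Sub.both v (ih1 ha) (ih2 hb)
    | inl _ _ ha => exact Sub.inl v _ (ih1 ha)
    | inr _ _ hb => exact Sub.inr v _ (ih2 hb)
  | inl v r _ ih => exact Sub.inl v r (ih h12)
  | inr v l _ ih => exact Sub.inr v l (ih h12)

/-- every subtree satisfies `p` -/
def All (p : BT α → Prop) : BT α → Prop
  | leaf v => p (leaf v)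
  | node v l r => p (node v l r) ∧ All p l ∧ All p r

/-- predicates on trees that survive shrinking the two subtrees -/
structure Mono (p : BT α → Prop) : Prop where
  shrink : ∀ v l r l' r', p (node v l r) → Sub l' l → Sub r' r → p (node v l' r')
  toLeaf : ∀ v l r, p (node v l r) → p (leaf v)

lemma All.sub {p : BT α → Prop} (hp : Mono p) {t' t : BT α} (h : Sub t' t) :
    All p t → All p t' := by
  induction h with
  | refl_leaf v => exact fun h => h
  | root_leaf v l r => exact fun h => hp.toLeaf v l r h.1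
  | both v h1 h2 ih1 ih2 =>
    intro h
    exact ⟨hp.shrink v _ _ _ _ h.1 h1 h2, ih1 h.2.1, ih2 h.2.2⟩
  | inl v r _ ih => exact fun h => ih h.2.1
  | inr v l _ ih => exact fun h => ih h.2.2

lemma All.imp {p q : BT α → Prop} (hpq : ∀ t, p t → q t) : ∀ t : BT α, All p t → All q t
  | leaf _, h => hpq _ h
  | node _ l r, h => ⟨hpq _ h.1, All.imp hpq l h.2.1, All.imp hpq r h.2.2⟩

lemma ramsey2 {p q : BT α → Prop} (hp : Mono p) (hq : Mono q) (t : BT α) :
    ∀ a b : ℕ, a + b ≤ rk t → All (fun s => p s ∨ q s) t →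
      (∃ t', Sub t' t ∧ a ≤ rk t' ∧ All p t') ∨ (∃ t', Sub t' t ∧ b ≤ rk t' ∧ All q t') := by
  induction t with
  | leaf v =>
    intro a b hab h
    simp only [rk] at hab
    rcases h with h | h
    · exact Or.inl ⟨leaf v, Sub.refl_leaf v, by simp only [rk]; omega, h⟩
    · exact Or.inr ⟨leaf v, Sub.refl_leaf v, by simp only [rk]; omega, h⟩
  | node v l r ihl ihr =>
    intro a b hab h
    simp only [rk] at hab
    obtain ⟨h0, hl, hr⟩ := h
    rcases h0 with h0 | h0
    · cases a with
      | zero => exact Or.inl ⟨leaf v, Sub.root_leaf v l r, Nat.zero_le _, hp.toLeaf v l r h0⟩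
      | succ a =>
        rcases ihl a b (by omega) hl with ⟨l', hl1, hl2, hl3⟩ | ⟨l', hl1, hl2, hl3⟩
        · rcases ihr a b (by omega) hr with ⟨r', hr1, hr2, hr3⟩ | ⟨r', hr1, hr2, hr3⟩
          · exact Or.inl ⟨node v l' r', Sub.both v hl1 hr1, by simp only [rk]; omega,
              hp.shrink v l r l' r' h0 hl1 hr1, hl3, hr3⟩
          · exact Or.inr ⟨r', Sub.inr v l hr1, hr2, hr3⟩
        · exact Or.inr ⟨l', Sub.inl v r hl1, hl2, hl3⟩
    · cases b with
      | zero => exact Or.inr ⟨leaf v, Sub.root_leaf v l r, Nat.zero_le _, hq.toLeaf v l r h0⟩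
      | succ b =>
        rcases ihl a b (by omega) hl with ⟨l', hl1, hl2, hl3⟩ | ⟨l', hl1, hl2, hl3⟩
        · exact Or.inl ⟨l', Sub.inl v r hl1, hl2, hl3⟩
        · rcases ihr a b (by omega) hr with ⟨r', hr1, hr2, hr3⟩ | ⟨r', hr1, hr2, hr3⟩
          · exact Or.inl ⟨r', Sub.inr v l hr1, hr2, hr3⟩
          · exact Or.inr ⟨node v l' r', Sub.both v hl1 hr1, by simp only [rk]; omega,
              hq.shrink v l r l' r' h0 hl1 hr1, hl3, hr3⟩

lemma All.false {t : BT α} (h : All (fun _ => False) t) : False := by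
  cases t with
  | leaf v => exact h
  | node v l r => exact h.1

/-- Ramsey property of binary trees for finitely many shrinkable predicates -/
lemma ramsey {ι : Type} (s : Finset ι) (P : ι → BT α → Prop) (hP : ∀ i ∈ s, Mono (P i)) (n : ℕ) :
    ∀ t : BT α, s.card * n ≤ rk t → All (fun s' => ∃ i ∈ s, P i s') t →
      ∃ i ∈ s, ∃ t', Sub t' t ∧ n ≤ rk t' ∧ All (P i) t' := by
  classical
  induction s using Finset.induction_on with
  | empty =>
    intro t _ h
    exact (All.false (All.imp (by intro t ⟨i, hi, _⟩; simp at hi) t h)).elim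
  | insert i s his ih =>
    intro t ht h
    have hm : Mono (fun s' => ∃ j ∈ s, P j s') := by
      constructor
      · rintro v l r l' r' ⟨j, hj, h1⟩ h2 h3
        exact ⟨j, hj, (hP j (Finset.mem_insert_of_mem hj)).shrink v l r l' r' h1 h2 h3⟩
      · rintro v l r ⟨j, hj, h1⟩
        exact ⟨j, hj, (hP j (Finset.mem_insert_of_mem hj)).toLeaf v l r h1⟩
    have h' : All (fun s' => P i s' ∨ ∃ j ∈ s, P j s') t := by
      refine All.imp ?_ t h
      rintro u ⟨j, hj, h1⟩
      rcases Finset.mem_insert.1 hj with rfl | hj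
      · exact Or.inl h1
      · exact Or.inr ⟨j, hj, h1⟩
    rw [Finset.card_insert_of_notMem his] at ht
    rcases ramsey2 (hP i (Finset.mem_insert_self i s)) hm t n (s.card * n)
      (by rw [add_mul, one_mul] at ht; omega) h' with ⟨t', h1, h2, h3⟩ | ⟨t', h1, h2, h3⟩
    · exact ⟨i, Finset.mem_insert_self i s, t', h1, h2, h3⟩
    · obtain ⟨j, hj, t'', h4, h5, h6⟩ :=
        ih (fun j hj => hP j (Finset.mem_insert_of_mem hj)) t' h2 h3
      exact ⟨j, Finset.mem_insert_of_mem hj, t'', h4.trans h1, h5, h6⟩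

lemma mono_root (Q : α → Prop) : Mono (fun s : BT α => Q (root s)) :=
  ⟨fun _ _ _ _ _ h _ _ => h, fun _ _ _ h => h⟩

lemma all_root_iff (Q : α → Prop) : ∀ t : BT α, All (fun s => Q (root s)) t ↔ ∀ x, mem x t → Q x
  | leaf v => by
    constructor
    · intro h x hx
      simp only [mem] at hx
      rw [hx]; exact h
    · intro h
      exact h v rfl
  | node v l r => by
    have h1 := all_root_iff Q l
    have h2 := all_root_iff Q r
    constructor
    · rintro ⟨ha, hb, hc⟩ x hx
      rcases hx with rfl | hx | hx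
      · exact ha
      · exact h1.1 hb x hx
      · exact h2.1 hc x hx
    · intro h
      exact ⟨h v (Or.inl rfl), h1.2 fun x hx => h x (Or.inr (Or.inl hx)),
        h2.2 fun x hx => h x (Or.inr (Or.inr hx))⟩

/-- colouring version: if every label has one of the properties `Q i`, `i ∈ s`, then there is a
large selected tree all of whose labels have the same property -/
lemma ramsey_color {ι : Type} (s : Finset ι) (Q : ι → α → Prop) (n : ℕ) (t : BT α)
    (ht : s.card * n ≤ rk t) (h : ∀ x, mem x t → ∃ i ∈ s, Q i x) :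
    ∃ i ∈ s, ∃ t', Sub t' t ∧ n ≤ rk t' ∧ ∀ x, mem x t' → Q i x := by
  obtain ⟨i, hi, t', h1, h2, h3⟩ := ramsey s (fun i s' => Q i (root s'))
    (fun i _ => mono_root (Q i)) n t ht ((all_root_iff (fun x => ∃ i ∈ s, Q i x) t).2 h)
  exact ⟨i, hi, t', h1, h2, (all_root_iff (Q i) t').1 h3⟩

/-- `Sep B U t`: the ternary relation `B a b c` (`b` lies between `a` and `c`) holds whenever the
node `b` of `t` separates `a` from `c`, where the elements of `U` count as lying outside `t` -/
def Sep (B : α → α → α → Prop) : (α → Prop) → BT α → Prop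
  | _, leaf _ => True
  | U, node v l r =>
    (∀ a, mem a l → ∀ c, mem c r → B a v c) ∧
    (∀ a, (mem a l ∨ mem a r) → ∀ u, U u → B a v u) ∧
    Sep B (fun x => U x ∨ x = v ∨ mem x r) l ∧ Sep B (fun x => U x ∨ x = v ∨ mem x l) r

lemma Sep.mono {B B' : α → α → α → Prop} {Q : α → Prop}
    (hB : ∀ a b c, Q a → Q b → Q c → B a b c → B' a b c) :
    ∀ (t : BT α) (U U' : α → Prop), (∀ x, U' x → U x) → (∀ x, U' x → Q x) → (∀ x, mem x t → Q x) →
      Sep B U t → Sep B' U' t
  | leaf _, _, _, _, _, _, _ => trivial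
  | node v l r, U, U', hU, hQU, hQ, h => by
    obtain ⟨h1, h2, h3, h4⟩ := h
    have hv : Q v := hQ v (Or.inl rfl)
    have hl : ∀ x, mem x l → Q x := fun x hx => hQ x (Or.inr (Or.inl hx))
    have hr : ∀ x, mem x r → Q x := fun x hx => hQ x (Or.inr (Or.inr hx))
    refine ⟨fun a ha c hc => hB a v c (hl a ha) hv (hr c hc) (h1 a ha c hc),
      fun a ha u hu => hB a v u (ha.elim (hl a) (hr a)) hv (hQU u hu) (h2 a ha u (hU u hu)), ?_, ?_⟩
    · refine Sep.mono hB l _ _ ?_ ?_ hl h3
      · rintro x (hx | hx | hx)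
        · exact Or.inl (hU x hx)
        · exact Or.inr (Or.inl hx)
        · exact Or.inr (Or.inr hx)
      · rintro x (hx | hx | hx)
        · exact hQU x hx
        · rw [hx]; exact hv
        · exact hr x hx
    · refine Sep.mono hB r _ _ ?_ ?_ hr h4
      · rintro x (hx | hx | hx)
        · exact Or.inl (hU x hx)
        · exact Or.inr (Or.inl hx)
        · exact Or.inr (Or.inr hx)
      · rintro x (hx | hx | hx)
        · exact hQU x hx
        · rw [hx]; exact hv
        · exact hl x hx

lemma Sep.monoU {B : α → α → α → Prop} {t : BT α} {U U' : α → Prop} (hU : ∀ x, U' x → U x)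
    (h : Sep B U t) : Sep B U' t :=
  Sep.mono (Q := fun _ => True) (fun _ _ _ _ _ _ h => h) t U U' hU (fun _ _ => trivial)
    (fun _ _ => trivial) h

lemma Sep.sub {B : α → α → α → Prop} {t' t : BT α} (h : Sub t' t) :
    ∀ {U : α → Prop}, Sep B U t → Sep B U t' := by
  induction h with
  | refl_leaf v => exact fun h => h
  | root_leaf v l r => exact fun _ => trivial
  | @both v l l' r r' h1 h2 ih1 ih2 =>
    rintro U ⟨ha, hb, hc, hd⟩
    refine ⟨fun a hal c hcr => ha a (h1.mem hal) c (h2.mem hcr),
      fun a hal u hu => hb a (hal.imp h1.mem h2.mem) u hu, ?_, ?_⟩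
    · refine (ih1 hc).monoU ?_
      rintro x (hx | hx | hx)
      · exact Or.inl hx
      · exact Or.inr (Or.inl hx)
      · exact Or.inr (Or.inr (h2.mem hx))
    · refine (ih2 hd).monoU ?_
      rintro x (hx | hx | hx)
      · exact Or.inl hx
      · exact Or.inr (Or.inl hx)
      · exact Or.inr (Or.inr (h1.mem hx))
  | inl v r _ ih =>
    rintro U ⟨_, _, hc, _⟩
    exact ih (hc.monoU fun x hx => Or.inl hx)
  | inr v l _ ih =>
    rintro U ⟨_, _, _, hd⟩
    exact ih (hd.monoU fun x hx => Or.inl hx)

end BT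

end Pool.Agent.Helper673_greedy
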