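import Pool.Agent.Helper673_greedy.Drawable

namespace Pool.Agent.Helper673_greedy

variable {V : Type}

/-- `l` is a nonempty list of distinct vertices forming, together with `v`, a closed walk
`v, l, v` of `G`. -/
structure EarAt (G : SimpleGraph V) (v : V) (l : List V) : Prop where
  ne : l ≠ []
  nd : l.Nodup
  notMem : v ∉ l
  chain : List.IsChain G.Adj (v :: l)
  last : ∀ x ∈ l.getLast?, G.Adj x v

/-- `Rooted G v A`: the set `A` is the vertex set of a cactus in `G` rooted at `v`, every vertex
lying in at most two blocks and the root in at most one. -/
inductive Rooted (G : SimpleGraph V) : V → Set V → Prop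
  | single (v : V) : Rooted G v {v}
  | ear (v : V) (l : List V) (A : V → Set V) (hl : EarAt G v l)
      (hA : ∀ w ∈ l, Rooted G w (A w)) (hv : ∀ w ∈ l, v ∉ A w)
      (hd : ∀ w ∈ l, ∀ w' ∈ l, w ≠ w' → Disjoint (A w) (A w')) :
      Rooted G v ({v} ∪ ⋃ w ∈ l, A w)

lemma Rooted.mem {G : SimpleGraph V} {v : V} {A : Set V} (h : Rooted G v A) : v ∈ A := by
  cases h with
  | single => rfl
  | ear => exact Or.inl rfl

lemma Rooted.ear' {G : SimpleGraph V} (v : V) (l : List V) (A : V → Set V) (hl : EarAt G v l)
    (hA : ∀ w ∈ l, Rooted G w (A w)) (hv : ∀ w ∈ l, v ∉ A w)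
    (hd : ∀ w ∈ l, ∀ w' ∈ l, w ≠ w' → Disjoint (A w) (A w')) (T : Set V)
    (hT : ∀ y, y ∈ T ↔ y = v ∨ ∃ w ∈ l, y ∈ A w) : Rooted G v T := by
  have : T = {v} ∪ ⋃ w ∈ l, A w := by
    ext y
    rw [hT]
    simp
  rw [this]
  exact Rooted.ear v l A hl hA hv hd

lemma EarAt.single {G : SimpleGraph V} {v x : V} (h : G.Adj v x) : EarAt G v [x] := by
  refine ⟨by simp, by simp, by simpa using h.ne, by simp [h], ?_⟩
  intro y hy
  simp only [List.getLast?_singleton, Option.mem_def, Option.some.injEq] at hy
  subst hy
  exact h.symm

lemma Rooted.pair {G : SimpleGraph V} {v x : V} (h : G.Adj v x) : Rooted G v {v, x} := by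
  refine Rooted.ear' v [x] (fun _ => {x}) (EarAt.single h) ?_ ?_ ?_ _ ?_
  · intro w hw
    rw [List.mem_singleton.1 hw]
    exact Rooted.single x
  · intro w _
    simpa using h.ne
  · intro w hw w' hw' hne
    rw [List.mem_singleton.1 hw, List.mem_singleton.1 hw'] at hne
    exact absurd rfl hne
  · intro y
    simp

lemma EarAt.head_adj {G : SimpleGraph V} {v a : V} {l : List V} (h : EarAt G v (a :: l)) :
    G.Adj v a := by
  have := h.chain
  rw [List.isChain_cons_cons] at this
  exact this.1

/-- inserting a vertex into an ear -/
lemma EarAt.insert {G : SimpleGraph V} {v w x pr : V} {l1 l2 L : List V}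
    (h : EarAt G v (l1 ++ w :: l2)) (hL : v :: l1 = L ++ [pr]) (h1 : G.Adj pr x) (h2 : G.Adj x w)
    (hxv : x ≠ v) (hx : x ∉ l1 ++ w :: l2) : EarAt G v (l1 ++ x :: w :: l2) := by
  refine ⟨by simp, ?_, ?_, ?_, ?_⟩
  · rw [List.nodup_middle]
    exact List.nodup_cons.2 ⟨hx, h.nd⟩
  · have := h.notMem
    simp only [List.mem_append, List.mem_cons, not_or] at this ⊢
    exact ⟨this.1, hxv.symm, this.2⟩
  · have hc := h.chain
    have e1 : v :: (l1 ++ w :: l2) = L ++ pr :: w :: l2 := by
      rw [← List.cons_append, hL]; simp
    have e2 : v :: (l1 ++ x :: w :: l2) = L ++ pr :: x :: w :: l2 := by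
      rw [← List.cons_append, hL]; simp
    rw [e1, List.isChain_split, List.isChain_cons_cons] at hc
    rw [e2, List.isChain_split, List.isChain_cons_cons, List.isChain_cons_cons]
    exact ⟨hc.1, h1, h2, hc.2.2⟩
  · intro y hy
    apply h.last y
    simpa [List.getLast?_append_cons] using hy

/-- merging a child ear into an ear -/
lemma EarAt.merge {G : SimpleGraph V} {v w c1 pr : V} {l1 l2 c L : List V}
    (h : EarAt G v (l1 ++ w :: l2)) (hc : EarAt G w (c1 :: c)) (hL : v :: l1 = L ++ [pr])
    (h1 : G.Adj pr c1) (hv : v ∉ c1 :: c) (hdis : ∀ y ∈ c1 :: c, y ∉ l1 ++ w :: l2) :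
    EarAt G v (l1 ++ (c1 :: c) ++ w :: l2) := by
  refine ⟨by simp, ?_, ?_, ?_, ?_⟩
  · have hn := h.nd
    rw [List.append_assoc]
    rw [List.nodup_append] at hn ⊢
    refine ⟨hn.1, ?_, ?_⟩
    · rw [List.nodup_append]
      refine ⟨hc.nd, hn.2.1, ?_⟩
      intro a ha b hb hab
      subst hab
      exact hdis a ha (List.mem_append_right _ hb)
    · intro a ha b hb hab
      subst hab
      rcases List.mem_append.1 hb with hb | hb
      · exact hdis a hb (List.mem_append_left _ ha)
      · exact hn.2.2 a ha a hb rfl
  · have := h.notMem
    simp only [List.mem_append, List.mem_cons, not_or] at this hv ⊢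
    exact ⟨⟨this.1, hv⟩, this.2⟩
  · have hch := h.chain
    have hcc := hc.chain
    have e1 : v :: (l1 ++ w :: l2) = L ++ pr :: w :: l2 := by
      rw [← List.cons_append, hL]; simp
    have e2 : v :: (l1 ++ (c1 :: c) ++ w :: l2) = L ++ pr :: (c1 :: c ++ w :: l2) := by
      rw [List.append_assoc, ← List.cons_append, hL]; simp
    rw [e1, List.isChain_split, List.isChain_cons_cons] at hch
    rw [e2, List.isChain_split]
    refine ⟨hch.1, ?_⟩
    rw [List.cons_append, List.isChain_cons_cons]
    refine ⟨h1, ?_⟩
    rw [← List.cons_append, List.isChain_append]
    rw [List.isChain_cons_cons] at hcc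
    refine ⟨hcc.2, hch.2.2, ?_⟩
    intro a ha b hb
    simp only [List.head?_cons, Option.mem_def, Option.some.injEq] at hb
    subst hb
    exact hc.last a ha
  · intro y hy
    apply h.last y
    rw [List.getLast?_append_cons] at hy ⊢
    exact hy

/-- `u` is not the centre of an induced claw -/
def ClawFreeAt (G : SimpleGraph V) (u : V) : Prop :=
  ∀ a b c : V, G.Adj u a → G.Adj u b → G.Adj u c → a ≠ b → a ≠ c → b ≠ c →
    G.Adj a b ∨ G.Adj a c ∨ G.Adj b c

open Classical in
/-- replacing one of the hanging cacti -/
lemma Rooted.replace {G : SimpleGraph V} {v : V} {l : List V} {A : V → Set V} (hl : EarAt G v l)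
    (hA : ∀ w ∈ l, Rooted G w (A w)) (hv : ∀ w ∈ l, v ∉ A w)
    (hd : ∀ w ∈ l, ∀ w' ∈ l, w ≠ w' → Disjoint (A w) (A w')) {w : V} (hw : w ∈ l) {x : V}
    (hx : x ∉ ({v} ∪ ⋃ w ∈ l, A w : Set V)) (hR : Rooted G w (insert x (A w))) :
    Rooted G v (insert x ({v} ∪ ⋃ w ∈ l, A w)) := by
  have hxv : x ≠ v := fun h => hx (Or.inl h)
  have hxA : ∀ w' ∈ l, x ∉ A w' := fun w' hw' h => hx (Or.inr (Set.mem_biUnion hw' h))
  refine Rooted.ear' v l (Function.update A w (insert x (A w))) hl ?_ ?_ ?_ _ ?_
  · intro w' hw'
    by_cases h : w' = w
    · subst h; simpa using hR
    · rw [Function.update_of_ne h]; exact hA w' hw'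
  · intro w' hw'
    by_cases h : w' = w
    · subst h
      simp only [Function.update_self, Set.mem_insert_iff, not_or]
      exact ⟨hxv.symm, hv _ hw⟩
    · rw [Function.update_of_ne h]; exact hv w' hw'
  · intro w1 hw1 w2 hw2 hne
    by_cases h1 : w1 = w
    · subst h1
      rw [Function.update_self, Function.update_of_ne hne.symm]
      rw [Set.disjoint_insert_left]
      exact ⟨hxA w2 hw2, hd _ hw _ hw2 hne⟩
    · by_cases h2 : w2 = w
      · subst h2
        rw [Function.update_self, Function.update_of_ne h1]
        rw [Set.disjoint_insert_right]
        exact ⟨hxA w1 hw1, hd _ hw1 _ hw hne⟩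
      · rw [Function.update_of_ne h1, Function.update_of_ne h2]
        exact hd _ hw1 _ hw2 hne
  · intro y
    simp only [Set.mem_insert_iff, Set.singleton_union, Set.mem_iUnion, exists_prop]
    constructor
    · rintro (rfl | rfl | ⟨w', hw', hy⟩)
      · exact Or.inr ⟨w, hw, by simp⟩
      · exact Or.inl rfl
      · right
        refine ⟨w', hw', ?_⟩
        by_cases h : w' = w
        · subst h; simp [hy]
        · rw [Function.update_of_ne h]; exact hy
    · rintro (rfl | ⟨w', hw', hy⟩)
      · exact Or.inr (Or.inl rfl)
      · by_cases h : w' = w
        · subst h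
          rw [Function.update_self] at hy
          rcases hy with rfl | hy
          · exact Or.inl rfl
          · exact Or.inr (Or.inr ⟨w', hw', hy⟩)
        · rw [Function.update_of_ne h] at hy
          exact Or.inr (Or.inr ⟨w', hw', hy⟩)

open Classical in
theorem Rooted.extend {G : SimpleGraph V} {v : V} {A : Set V} (h : Rooted G v A) :
    ∀ u ∈ A, u ≠ v → ∀ x, x ∉ A → G.Adj u x → ClawFreeAt G u → Rooted G v (insert x A) := by
  induction h with
  | single v => intro u hu hne; exact absurd hu hne
  | ear v l A hl hA hv hd ih =>
    intro u hu hne x hx hux hcf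
    have hxv : x ≠ v := fun h => hx (Or.inl h)
    have hxA : ∀ w' ∈ l, x ∉ A w' := fun w' hw' h => hx (Or.inr (Set.mem_biUnion hw' h))
    rcases hu with hu | hu
    · exact absurd hu hne
    simp only [Set.mem_iUnion, exists_prop] at hu
    obtain ⟨w, hw, hu⟩ := hu
    by_cases huw : u = w
    · subst huw
      -- the interesting case
      obtain ⟨l1, l2, rfl⟩ := List.append_of_mem hw
      have hL : ∃ L pr, v :: l1 = L ++ [pr] :=
        ⟨(v :: l1).dropLast, (v :: l1).getLast (by simp), (List.dropLast_append_getLast _).symm⟩
      obtain ⟨L, pr, hL⟩ := hL
      have hpr_adj : G.Adj pr u := by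
        have hc := hl.chain
        have e1 : v :: (l1 ++ u :: l2) = L ++ pr :: u :: l2 := by
          rw [← List.cons_append, hL]; simp
        rw [e1, List.isChain_split, List.isChain_cons_cons] at hc
        exact hc.2.1
      have hpr_mem : pr = v ∨ pr ∈ l1 := by
        have : pr ∈ v :: l1 := by rw [hL]; simp
        exact List.mem_cons.1 this
      have hxl : x ∉ l1 ++ u :: l2 := fun h => hxA x h (hA x h).mem
      have hxpr : x ≠ pr := by
        rintro rfl
        rcases hpr_mem with h | h
        · exact hxv h
        · exact hxl (List.mem_append_left _ h)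
      have hu_l1 : u ∉ l1 := by
        have := hl.nd
        rw [List.nodup_middle] at this
        intro h
        exact (List.nodup_cons.1 this).1 (List.mem_append_left _ h)
      -- `pr` is not in `A u`
      have hprA : pr ∉ A u := by
        rcases hpr_mem with h | h
        · rw [h]; exact hv u hw
        · intro hmem
          have hpr_l : pr ∈ l1 ++ u :: l2 := List.mem_append_left _ h
          have hne' : pr ≠ u := by rintro rfl; exact hu_l1 h
          exact Set.disjoint_left.1 (hd pr hpr_l u hw hne') (hA pr hpr_l).mem hmem
      have hAu := hA u hw
      generalize hB : A u = Au at hAu hprA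
      cases hAu with
      | single =>
        refine Rooted.replace hl hA hv hd hw hx ?_
        rw [hB]
        have : (insert x {u} : Set V) = {u, x} := by
          ext y; simp [or_comm]
        rw [this]
        exact Rooted.pair hux
      | ear _ c B hc hB' hwB hdB =>
        obtain ⟨c1, c', rfl⟩ := List.exists_cons_of_ne_nil hc.ne
        have hc1_adj : G.Adj u c1 := hc.head_adj
        have hc1_mem : c1 ∈ ({u} ∪ ⋃ w ∈ c1 :: c', B w : Set V) :=
          Or.inr (Set.mem_biUnion (List.mem_cons_self) (hB' c1 List.mem_cons_self).mem)
        have hxAu : x ∉ ({u} ∪ ⋃ w ∈ c1 :: c', B w : Set V) := by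
          rw [← hB]; exact hxA u hw
        have hxc1 : x ≠ c1 := by rintro rfl; exact hxAu hc1_mem
        have hprc1 : pr ≠ c1 := by rintro rfl; exact hprA hc1_mem
        rcases hcf x pr c1 hux hpr_adj.symm hc1_adj hxpr hxc1 hprc1 with h1 | h1 | h1
        · -- insert `x` before `u`
          refine Rooted.ear' v (l1 ++ x :: u :: l2) (Function.update A x {x})
            (hl.insert hL h1.symm hux.symm hxv hxl) ?_ ?_ ?_ _ ?_
          · intro w' hw'
            by_cases h : w' = x
            · subst h; simpa using Rooted.single w'
            · rw [Function.update_of_ne h]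
              exact hA w' (by simpa [h] using hw')
          · intro w' hw'
            by_cases h : w' = x
            · subst h; simpa using hxv.symm
            · rw [Function.update_of_ne h]
              exact hv w' (by simpa [h] using hw')
          · intro w1 hw1 w2 hw2 hne'
            by_cases e1 : w1 = x
            · subst e1
              rw [Function.update_self, Function.update_of_ne hne'.symm]
              exact Set.disjoint_singleton_left.2 (hxA w2 (by simpa [hne'.symm] using hw2))
            · by_cases e2 : w2 = x
              · subst e2
                rw [Function.update_self, Function.update_of_ne e1]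
                exact Set.disjoint_singleton_right.2 (hxA w1 (by simpa [e1] using hw1))
              · rw [Function.update_of_ne e1, Function.update_of_ne e2]
                exact hd _ (by simpa [e1] using hw1) _ (by simpa [e2] using hw2) hne'
          · intro y
            simp only [Set.mem_insert_iff, Set.singleton_union, Set.mem_iUnion, exists_prop]
            constructor
            · rintro (rfl | rfl | ⟨w', hw', hy⟩)
              · exact Or.inr ⟨y, by simp, by simp⟩
              · exact Or.inl rfl
              · right
                have h : w' ≠ x := by rintro rfl; exact hxl hw'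
                refine ⟨w', ?_, ?_⟩
                · simp only [List.mem_append, List.mem_cons] at hw' ⊢; tauto
                · rw [Function.update_of_ne h]; exact hy
            · rintro (rfl | ⟨w', hw', hy⟩)
              · exact Or.inr (Or.inl rfl)
              · by_cases h : w' = x
                · subst h
                  rw [Function.update_self] at hy
                  exact Or.inl hy
                · rw [Function.update_of_ne h] at hy
                  exact Or.inr (Or.inr ⟨w', by simpa [h] using hw', hy⟩)
        · -- insert `x` at the start of the child ear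
          refine Rooted.replace hl hA hv hd hw hx ?_
          rw [hB]
          have hxc : x ∉ c1 :: c' := fun h =>
            hxAu (Or.inr (Set.mem_biUnion h (hB' x h).mem))
          have hxu : x ≠ u := hux.ne'
          have hear : EarAt G u ([] ++ x :: c1 :: c') :=
            EarAt.insert (L := []) (pr := u) (by simpa using hc) (by simp) hux h1 hxu
              (by simpa using hxc)
          have hxB : ∀ w' ∈ c1 :: c', x ∉ B w' := fun w' hw' h =>
            hxAu (Or.inr (Set.mem_biUnion hw' h))
          refine Rooted.ear' u (x :: c1 :: c') (Function.update B x {x})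
            (by simpa using hear) ?_ ?_ ?_ _ ?_
          · intro w' hw'
            by_cases h : w' = x
            · subst h; simpa using Rooted.single w'
            · rw [Function.update_of_ne h]
              exact hB' w' (by simpa [h] using hw')
          · intro w' hw'
            by_cases h : w' = x
            · subst h; simpa using hxu.symm
            · rw [Function.update_of_ne h]
              exact hwB w' (by simpa [h] using hw')
          · intro w1 hw1 w2 hw2 hne'
            by_cases e1 : w1 = x
            · subst e1
              rw [Function.update_self, Function.update_of_ne hne'.symm]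
              exact Set.disjoint_singleton_left.2 (hxB w2 (by simpa [hne'.symm] using hw2))
            · by_cases e2 : w2 = x
              · subst e2
                rw [Function.update_self, Function.update_of_ne e1]
                exact Set.disjoint_singleton_right.2 (hxB w1 (by simpa [e1] using hw1))
              · rw [Function.update_of_ne e1, Function.update_of_ne e2]
                exact hdB _ (by simpa [e1] using hw1) _ (by simpa [e2] using hw2) hne'
          · intro y
            simp only [Set.mem_insert_iff, Set.singleton_union, Set.mem_iUnion, exists_prop]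
            constructor
            · rintro (rfl | rfl | ⟨w', hw', hy⟩)
              · exact Or.inr ⟨y, by simp, by simp⟩
              · exact Or.inl rfl
              · right
                have h : w' ≠ x := by rintro rfl; exact hxc hw'
                refine ⟨w', List.mem_cons_of_mem _ hw', ?_⟩
                rw [Function.update_of_ne h]; exact hy
            · rintro (rfl | ⟨w', hw', hy⟩)
              · exact Or.inr (Or.inl rfl)
              · by_cases h : w' = x
                · subst h
                  rw [Function.update_self] at hy
                  exact Or.inl hy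
                · rw [Function.update_of_ne h] at hy
                  exact Or.inr (Or.inr ⟨w', by simpa [h] using hw', hy⟩)
        · -- merge the two ears
          have hvAu : v ∉ ({u} ∪ ⋃ w ∈ c1 :: c', B w : Set V) := by
            rw [← hB]; exact hv u hw
          have hcAu : ∀ y ∈ c1 :: c', y ∈ ({u} ∪ ⋃ w ∈ c1 :: c', B w : Set V) := fun y hy =>
            Or.inr (Set.mem_biUnion hy (hB' y hy).mem)
          have hvc : v ∉ c1 :: c' := fun h => hvAu (hcAu v h)
          have hBsub : ∀ y ∈ c1 :: c', B y ⊆ A u := by
            intro y hy z hz
            rw [hB]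
            exact Or.inr (Set.mem_biUnion hy hz)
          have hdis : ∀ y ∈ c1 :: c', y ∉ l1 ++ u :: l2 := by
            intro y hy hyl
            by_cases e : y = u
            · subst e; exact hc.notMem hy
            · refine Set.disjoint_left.1 (hd y hyl u hw e) (hA y hyl).mem ?_
              rw [hB]; exact hcAu y hy
          set A' : V → Set V := fun y => if y ∈ c1 :: c' then B y else if y = u then {u, x} else A y
            with hA'
          have A'c : ∀ y ∈ c1 :: c', A' y = B y := fun y hy => by simp only [hA', if_pos hy]
          have A'u : A' u = {u, x} := by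
            simp only [hA', if_neg hc.notMem, if_true]
          have A'l : ∀ y ∈ l1 ++ u :: l2, y ≠ u → A' y = A y := fun y hy hyu => by
            simp only [hA', if_neg (fun h => hdis y h hy), if_neg hyu]
          have hmem : ∀ y, y ∈ l1 ++ (c1 :: c') ++ u :: l2 ↔ y ∈ c1 :: c' ∨ y ∈ l1 ++ u :: l2 := by
            intro y
            simp only [List.mem_append]
            tauto
          refine Rooted.ear' v (l1 ++ (c1 :: c') ++ u :: l2) A' (hl.merge hc hL h1 hvc hdis)
            ?_ ?_ ?_ _ ?_
          · intro w' hw'
            rcases (hmem w').1 hw' with h | h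
            · rw [A'c _ h]; exact hB' w' h
            · by_cases e : w' = u
              · subst e; rw [A'u]; exact Rooted.pair hux
              · rw [A'l _ h e]; exact hA w' h
          · intro w' hw'
            rcases (hmem w').1 hw' with h | h
            · rw [A'c _ h]
              intro hvB
              exact hv u hw (hBsub w' h hvB)
            · by_cases e : w' = u
              · subst e; rw [A'u]
                simp only [Set.mem_insert_iff, Set.mem_singleton_iff, not_or]
                exact ⟨hne.symm, hxv.symm⟩
              · rw [A'l _ h e]; exact hv w' h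
          · -- disjointness
            have key : ∀ w1 ∈ c1 :: c', ∀ w2 ∈ l1 ++ u :: l2, Disjoint (A' w1) (A' w2) := by
              intro w1 h1' w2 h2'
              rw [A'c _ h1']
              by_cases e : w2 = u
              · subst e
                rw [A'u, Set.disjoint_right]
                rintro y (rfl | rfl) hy
                · exact hwB w1 h1' hy
                · exact hxA _ hw (hBsub w1 h1' hy)
              · rw [A'l _ h2' e]
                exact (hd w2 h2' u hw e).symm.mono_left (hBsub w1 h1')
            intro w1 hw1 w2 hw2 hne'
            rcases (hmem w1).1 hw1 with h1' | h1' <;> rcases (hmem w2).1 hw2 with h2' | h2'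
            · rw [A'c _ h1', A'c _ h2']; exact hdB _ h1' _ h2' hne'
            · exact key _ h1' _ h2'
            · exact (key _ h2' _ h1').symm
            · by_cases e1 : w1 = u
              · subst e1
                rw [A'u, A'l _ h2' hne'.symm, Set.disjoint_left]
                rintro y (rfl | rfl) hy
                · exact Set.disjoint_left.1 (hd _ hw _ h2' hne') (hA _ hw).mem hy
                · exact hxA _ h2' hy
              · by_cases e2 : w2 = u
                · subst e2
                  rw [A'u, A'l _ h1' e1, Set.disjoint_right]
                  rintro y (rfl | rfl) hy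
                  · exact Set.disjoint_left.1 (hd _ h1' _ hw e1) hy (hA _ hw).mem
                  · exact hxA _ h1' hy
                · rw [A'l _ h1' e1, A'l _ h2' e2]
                  exact hd _ h1' _ h2' hne'
          · intro y
            simp only [Set.mem_insert_iff, Set.singleton_union, Set.mem_iUnion, exists_prop]
            constructor
            · rintro (rfl | rfl | ⟨w', hw', hy⟩)
              · exact Or.inr ⟨u, (hmem u).2 (Or.inr hw), by rw [A'u]; simp⟩
              · exact Or.inl rfl
              · right
                by_cases e : w' = u
                · subst e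
                  rw [hB] at hy
                  rcases hy with hy | hy
                  · rw [Set.mem_singleton_iff.1 hy]
                    exact ⟨w', (hmem w').2 (Or.inr hw), by rw [A'u]; simp⟩
                  · simp only [Set.mem_iUnion, exists_prop] at hy
                    obtain ⟨z, hz, hy⟩ := hy
                    exact ⟨z, (hmem z).2 (Or.inl hz), by rw [A'c _ hz]; exact hy⟩
                · exact ⟨w', (hmem w').2 (Or.inr hw'), by rw [A'l _ hw' e]; exact hy⟩
            · rintro (rfl | ⟨w', hw', hy⟩)
              · exact Or.inr (Or.inl rfl)
              · rcases (hmem w').1 hw' with h | h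
                · rw [A'c _ h] at hy
                  exact Or.inr (Or.inr ⟨u, hw, hBsub w' h hy⟩)
                · by_cases e : w' = u
                  · subst e
                    rw [A'u] at hy
                    rcases hy with rfl | rfl
                    · exact Or.inr (Or.inr ⟨y, hw, (hA _ hw).mem⟩)
                    · exact Or.inl rfl
                  · rw [A'l _ h e] at hy
                    exact Or.inr (Or.inr ⟨w', h, hy⟩)
    · -- recursive case
      exact Rooted.replace hl hA hv hd hw hx (ih w hw u hu huw x (hxA w hw) hux hcf)

end Pool.Agent.Helper673_greedy
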