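import Pool.Agent.Helper673_greedy.ClawFree

namespace Pool.Agent.Helper673_greedy

variable {V : Type}

lemma Rooted.reroot {G : SimpleGraph V} {v x : V} {A : Set V} (h : Rooted G v A) (hx : x ∉ A)
    (hvx : G.Adj v x) : Rooted G x (insert x A) := by
  refine Rooted.ear' x [v] (fun _ => A) (EarAt.single hvx.symm) ?_ ?_ ?_ _ ?_
  · intro w hw
    rw [List.mem_singleton.1 hw]; exact h
  · intro w _; exact hx
  · intro w hw w' hw' hne
    rw [List.mem_singleton.1 hw, List.mem_singleton.1 hw'] at hne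
    exact absurd rfl hne
  · intro y; simp

lemma EarAt.head {G : SimpleGraph V} {v : V} {l : List V} (h : EarAt G v l) :
    G.Adj v (l.head h.ne) := by
  obtain ⟨a, l', rfl⟩ := List.exists_cons_of_ne_nil h.ne
  exact h.head_adj

lemma EarAt.tail_chain {G : SimpleGraph V} {v : V} {l : List V} (h : EarAt G v l) :
    l.IsChain G.Adj := by
  obtain ⟨a, l', rfl⟩ := List.exists_cons_of_ne_nil h.ne
  have := h.chain
  rw [List.isChain_cons_cons] at this
  exact this.2

lemma EarAt.getLast {G : SimpleGraph V} {v : V} {l : List V} (h : EarAt G v l) :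
    G.Adj (l.getLast h.ne) v := by
  apply h.last
  rw [List.getLast?_eq_getLast_of_ne_nil h.ne]
  rfl

lemma draw_list {G : SimpleGraph V} {A : V → Set V} (m : List V) :
    (∀ w ∈ m, ∀ S O, Drawable G S O → w ∈ O → (∀ y ∈ A w, y ≠ w → y ∉ S) →
      Drawable G (S ∪ A w) (O \ {w})) →
    m.Nodup → (∀ w ∈ m, ∀ w' ∈ m, w ≠ w' → Disjoint (A w) (A w')) →
    ∀ T P, Drawable G T P → (∀ w ∈ m, w ∈ P) → (∀ w ∈ m, ∀ y ∈ A w, y ≠ w → y ∉ T) →
    Drawable G (T ∪ ⋃ w ∈ m, A w) (P \ {x | x ∈ m}) := by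
  induction m with
  | nil =>
    intro _ _ _ T P hT _ _
    simpa using hT
  | cons w m ih =>
    intro h1 hnd hd T P hT hP hA
    have h2 := h1 w List.mem_cons_self T P hT (hP w List.mem_cons_self) (hA w List.mem_cons_self)
    have hwm : w ∉ m := (List.nodup_cons.1 hnd).1
    have h3 := ih (fun w' hw' => h1 w' (List.mem_cons_of_mem _ hw')) (List.nodup_cons.1 hnd).2
      (fun a ha b hb => hd a (List.mem_cons_of_mem _ ha) b (List.mem_cons_of_mem _ hb))
      (T ∪ A w) (P \ {w}) h2
      (fun w' hw' => ⟨hP w' (List.mem_cons_of_mem _ hw'), fun h => by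
        rw [Set.mem_singleton_iff.1 h] at hw'; exact hwm hw'⟩)
      (fun w' hw' y hy hne hyT => by
        rcases hyT with hyT | hyT
        · exact hA w' (List.mem_cons_of_mem _ hw') y hy hne hyT
        · have hne' : w ≠ w' := by rintro rfl; exact hwm hw'
          exact Set.disjoint_left.1 (hd w List.mem_cons_self w' (List.mem_cons_of_mem _ hw') hne')
            hyT hy)
    have e1 : T ∪ ⋃ w' ∈ w :: m, A w' = T ∪ A w ∪ ⋃ w' ∈ m, A w' := by
      ext y
      simp only [Set.mem_union, Set.mem_iUnion, exists_prop, List.mem_cons]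
      constructor
      · rintro (h | ⟨z, rfl | hz, hy⟩)
        · exact Or.inl (Or.inl h)
        · exact Or.inl (Or.inr hy)
        · exact Or.inr ⟨z, hz, hy⟩
      · rintro ((h | h) | ⟨z, hz, hy⟩)
        · exact Or.inl h
        · exact Or.inr ⟨w, Or.inl rfl, h⟩
        · exact Or.inr ⟨z, Or.inr hz, hy⟩
    rw [e1]
    refine h3.mono ?_
    rintro y ⟨hyP, hy⟩
    simp only [Set.mem_setOf_eq, List.mem_cons, not_or] at hy
    exact ⟨⟨hyP, hy.1⟩, hy.2⟩

theorem Rooted.draw [Finite V] {G : SimpleGraph V} {v : V} {A : Set V} (h : Rooted G v A) :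
    ∀ S O, Drawable G S O → v ∈ O → (∀ y ∈ A, y ≠ v → y ∉ S) → Drawable G (S ∪ A) (O \ {v}) := by
  induction h with
  | single v =>
    intro S O hS hv _
    have : S ∪ {v} = S := by
      ext y
      simp only [Set.union_singleton, Set.mem_insert_iff, or_iff_right_iff_imp]
      rintro rfl
      exact hS.sub hv
    rw [this]
    exact hS.mono Set.sdiff_subset
  | ear v l A hl hA hvA hd ih =>
    intro S O hS hv hdis
    have hvS := hS.sub hv
    have hlS : ∀ x ∈ l, x ∉ S := by
      intro x hx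
      have hxA := (hA x hx).mem
      refine hdis x (Or.inr (Set.mem_biUnion hx hxA)) ?_
      rintro rfl
      exact hvA _ hx hxA
    have h1 := hS.ear hv l hl.ne hl.nd hlS hl.tail_chain hl.head hl.getLast
    have h2 := draw_list (A := A) l (fun w hw => ih w hw) hl.nd hd _ _ h1
      (fun w hw => Or.inr hw) (by
        intro w hw y hy hne hyT
        rcases hyT with hyT | hyT
        · refine hdis y (Or.inr (Set.mem_biUnion hw hy)) ?_ hyT
          rintro rfl
          exact hvA w hw hy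
        · exact Set.disjoint_left.1 (hd w hw y hyT (Ne.symm hne)) hy (hA y hyT).mem)
    have e1 : S ∪ ({v} ∪ ⋃ w ∈ l, A w) = S ∪ {x | x ∈ l} ∪ ⋃ w ∈ l, A w := by
      ext y
      simp only [Set.mem_union, Set.mem_singleton_iff, Set.mem_setOf_eq, Set.mem_iUnion, exists_prop]
      constructor
      · rintro (h | rfl | h)
        · exact Or.inl (Or.inl h)
        · exact Or.inl (Or.inl hvS)
        · exact Or.inr h
      · rintro ((h | h) | h)
        · exact Or.inl h
        · exact Or.inr (Or.inr ⟨y, h, (hA y h).mem⟩)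
        · exact Or.inr (Or.inr h)
    rw [e1]
    refine h2.mono ?_
    rintro y ⟨hyO, hyv⟩
    exact ⟨Or.inl ⟨hyO, hyv⟩, fun hyl => hlS y hyl (hS.sub hyO)⟩

/-- a rooted spanning cactus gives a greedy drawing -/
theorem Rooted.hasGreedyDrawing [Finite V] {G : SimpleGraph V} {v : V}
    (h : Rooted G v Set.univ) : HasGreedyDrawing G := by
  have := h.draw {v} {v} (drawable_singleton G v) rfl (fun y _ hne hy => hne hy)
  rw [Set.union_univ] at this
  exact this.hasGreedyDrawing

lemma exists_crossing {G : SimpleGraph V} (hG : G.Connected) {A : Set V} (hne : A.Nonempty)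
    (hA : A ≠ Set.univ) : ∃ u ∈ A, ∃ x, x ∉ A ∧ G.Adj u x := by
  obtain ⟨a, ha⟩ := hne
  obtain ⟨b, hb⟩ := (Set.ne_univ_iff_exists_notMem A).1 hA
  obtain ⟨p⟩ := hG.preconnected a b
  obtain ⟨d, _, hd1, hd2⟩ := p.exists_boundary_dart A ha hb
  exact ⟨d.fst, hd1, d.snd, hd2, d.adj⟩

theorem exists_rooted_univ [Finite V] {G : SimpleGraph V} (hG : G.Connected)
    (hcf : ∀ u, ClawFreeAt G u) : ∃ r, Rooted G r Set.univ := by
  obtain ⟨r0⟩ := hG.nonempty
  obtain ⟨A, hA⟩ := (Set.toFinite {A : Set V | ∃ r, Rooted G r A}).exists_maximal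
    ⟨{r0}, r0, Rooted.single r0⟩
  obtain ⟨r, hr⟩ := hA.prop
  by_cases hU : A = Set.univ
  · exact ⟨r, hU ▸ hr⟩
  · exfalso
    obtain ⟨u, hu, x, hx, hux⟩ := exists_crossing hG ⟨r, hr.mem⟩ hU
    have : ∃ r, Rooted G r (insert x A) := by
      by_cases hur : u = r
      · subst hur
        exact ⟨x, hr.reroot hx hux⟩
      · exact ⟨r, hr.extend u hu hur x hx hux (hcf u)⟩
    have h1 := hA.le_of_ge this (Set.subset_insert x A)
    exact hx (h1 (Set.mem_insert x A))

theorem clawFree_hasGreedyDrawing [Finite V] {G : SimpleGraph V} (hG : G.Connected)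
    (hcf : ∀ u, ClawFreeAt G u) : HasGreedyDrawing G := by
  obtain ⟨r, hr⟩ := exists_rooted_univ hG hcf
  exact hr.hasGreedyDrawing

end Pool.Agent.Helper673_greedy
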