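import Pool.Agent.Helper673_greedy.Defs
import Pool.Agent.Helper96.TwoFactor.Tutte

namespace Pool.Agent.Helper673_greedy

open SimpleGraph

variable {V : Type}

/-- every edge lies in a cycle -/
def Bridgeless (G : SimpleGraph V) : Prop := ∀ e ∈ G.edgeSet, ¬ G.IsBridge e

lemma even_card_of_invol {α : Type} (s : Finset α) (f : α → α) (h1 : ∀ x ∈ s, f x ∈ s)
    (h2 : ∀ x ∈ s, f (f x) = x) (h3 : ∀ x ∈ s, f x ≠ x) : Even s.card := by
  have h : ∑ x ∈ s, (1 : ZMod 2) = 0 := by
    refine Finset.sum_involution (fun x _ => f x) ?_ ?_ ?_ ?_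
    · intro x _; decide
    · intro x hx _; exact h3 x hx
    · intro x hx; exact h1 x hx
    · intro x hx; exact h2 x hx
  rw [Finset.sum_const, nsmul_eq_mul, mul_one] at h
  exact (ZMod.natCast_eq_zero_iff_even).1 h

section cut

variable [Fintype V] [DecidableEq V] (G : SimpleGraph V)

open Classical in
/-- the arcs leaving `D` -/
noncomputable def cut (D : Finset V) : Finset (V × V) :=
  Finset.univ.filter (fun d : V × V => G.Adj d.1 d.2 ∧ d.1 ∈ D ∧ d.2 ∉ D)

open Classical in
lemma sum_degree_eq (D : Finset V) : ∑ v ∈ D, (G.neighborSet v).ncard =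
    (Finset.univ.filter (fun d : V × V => G.Adj d.1 d.2 ∧ d.1 ∈ D)).card := by
  rw [Finset.card_eq_sum_card_fiberwise (f := Prod.fst) (t := D)
    (by intro d hd; simpa using (Finset.mem_filter.1 hd).2.2)]
  refine Finset.sum_congr rfl fun v hv => ?_
  rw [Set.ncard_eq_toFinset_card']
  refine Finset.card_bij (fun w _ => (v, w)) ?_ ?_ ?_
  · intro w hw
    simp only [Set.mem_toFinset, mem_neighborSet] at hw
    simp [hw, hv]
  · intro a _ b _ hab
    exact (Prod.ext_iff.1 hab).2
  · rintro ⟨a, b⟩ hab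
    simp only [Finset.mem_filter, Finset.mem_univ, true_and] at hab
    refine ⟨b, ?_, ?_⟩
    · simp only [Set.mem_toFinset, mem_neighborSet]
      rw [← hab.2]; exact hab.1.1
    · rw [← hab.2]

open Classical in
lemma cut_parity (D : Finset V) :
    (∑ v ∈ D, (G.neighborSet v).ncard) % 2 = (cut G D).card % 2 := by
  rw [sum_degree_eq]
  have h1 : (Finset.univ.filter (fun d : V × V => G.Adj d.1 d.2 ∧ d.1 ∈ D)) =
      cut G D ∪ Finset.univ.filter (fun d : V × V => G.Adj d.1 d.2 ∧ d.1 ∈ D ∧ d.2 ∈ D) := by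
    ext d
    simp only [cut, Finset.mem_union, Finset.mem_filter, Finset.mem_univ, true_and]
    tauto
  have h2 : Disjoint (cut G D)
      (Finset.univ.filter (fun d : V × V => G.Adj d.1 d.2 ∧ d.1 ∈ D ∧ d.2 ∈ D)) := by
    rw [Finset.disjoint_left]
    intro d h3 h4
    simp only [cut, Finset.mem_filter, Finset.mem_univ, true_and] at h3 h4
    exact h3.2.2 h4.2.2
  rw [h1, Finset.card_union_of_disjoint h2]
  have h3 : Even (Finset.univ.filter
      (fun d : V × V => G.Adj d.1 d.2 ∧ d.1 ∈ D ∧ d.2 ∈ D)).card := by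
    refine even_card_of_invol _ Prod.swap ?_ ?_ ?_
    · intro d hd
      simp only [Finset.mem_filter, Finset.mem_univ, true_and, Prod.fst_swap, Prod.snd_swap] at hd ⊢
      exact ⟨hd.1.symm, hd.2.2, hd.2.1⟩
    · intro d _; exact Prod.swap_swap d
    · rintro ⟨a, b⟩ hd h
      simp only [Finset.mem_filter, Finset.mem_univ, true_and] at hd
      have : b = a := (Prod.ext_iff.1 h).1
      exact hd.1.ne this.symm
  rw [Nat.even_iff] at h3
  omega

lemma two_le_cut (hc : G.Connected) (hb : Bridgeless G) (D : Finset V) (h1 : D.Nonempty)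
    (h2 : D ≠ Finset.univ) : 2 ≤ (cut G D).card := by
  classical
  obtain ⟨a, ha⟩ := h1
  obtain ⟨b, hb'⟩ : ∃ b, b ∉ D := by
    by_contra h
    push Not at h
    exact h2 (Finset.eq_univ_iff_forall.2 h)
  obtain ⟨p⟩ := hc.preconnected a b
  obtain ⟨d, -, hd1, hd2⟩ := p.exists_boundary_dart (D : Set V) ha hb'
  have hd : (d.fst, d.snd) ∈ cut G D := by
    simp only [cut, Finset.mem_filter, Finset.mem_univ, true_and]
    exact ⟨d.adj, hd1, hd2⟩
  by_contra hlt
  push Not at hlt
  have hcard : (cut G D).card = 1 := by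
    have := Finset.card_pos.2 ⟨_, hd⟩
    omega
  obtain ⟨e, he⟩ := Finset.card_eq_one.1 hcard
  have heq : e = (d.fst, d.snd) := by
    rw [he] at hd
    exact (Finset.mem_singleton.1 hd).symm
  refine hb s(d.fst, d.snd) d.adj ?_
  rw [isBridge_iff]
  rintro ⟨q⟩
  obtain ⟨d', -, hd1', hd2'⟩ := q.exists_boundary_dart (D : Set V) hd1 hd2
  have hadj := d'.adj
  rw [deleteEdges_adj] at hadj
  have hmem : (d'.fst, d'.snd) ∈ cut G D := by
    simp only [cut, Finset.mem_filter, Finset.mem_univ, true_and]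
    exact ⟨hadj.1, hd1', hd2'⟩
  rw [he, Finset.mem_singleton, heq] at hmem
  apply hadj.2
  rw [(Prod.ext_iff.1 hmem).1, (Prod.ext_iff.1 hmem).2]
  rfl

end cut

end Pool.Agent.Helper673_greedy
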