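import Pool.Agent.Helper673_greedy.Local

namespace Pool.Agent.Helper673_greedy

open BT

variable {E : Type} [NormedAddCommGroup E] [InnerProductSpace ℝ E] [FiniteDimensional ℝ E]

/-- the points satisfying `P` are close together, compared with their distance from `v` -/
def Small (η : ℝ) (v : E) (P : E → Prop) : Prop :=
  ∃ R : ℝ, 0 < R ∧ (∀ x, P x → R ≤ dist x v) ∧ ∀ x y, P x → P y → dist x y ≤ η * R

lemma Small.anti {η : ℝ} {v : E} {P Q : E → Prop} (h : Small η v P) (hQ : ∀ x, Q x → P x) :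
    Small η v Q := by
  obtain ⟨R, h1, h2, h3⟩ := h
  exact ⟨R, h1, fun x hx => h2 x (hQ x hx), fun x y hx hy => h3 x y (hQ x hx) (hQ y hy)⟩

/-- both subtrees of every node are small as seen from this node -/
def Clu (η : ℝ) : BT E → Prop
  | leaf _ => True
  | node v l r => Small η v (fun x => mem x l) ∧ Small η v (fun x => mem x r) ∧ Clu η l ∧ Clu η r

lemma Clu.sub {η : ℝ} {t' t : BT E} (h : Sub t' t) : Clu η t → Clu η t' := by
  induction h with
  | refl_leaf v => exact fun h => h
  | root_leaf v l r => exact fun _ => trivial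
  | both v h1 h2 ih1 ih2 =>
    rintro ⟨a, b, c, d⟩
    exact ⟨a.anti fun x hx => h1.mem hx, b.anti fun x hx => h2.mem hx, ih1 c, ih2 d⟩
  | inl v r _ ih => exact fun h => ih h.2.2.1
  | inr v l _ ih => exact fun h => ih h.2.2.2

lemma Bet.ne {a b c : E} (h : Bet a b c) : a ≠ b := by
  rintro rfl
  exact lt_irrefl _ h.1

lemma Bet.betO {a b c : E} (o : E) (h : Bet a b c) : BetO o a b c := ⟨fun _ => h.1, fun _ => h.2⟩

lemma exists_clu {η : ℝ} (hη : 0 < η) (n : ℕ) : ∃ N : ℕ, ∀ t : BT E, N ≤ rk t →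
    Sep Bet (fun _ => False) t → ∃ t', Sub t' t ∧ n ≤ rk t' ∧ Clu η t' := by
  induction n with
  | zero =>
    exact ⟨0, fun t _ _ => ⟨leaf (root t), Sub.leaf_root t, Nat.zero_le _, trivial⟩⟩
  | succ n ih =>
    obtain ⟨N₁, h₁⟩ := ih
    obtain ⟨N₂, h₂⟩ := localise (E := E) hη N₁
    refine ⟨N₂ + 1, fun t ht hsep => ?_⟩
    cases t with
    | leaf v => simp [rk] at ht
    | node v l r =>
      simp only [rk] at ht
      obtain ⟨s1, s2, s3, s4⟩ := hsep
      have hl : ∀ x, mem x l → x ≠ v := fun x hx => (s1 x hx (root r) (mem_root r)).ne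
      have hr : ∀ x, mem x r → x ≠ v := fun x hx hxv =>
        lt_irrefl _ (hxv ▸ (s1 (root l) (mem_root l) x hx).2)
      have s3' : Sep Bet (fun _ => False) l := s3.monoU fun _ hx => hx.elim
      have s4' : Sep Bet (fun _ => False) r := s4.monoU fun _ hx => hx.elim
      have conv : ∀ u : BT E, Sep Bet (fun _ => False) u → Sep (BetO v) (fun _ => False) u :=
        fun u hu => Sep.mono (Q := fun _ => True) (fun _ _ _ _ _ _ h => h.betO v) u _ _
          (fun _ h => h) (fun _ _ => trivial) (fun _ _ => trivial) hu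
      obtain ⟨l1, hl1, hl2, hl3⟩ := h₂ v l (by omega) hl (conv l s3')
      obtain ⟨r1, hr1, hr2, hr3⟩ := h₂ v r (by omega) hr (conv r s4')
      obtain ⟨l2, hl4, hl5, hl6⟩ := h₁ l1 hl2 (s3'.sub hl1)
      obtain ⟨r2, hr4, hr5, hr6⟩ := h₁ r1 hr2 (s4'.sub hr1)
      refine ⟨node v l2 r2, Sub.both v (hl4.trans hl1) (hr4.trans hr1), by simp only [rk]; omega,
        Small.anti hl3 fun x hx => hl4.mem hx, Small.anti hr3 fun x hx => hr4.mem hx, hl6, hr6⟩

lemma dir_close {η : ℝ} {v x y : E} {P : E → Prop} (h : Small η v P) (hx : P x) (hy : P y) :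
    dist (dir v x) (dir v y) ≤ 2 * η := by
  obtain ⟨R, hR, h1, h2⟩ := h
  have hx1 := h1 x hx
  have hy1 := h1 y hy
  have hxy := h2 x y hx hy
  rw [dist_eq_norm] at hx1 hy1 hxy
  have hx0 : 0 < ‖x - v‖ := hR.trans_le hx1
  have hy0 : 0 < ‖y - v‖ := hR.trans_le hy1
  have hyv : y ≠ v := by
    rintro rfl
    simp at hy0
  have e1 : dir v x - dir v y = (‖x - v‖)⁻¹ • ((x - y) + (‖y - v‖ - ‖x - v‖) • dir v y) := by
    have e2 : (‖x - v‖)⁻¹ • (‖x - v‖ • dir v y) = dir v y := by
      rw [smul_smul, inv_mul_cancel₀ hx0.ne', one_smul]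
    have e3 : (x - y) + (‖y - v‖ - ‖x - v‖) • dir v y = (x - v) - ‖x - v‖ • dir v y := by
      rw [sub_smul, smul_dir hyv]; abel
    rw [e3, smul_sub, e2]; rfl
  rw [dist_eq_norm, e1, norm_smul, norm_inv, norm_norm, inv_mul_le_iff₀ hx0]
  refine (norm_add_le _ _).trans ?_
  rw [norm_smul, norm_dir hyv, mul_one, Real.norm_eq_abs]
  have h3 : |‖y - v‖ - ‖x - v‖| ≤ ‖x - y‖ := by
    rw [norm_sub_rev x y]
    refine (abs_norm_sub_norm_le _ _).trans ?_
    rw [sub_sub_sub_cancel_right]
  have hη0 : 0 ≤ η := by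
    by_contra hneg
    push Not at hneg
    have : η * R < 0 := mul_neg_of_neg_of_pos hneg hR
    linarith [norm_nonneg (x - y)]
  nlinarith

/-- the four directions at the three top nodes of a deep tree cannot agree -/
lemma final_contradiction {s l r m n : E} {η ε : ℝ} (hη : 0 ≤ η) (hsum : 2 * η + 4 * ε ≤ 1 / 2)
    (h1 : Bet l s r) (h2 : Bet m l r) (h3 : Bet n r l)
    (hm : dist l m ≤ η * dist l s) (hn : dist r n ≤ η * dist r s)
    (hβ : dist (dir l m) (dir s r) ≤ 2 * ε) (hα : dist (dir r n) (dir s l) ≤ 2 * ε) : False := by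
  have hml : m ≠ l := h2.ne
  have hnr : n ≠ r := h3.ne
  have hls : l ≠ s := h1.ne
  have hrs : r ≠ s := by
    rintro rfl
    exact lt_irrefl _ h1.2
  set D := ‖r - l‖ with hD
  set r1 := ‖l - s‖ with hr1
  set r2 := ‖r - s‖ with hr2
  set α := dir s l with hαdef
  set β := dir s r with hβdef
  set α' := dir r n with hα'
  set β' := dir l m with hβ'
  have hr1p : 0 < r1 := norm_pos_iff.2 (sub_ne_zero.2 hls)
  have hr2p : 0 < r2 := norm_pos_iff.2 (sub_ne_zero.2 hrs)
  have nα : ‖α‖ = 1 := norm_dir hls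
  have nβ : ‖β‖ = 1 := norm_dir hrs
  -- D > r1, r2
  have hD1 : r1 < D := by
    have := h1.2
    rw [dist_comm s l, dist_eq_norm, dist_eq_norm] at this
    exact this
  have hD2 : r2 < D := by
    have := h1.1
    rw [dist_comm s r, dist_comm l r, dist_eq_norm, dist_eq_norm] at this
    exact this
  have hDp : 0 < D := hr1p.trans hD1
  -- the vector r - l
  have hu : r - l = r2 • β - r1 • α := by
    rw [hβdef, hαdef, hr2, hr1, smul_dir hrs, smul_dir hls]; abel
  set c := inner ℝ α β with hc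
  have hcβα : inner ℝ β α = c := real_inner_comm _ _
  have hαα : inner ℝ α α = (1 : ℝ) := by rw [real_inner_self_eq_norm_sq, nα]; norm_num
  have hββ : inner ℝ β β = (1 : ℝ) := by rw [real_inner_self_eq_norm_sq, nβ]; norm_num
  have hD2eq : D ^ 2 = r2 ^ 2 + r1 ^ 2 - 2 * (r1 * r2) * c := by
    rw [hD, ← real_inner_self_eq_norm_sq, hu, inner_sub_left, inner_sub_right, inner_sub_right,
      inner_smul_left, inner_smul_left, inner_smul_left, inner_smul_left, inner_smul_right,
      inner_smul_right, inner_smul_right, inner_smul_right, hαα, hββ, hcβα]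
    simp only [conj_trivial]
    ring
  have hclt : c < 1 / 2 := by
    by_contra hcge
    push Not at hcge
    rcases le_total r1 r2 with hle | hle
    · nlinarith [mul_pos hr1p hr2p]
    · nlinarith [mul_pos hr1p hr2p]
  -- inner products with the vector r - l
  have hineq1 : inner ℝ (r - l) β' ≤ η * D := by
    have hd : ‖m - l‖ ≤ η * r1 := by
      have := hm
      rw [dist_comm l m, dist_eq_norm, dist_eq_norm] at this
      exact this
    have hdp : 0 < ‖m - l‖ := norm_pos_iff.2 (sub_ne_zero.2 hml)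
    have h4 : ‖l - r‖ < ‖m - r‖ := by
      have := h2.1
      rwa [dist_eq_norm, dist_eq_norm] at this
    have h5 : ‖m - r‖ ^ 2 = D ^ 2 - 2 * (‖m - l‖ * inner ℝ (r - l) β') + ‖m - l‖ ^ 2 := by
      have h6 : m - r = (m - l) - (r - l) := by abel
      have h7 : inner ℝ (r - l) (m - l) = ‖m - l‖ * inner ℝ (r - l) β' := by
        rw [hβ', ← inner_smul_right, smul_dir hml]
      rw [h6, norm_sub_sq_real, real_inner_comm, h7]
      ring
    have h8 : D ^ 2 < ‖m - r‖ ^ 2 := by
      rw [hD, norm_sub_rev r l]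
      exact pow_lt_pow_left₀ h4 (norm_nonneg _) two_ne_zero
    have h9 : 2 * inner ℝ (r - l) β' < ‖m - l‖ := by
      by_contra hcon
      push Not at hcon
      nlinarith
    nlinarith
  have hineq2 : -(inner ℝ (r - l) α') ≤ η * D := by
    have hd : ‖n - r‖ ≤ η * r2 := by
      have := hn
      rw [dist_comm r n, dist_eq_norm, dist_eq_norm] at this
      exact this
    have hdp : 0 < ‖n - r‖ := norm_pos_iff.2 (sub_ne_zero.2 hnr)
    have h4 : ‖r - l‖ < ‖n - l‖ := by
      have := h3.1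
      rwa [dist_eq_norm, dist_eq_norm] at this
    have h5 : ‖n - l‖ ^ 2 = D ^ 2 + 2 * (‖n - r‖ * inner ℝ (r - l) α') + ‖n - r‖ ^ 2 := by
      have h6 : n - l = (n - r) + (r - l) := by abel
      have h7 : inner ℝ (r - l) (n - r) = ‖n - r‖ * inner ℝ (r - l) α' := by
        rw [hα', ← inner_smul_right, smul_dir hnr]
      rw [h6, norm_add_sq_real, real_inner_comm, h7]
      ring
    have h8 : D ^ 2 < ‖n - l‖ ^ 2 := by
      rw [hD]
      exact pow_lt_pow_left₀ h4 (norm_nonneg _) two_ne_zero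
    have h9 : -(2 * inner ℝ (r - l) α') < ‖n - r‖ := by
      by_contra hcon
      push Not at hcon
      nlinarith
    nlinarith
  have hcs1 : inner ℝ (r - l) (β - β') ≤ 2 * ε * D := by
    refine (real_inner_le_norm _ _).trans ?_
    rw [← hD, ← dist_eq_norm, dist_comm β β']
    nlinarith
  have hcs2 : inner ℝ (r - l) (α' - α) ≤ 2 * ε * D := by
    refine (real_inner_le_norm _ _).trans ?_
    rw [← hD, ← dist_eq_norm]
    nlinarith
  have hkey : inner ℝ (r - l) (β - α) = (r1 + r2) * (1 - c) := by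
    rw [hu, inner_sub_left, inner_sub_right, inner_sub_right, inner_smul_left, inner_smul_left,
      inner_smul_left, inner_smul_left, hαα, hββ, hcβα]
    simp only [conj_trivial]
    ring
  have hsplit : inner ℝ (r - l) (β - α) = inner ℝ (r - l) β' - inner ℝ (r - l) α' +
      inner ℝ (r - l) (β - β') + inner ℝ (r - l) (α' - α) := by
    rw [inner_sub_right, inner_sub_right, inner_sub_right]; ring
  have hup : (r1 + r2) * (1 - c) ≤ 2 * (η * D) + 4 * ε * D := by
    rw [← hkey, hsplit]; linarith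
  have hDle : D ≤ r1 + r2 := by
    rw [hD, hr1, hr2, norm_sub_rev l s, add_comm]
    calc ‖r - l‖ = ‖(r - s) + (s - l)‖ := by rw [sub_add_sub_cancel]
      _ ≤ _ := norm_add_le _ _
  have hrr : 0 < r1 + r2 := by linarith
  have hη2 : 2 * (η * D) + 4 * ε * D ≤ 1 / 2 * (r1 + r2) := by
    calc 2 * (η * D) + 4 * ε * D = (2 * η + 4 * ε) * D := by ring
      _ ≤ 1 / 2 * D := mul_le_mul_of_nonneg_right hsum hDp.le
      _ ≤ 1 / 2 * (r1 + r2) := by linarith
  nlinarith

/-- the directions of the two subtrees at the root are `i.1` and `i.2` up to `ε` -/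
def DirP (ε : ℝ) (i : E × E) : BT E → Prop
  | leaf _ => True
  | node v l r => (∀ x, mem x l → dist (dir v x) i.1 ≤ ε) ∧ (∀ x, mem x r → dist (dir v x) i.2 ≤ ε)

lemma mono_dirP (ε : ℝ) (i : E × E) : Mono (DirP ε i) :=
  ⟨fun _ _ _ _ _ h h1 h2 => ⟨fun x hx => h.1 x (h1.mem hx), fun x hx => h.2 x (h2.mem hx)⟩,
    fun _ _ _ _ => trivial⟩

lemma all_dirP {ε : ℝ} {S : Finset E} (hS : ∀ x : E, ‖x‖ ≤ 1 → ∃ e ∈ S, dist x e < ε / 2)
    {η : ℝ} (hη : 2 * η ≤ ε / 2) : ∀ t : BT E, Clu η t →
      All (fun s' => ∃ i ∈ S ×ˢ S, DirP ε i s') t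
  | leaf v, _ => by
    obtain ⟨e, he, _⟩ := hS 0 (by simp)
    exact ⟨(e, e), Finset.mem_product.2 ⟨he, he⟩, trivial⟩
  | node v l r, h => by
    obtain ⟨h1, h2, h3, h4⟩ := h
    refine ⟨?_, all_dirP hS hη l h3, all_dirP hS hη r h4⟩
    have hne : ∀ u : BT E, Small η v (fun x => mem x u) → root u ≠ v := by
      rintro u ⟨R, hR, hx, _⟩ heq
      have := hx (root u) (mem_root u)
      rw [heq, dist_self] at this
      linarith
    obtain ⟨e, he, he'⟩ := hS (dir v (root l)) (by rw [norm_dir (hne l h1)])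
    obtain ⟨f, hf, hf'⟩ := hS (dir v (root r)) (by rw [norm_dir (hne r h2)])
    refine ⟨(e, f), Finset.mem_product.2 ⟨he, hf⟩, fun x hx => ?_, fun x hx => ?_⟩
    · have := dist_triangle (dir v x) (dir v (root l)) e
      have h5 := dir_close h1 hx (mem_root l)
      linarith
    · have := dist_triangle (dir v x) (dir v (root r)) f
      have h5 := dir_close h2 hx (mem_root r)
      linarith

/-- deep binary trees have no greedy placement in a fixed Euclidean space -/
lemma no_deep_tree : ∃ N : ℕ, ∀ t : BT E, N ≤ rk t → ¬ Sep Bet (fun _ => False) t := by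
  obtain ⟨S, hS⟩ := exists_net (E := E) 1 (ε := (1 / 10 : ℝ) / 2) (by norm_num)
  obtain ⟨N, hN⟩ := exists_clu (E := E) (η := 1 / 100) (by norm_num) ((S ×ˢ S).card * 2)
  refine ⟨N, fun t ht hsep => ?_⟩
  obtain ⟨t1, hs1, hr1, hc1⟩ := hN t ht hsep
  have hsep1 := hsep.sub hs1
  obtain ⟨i, _, t2, hs2, hr2, hall⟩ := ramsey (S ×ˢ S) (fun i => DirP (1 / 10) i)
    (fun i _ => mono_dirP _ i) 2 t1 hr1
    (all_dirP hS (η := 1 / 100) (by norm_num) t1 hc1)
  have hsep2 := hsep1.sub hs2
  have hc2 := hc1.sub hs2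
  cases t2 with
  | leaf v => simp [rk] at hr2
  | node s tl tr =>
    cases tl with
    | leaf v => simp [rk] at hr2
    | node l l0 l1 =>
      cases tr with
      | leaf v => simp [rk] at hr2
      | node r r0 r1 =>
        obtain ⟨⟨d1, d2⟩, ⟨⟨d3, d4⟩, -, -⟩, ⟨⟨d5, d6⟩, -, -⟩⟩ := hall
        obtain ⟨g1, g2, g3, g4⟩ := hsep2
        obtain ⟨g5, g6, -, -⟩ := g3
        obtain ⟨g7, g8, -, -⟩ := g4
        obtain ⟨c1, c2, -, -⟩ := hc2
        have ml : mem l (node l l0 l1) := Or.inl rfl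
        have mr : mem r (node r r0 r1) := Or.inl rfl
        have mm : mem (root l1) (node l l0 l1) := Or.inr (Or.inr (mem_root l1))
        have mn : mem (root r0) (node r r0 r1) := Or.inr (Or.inl (mem_root r0))
        refine final_contradiction (s := s) (l := l) (r := r) (m := root l1) (n := root r0)
          (η := 1 / 100) (ε := 1 / 10) (by norm_num) (by norm_num) (g1 l ml r mr)
          (g6 _ (Or.inr (mem_root l1)) r (Or.inr (Or.inr mr)))
          (g8 _ (Or.inl (mem_root r0)) l (Or.inr (Or.inr ml))) ?_ ?_ ?_ ?_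
        · obtain ⟨R, hR, h1, h2⟩ := c1
          have := h1 l ml
          have := h2 l _ ml mm
          nlinarith
        · obtain ⟨R, hR, h1, h2⟩ := c2
          have := h1 r mr
          have := h2 r _ mr mn
          nlinarith
        · have h1 := d4 _ (mem_root l1)
          have h2 := d2 r mr
          have := dist_triangle_right (dir l (root l1)) (dir s r) i.2
          linarith
        · have h1 := d5 _ (mem_root r0)
          have h2 := d1 l ml
          have := dist_triangle_right (dir r (root r0)) (dir s l) i.1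
          linarith

end Pool.Agent.Helper673_greedy
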