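import Mathlib

namespace Pool.Agent.Helper673_greedy

/-- A greedy drawing of `G` in the Euclidean plane: an injective placement `p` of the vertices such
that from every vertex `s` and for every other vertex `t` some neighbour `u` of `s` is strictly
closer to `t` than `s` is. -/
def IsGreedyDrawing {V : Type} (G : SimpleGraph V) (p : V → EuclideanSpace ℝ (Fin 2)) : Prop :=
  Function.Injective p ∧
    ∀ s t : V, s ≠ t → ∃ u : V, G.Adj s u ∧ dist (p u) (p t) < dist (p s) (p t)

/-- `G` admits a greedy drawing in the Euclidean plane. -/
def HasGreedyDrawing {V : Type} (G : SimpleGraph V) : Prop :=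
  ∃ p : V → EuclideanSpace ℝ (Fin 2), IsGreedyDrawing G p

end Pool.Agent.Helper673_greedy
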