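import Pool.Agent.Helper673_greedy.Ear2

namespace Pool.Agent.Helper673_greedy

variable {V : Type}

/-- The vertices of `S` can be placed so that greedy routing inside `S` works and every vertex of
`O` is strictly extreme in some direction. -/
def Drawable (G : SimpleGraph V) (S O : Set V) : Prop :=
  ∃ (p : V → Pt) (F : Set (V × Pt)), Cfg G S F p ∧ ∀ o ∈ O, ∃ d, (o, d) ∈ F

lemma Drawable.mono {G : SimpleGraph V} {S O O' : Set V} (h : Drawable G S O) (hO : O' ⊆ O) :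
    Drawable G S O' := by
  obtain ⟨p, F, h1, h2⟩ := h
  exact ⟨p, F, h1, fun o ho => h2 o (hO ho)⟩

lemma Drawable.sub {G : SimpleGraph V} {S O : Set V} (h : Drawable G S O) : O ⊆ S := by
  obtain ⟨p, F, h1, h2⟩ := h
  intro o ho
  obtain ⟨d, hd⟩ := h2 o ho
  exact h1.mem _ hd

/-- hanging an ear at an open vertex -/
theorem Drawable.ear [Finite V] {G : SimpleGraph V} {S O : Set V} (h : Drawable G S O) {v : V}
    (hv : v ∈ O) (l : List V) (hne : l ≠ []) (hnd : l.Nodup) (hdisj : ∀ x ∈ l, x ∉ S)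
    (hch : l.IsChain G.Adj) (hhead : G.Adj v (l.head hne)) (hlast : G.Adj (l.getLast hne) v) :
    Drawable G (S ∪ {x | x ∈ l}) ((O \ {v}) ∪ {x | x ∈ l}) := by
  obtain ⟨p, F, h1, h2⟩ := h
  obtain ⟨d, hd⟩ := h2 v hv
  obtain ⟨p', F', h3, h4, h5⟩ := h1.ear hd l hne hnd hdisj hch hhead hlast
  refine ⟨p', F', h3, ?_⟩
  rintro o (⟨ho, hov⟩ | ho)
  · obtain ⟨d', hd'⟩ := h2 o ho
    refine ⟨d', h4 _ hd' ?_⟩
    intro heq
    exact hov (Prod.ext_iff.1 heq).1
  · exact h5 o ho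

lemma cfg_root (G : SimpleGraph V) (r : V) :
    Cfg G {r} {(r, ((1 : ℝ), (0 : ℝ))), (r, ((-1 : ℝ), (0 : ℝ)))} (fun _ => (0, 0)) := by
  constructor
  · intro s hs t ht hst
    exact absurd (hs.trans ht.symm) hst
  · exact Set.toFinite _
  · rintro f (rfl | rfl) <;> rfl
  · rintro f (rfl | rfl) <;> norm_num [dot]
  · rintro f (rfl | rfl) t ht htne <;> exact absurd ht htne
  · rintro f (rfl | rfl) g (rfl | rfl) _ hne <;> first | exact absurd rfl hne | norm_num [dot]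

lemma drawable_singleton (G : SimpleGraph V) (r : V) : Drawable G {r} {r} :=
  ⟨_, _, cfg_root G r, fun o ho => ⟨((1 : ℝ), (0 : ℝ)), by
    rw [Set.mem_singleton_iff.1 ho]; exact Or.inl rfl⟩⟩

/-- the first ear at the root leaves the root open -/
theorem drawable_first_ear [Finite V] (G : SimpleGraph V) (r : V) (l : List V) (hne : l ≠ [])
    (hnd : l.Nodup) (hdisj : r ∉ l) (hch : l.IsChain G.Adj) (hhead : G.Adj r (l.head hne))
    (hlast : G.Adj (l.getLast hne) r) :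
    Drawable G ({r} ∪ {x | x ∈ l}) ({r} ∪ {x | x ∈ l}) := by
  have hd : (r, ((1 : ℝ), (0 : ℝ))) ∈
      ({(r, ((1 : ℝ), (0 : ℝ))), (r, ((-1 : ℝ), (0 : ℝ)))} : Set (V × Pt)) := Or.inl rfl
  obtain ⟨p', F', h3, h4, h5⟩ := (cfg_root G r).ear hd l hne hnd (by
    intro x hx hxr
    rw [Set.mem_singleton_iff.1 hxr] at hx
    exact hdisj hx) hch hhead hlast
  refine ⟨p', F', h3, ?_⟩
  rintro o (ho | ho)
  · refine ⟨((-1 : ℝ), (0 : ℝ)), ?_⟩
    rw [Set.mem_singleton_iff.1 ho]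
    refine h4 _ (Or.inr rfl) ?_
    intro heq
    have := (Prod.ext_iff.1 (Prod.ext_iff.1 heq).2).1
    norm_num at this
  · exact h5 o ho

theorem Drawable.hasGreedyDrawing {G : SimpleGraph V} {O : Set V}
    (h : Drawable G Set.univ O) : HasGreedyDrawing G := by
  obtain ⟨p, F, h1, -⟩ := h
  refine hasGreedyDrawing_of G p fun s t hst => ?_
  obtain ⟨u, -, h2, h3⟩ := h1.greedy s trivial t trivial hst
  exact ⟨u, h2, h3⟩

end Pool.Agent.Helper673_greedy
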