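import Pool.Agent.Helper673_greedy.Plane

namespace Pool.Agent.Helper673_greedy

open Filter Topology

variable {V : Type}

/-- A greedy placement of the vertices in `S`, together with a finite set of flags: a flag `(v, d)`
says that `v` is the strictly extreme vertex of `S` in direction `d`. -/
structure Cfg (G : SimpleGraph V) (S : Set V) (F : Set (V × Pt)) (p : V → Pt) : Prop where
  greedy : ∀ s ∈ S, ∀ t ∈ S, s ≠ t → ∃ u ∈ S, G.Adj s u ∧ sqd (p u) (p t) < sqd (p s) (p t)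
  fin : F.Finite
  mem : ∀ f ∈ F, f.1 ∈ S
  pos : ∀ f ∈ F, 0 < dot f.2 f.2
  flag : ∀ f ∈ F, ∀ t ∈ S, t ≠ f.1 → dot (p t - p f.1) f.2 < 0
  cross : ∀ f ∈ F, ∀ g ∈ F, f.1 = g.1 → f ≠ g → dot f.2 g.2 < 0

open Classical in
/-- the placement after hanging the list `l` at `v` in direction `d` -/
noncomputable def hang (p : V → Pt) (v : V) (d : Pt) (l : List V) (δ r : ℝ) : V → Pt :=
  fun x => if x ∈ l then arc (p v) d r (δ * (l.idxOf x : ℝ)) else p x

open Classical in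
lemma hang_of_mem {p : V → Pt} {v : V} {d : Pt} {l : List V} {δ r : ℝ} {x : V} (h : x ∈ l) :
    hang p v d l δ r x = arc (p v) d r (δ * (l.idxOf x : ℝ)) := by simp [hang, h]

lemma hang_of_notMem {p : V → Pt} {v : V} {d : Pt} {l : List V} {δ r : ℝ} {x : V} (h : x ∉ l) :
    hang p v d l δ r x = p x := by simp [hang, h]

open Classical in
lemma idxOf_le {l : List V} {x : V} (h : x ∈ l) : (l.idxOf x : ℝ) ≤ l.length := by
  exact_mod_cast (List.idxOf_lt_length_of_mem h).le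

lemma abs_mul_le_of {y K b : ℝ} (h0 : 0 ≤ y) (h : y ≤ K) : |y * b| ≤ K * |b| := by
  rw [abs_mul, abs_of_nonneg h0]
  exact mul_le_mul_of_nonneg_right h (abs_nonneg _)

/-- from an arc point, an old target behind the hub is closer to the hub -/
lemma hub_closer {c d t : Pt} {r y K : ℝ} (hd : 0 < dot d d) (hr : 0 < r) (hy0 : 0 ≤ y)
    (hyK : y ≤ K) (hK : K ≤ 1 / 8)
    (h : dot (t - c) d + 2 * K * |dot (t - c) (perp d)| < 0) :
    sqd c t < sqd (arc c d r y) t := by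
  rw [sqd_arc]
  set a := dot (t - c) d
  set b := dot (t - c) (perp d)
  have hb := abs_mul_le_of (b := b) hy0 hyK
  have hb2 := abs_le.1 hb
  have hK0 : 0 ≤ K := hy0.trans hyK
  have hab : 0 ≤ K * |b| := mul_nonneg hK0 (abs_nonneg _)
  have ha : a < 0 := by nlinarith
  have hy2 : y ^ 2 ≤ 1 / 64 := by nlinarith
  have h1 : (1 - y ^ 2) * a + y * b < 0 := by nlinarith [hb2.2]
  have h2 : 0 < r ^ 2 * dot d d * (1 - y ^ 2 + y ^ 4) := by
    have : 0 < 1 - y ^ 2 + y ^ 4 := by nlinarith [sq_nonneg (y ^ 2)]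
    positivity
  nlinarith [mul_pos hr (neg_pos.2 h1)]

/-- one of the two neighbours on the arc is closer to an old target -/
lemma arc_step {c d t : Pt} {r y e : ℝ} (hd : 0 < dot d d) (hr : 0 < r) (he : 0 < e)
    (hy0 : 0 ≤ y) (hy : y ≤ 1 / 8) (he8 : e ≤ 1 / 8) (ha : dot (t - c) d ≤ 0) :
    sqd (arc c d r (y - e)) t < sqd (arc c d r y) t ∨
      sqd (arc c d r (y + e)) t < sqd (arc c d r y) t := by
  by_contra hcon
  push Not at hcon
  have h := second_diff c d t r y e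
  have h1 : 0 < 1 - 6 * y ^ 2 - e ^ 2 := by nlinarith
  have h2 : 2 * r * dot (t - c) d ≤ 0 := by nlinarith
  have h3 : 0 < r ^ 2 * dot d d * (1 - 6 * y ^ 2 - e ^ 2) := by positivity
  have h4 : 2 * e ^ 2 * (2 * r * dot (t - c) d - r ^ 2 * dot d d * (1 - 6 * y ^ 2 - e ^ 2)) < 0 := by
    have : 2 * r * dot (t - c) d - r ^ 2 * dot d d * (1 - 6 * y ^ 2 - e ^ 2) < 0 := by linarith
    have h5 : 0 < 2 * e ^ 2 := by positivity
    exact mul_neg_of_pos_of_neg h5 this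
  linarith [hcon.1, hcon.2]

/-- moving along the arc towards an arc target -/
lemma arc_arc_step {c d : Pt} {r y y' z : ℝ} (hd : 0 < dot d d) (hr : 0 < r)
    (hy : 0 ≤ y) (hz : 0 ≤ z) (hy' : 0 ≤ y') (hy8 : y ≤ 1 / 8) (hz8 : z ≤ 1 / 8) (hy8' : y' ≤ 1 / 8)
    (h : (y < y' ∧ y' ≤ z) ∨ (z ≤ y' ∧ y' < y)) :
    sqd (arc c d r y') (arc c d r z) < sqd (arc c d r y) (arc c d r z) := by
  rw [sqd_arc_arc, sqd_arc_arc]
  have h0 : 0 < r ^ 2 * dot d d := by positivity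
  apply mul_lt_mul_of_pos_left _ h0
  have e1 : (y - z) ^ 2 * (1 + (y + z) ^ 2) - (y' - z) ^ 2 * (1 + (y' + z) ^ 2) =
      (y - y') * ((y + y' - 2 * z) + (y + y') * (y ^ 2 + y' ^ 2 - 2 * z ^ 2)) := by ring
  have h2 : |y ^ 2 + y' ^ 2 - 2 * z ^ 2| ≤ (1 / 2) * |y + y' - 2 * z| ∨ True := Or.inr trivial
  rcases h with ⟨h1, h1'⟩ | ⟨h1, h1'⟩
  · have e2 : (y + y' - 2 * z) + (y + y') * (y ^ 2 + y' ^ 2 - 2 * z ^ 2) < 0 := by
      nlinarith [mul_nonneg hy hz, mul_nonneg hy' hz, mul_nonneg hy hy', sq_nonneg (y - z), sq_nonneg (y' - z)]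
    nlinarith [mul_pos_of_neg_of_neg (sub_neg.2 h1) e2]
  · have e2 : 0 < (y + y' - 2 * z) + (y + y') * (y ^ 2 + y' ^ 2 - 2 * z ^ 2) := by
      have : 0 ≤ y ^ 2 + y' ^ 2 - 2 * z ^ 2 := by nlinarith
      have : 0 ≤ (y + y') * (y ^ 2 + y' ^ 2 - 2 * z ^ 2) := by positivity
      nlinarith
    nlinarith [mul_pos (sub_pos.2 h1') e2]

end Pool.Agent.Helper673_greedy
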