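import Pool.Agent.Helper673_greedy.Ear

namespace Pool.Agent.Helper673_greedy

open Filter Topology

variable {V : Type}

/-- normal direction of the arc -/
def nrm (d : Pt) (y : ℝ) : Pt := (d.1 - 2 * y * d.2, d.2 + 2 * y * d.1)

lemma dot_nrm_pos {d : Pt} (hd : 0 < dot d d) (y : ℝ) : 0 < dot (nrm d y) (nrm d y) := by
  have : dot (nrm d y) (nrm d y) = dot d d * (1 + 4 * y ^ 2) := by
    simp only [dot, nrm]; ring
  rw [this]; positivity

open Classical in
lemma hang_getElem {p : V → Pt} {v : V} {d : Pt} {l : List V} {δ r : ℝ} (hnd : l.Nodup) {j : ℕ}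
    (hj : j < l.length) : hang p v d l δ r l[j] = arc (p v) d r (δ * (j : ℝ)) := by
  rw [hang_of_mem (List.getElem_mem hj), List.Nodup.idxOf_getElem hnd]

theorem Cfg.ear [Finite V] {G : SimpleGraph V} {S : Set V} {F : Set (V × Pt)} {p : V → Pt}
    (h : Cfg G S F p) {v : V} {d : Pt} (hf : (v, d) ∈ F) (l : List V) (hne : l ≠ [])
    (hnd : l.Nodup) (hdisj : ∀ x ∈ l, x ∉ S) (hch : l.IsChain G.Adj)
    (hhead : G.Adj v (l.head hne)) (hlast : G.Adj (l.getLast hne) v) :
    ∃ (p' : V → Pt) (F' : Set (V × Pt)), Cfg G (S ∪ {x | x ∈ l}) F' p' ∧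
      (∀ g ∈ F, g ≠ (v, d) → g ∈ F') ∧ ∀ x ∈ l, ∃ d', (x, d') ∈ F' := by
  classical
  have hvS : v ∈ S := h.mem _ hf
  have hd : 0 < dot d d := h.pos _ hf
  set k : ℝ := (l.length : ℝ) with hk
  -- choose δ
  have e1 : ∀ᶠ δ in 𝓝[>] (0 : ℝ), k * δ < 1 / 8 := by
    refine ev_lt (f := fun δ => k * δ) (g := fun _ => 1 / 8) (by fun_prop) (by fun_prop) ?_
    norm_num
  have e2 : ∀ᶠ δ in 𝓝[>] (0 : ℝ), ∀ t : V, t ∈ S → t ≠ v →
      dot (p t - p v) d + 2 * (k * δ) * |dot (p t - p v) (perp d)| < 0 := by
    rw [eventually_all]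
    intro t
    by_cases ht : t ∈ S ∧ t ≠ v
    · have := ev_neg (f := fun δ => dot (p t - p v) d + 2 * (k * δ) * |dot (p t - p v) (perp d)|)
        (by fun_prop) (by simpa using h.flag _ hf t ht.1 ht.2)
      filter_upwards [this] with δ hδ _ _ using hδ
    · exact Eventually.of_forall fun δ h1 h2 => absurd ⟨h1, h2⟩ ht
  have e3 : ∀ᶠ δ in 𝓝[>] (0 : ℝ), ∀ g ∈ F, g.1 = v → g ≠ (v, d) →
      (63 / 64) * dot d g.2 + (k * δ) * |dot (perp d) g.2| < 0 := by
    rw [eventually_all_finite h.fin]
    intro g hg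
    by_cases hg' : g.1 = v ∧ g ≠ (v, d)
    · have hneg := h.cross _ hf _ hg hg'.1.symm (Ne.symm hg'.2)
      have := ev_neg (f := fun δ => (63 / 64) * dot d g.2 + (k * δ) * |dot (perp d) g.2|)
        (by fun_prop) (by
          simp only [mul_zero, zero_mul, add_zero]
          linarith)
      filter_upwards [this] with δ hδ _ _ using hδ
    · exact Eventually.of_forall fun δ h1 h2 => absurd ⟨h1, h2⟩ hg'
  obtain ⟨δ, hδ0, hδ1, hδ2, hδ3⟩ := (ev_pos.and (e1.and (e2.and e3))).exists
  -- neighbours for the hub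
  have hnb : ∀ s : V, ∃ n : V, s ∈ S → s ≠ v →
      n ∈ S ∧ G.Adj s n ∧ sqd (p n) (p v) < sqd (p s) (p v) := by
    intro s
    by_cases hs : s ∈ S ∧ s ≠ v
    · obtain ⟨u, hu, h1, h2⟩ := h.greedy s hs.1 v hvS hs.2
      exact ⟨u, fun _ _ => ⟨hu, h1, h2⟩⟩
    · exact ⟨s, fun h1 h2 => absurd ⟨h1, h2⟩ hs⟩
  choose n hn using hnb
  -- choose r
  have e4 : ∀ᶠ r in 𝓝[>] (0 : ℝ), ∀ s : V, ∀ x : V, s ∈ S → s ≠ v →
      sqd (p (n s)) (arc (p v) d r (δ * (l.idxOf x : ℝ))) <
        sqd (p s) (arc (p v) d r (δ * (l.idxOf x : ℝ))) := by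
    rw [eventually_all]
    intro s
    rw [eventually_all]
    intro x
    by_cases hs : s ∈ S ∧ s ≠ v
    · have := ev_lt
        (f := fun r => sqd (p (n s)) (arc (p v) d r (δ * (l.idxOf x : ℝ))))
        (g := fun r => sqd (p s) (arc (p v) d r (δ * (l.idxOf x : ℝ))))
        ((continuous_sqd_right _).comp (continuous_arc_r _ _ _))
        ((continuous_sqd_right _).comp (continuous_arc_r _ _ _))
        (by
          simp only [arc_zero]
          exact (hn s hs.1 hs.2).2.2)
      filter_upwards [this] with r hr _ _ using hr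
    · exact Eventually.of_forall fun r h1 h2 => absurd ⟨h1, h2⟩ hs
  have e5 : ∀ᶠ r in 𝓝[>] (0 : ℝ), ∀ g ∈ F, ∀ x : V, g.1 ≠ v →
      dot (arc (p v) d r (δ * (l.idxOf x : ℝ)) - p g.1) g.2 < 0 := by
    rw [eventually_all_finite h.fin]
    intro g hg
    rw [eventually_all]
    intro x
    by_cases hg' : g.1 ≠ v
    · have := ev_neg (f := fun r => dot (arc (p v) d r (δ * (l.idxOf x : ℝ)) - p g.1) g.2)
        ((continuous_dot_left _).comp ((continuous_arc_r _ _ _).sub continuous_const))
        (by
          simp only [arc_zero]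
          exact h.flag _ hg v hvS (Ne.symm hg'))
      filter_upwards [this] with r hr _ using hr
    · exact Eventually.of_forall fun r h1 => absurd h1 hg'
  obtain ⟨r, hr0, hr4, hr5⟩ := (ev_pos.and (e4.and e5)).exists
  -- bounds on the arc parameters
  have hy0 : ∀ j : ℕ, 0 ≤ δ * (j : ℝ) := fun j => by positivity
  have hyK : ∀ j : ℕ, j < l.length → δ * (j : ℝ) ≤ k * δ := by
    intro j hj
    have : (j : ℝ) ≤ k := by rw [hk]; exact_mod_cast hj.le
    nlinarith
  have hy8 : ∀ j : ℕ, j < l.length → δ * (j : ℝ) ≤ 1 / 8 := fun j hj => (hyK j hj).trans hδ1.le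
  have hδ8 : δ ≤ 1 / 8 := by
    have : (1 : ℝ) ≤ k := by
      rw [hk]; exact_mod_cast List.length_pos_of_ne_nil hne
    nlinarith
  set H : V → Pt := hang p v d l δ r with hH
  have Hl : ∀ (j : ℕ) (hj : j < l.length), H l[j] = arc (p v) d r (δ * (j : ℝ)) :=
    fun j hj => hang_getElem hnd hj
  have HS : ∀ x ∈ S, H x = p x := fun x hx => hang_of_notMem (fun hx' => hdisj x hx' hx)
  have hlen : 0 < l.length := List.length_pos_of_ne_nil hne
  have hhead' : G.Adj v l[0] := by
    rw [List.head_eq_getElem] at hhead; exact hhead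
  have hlast' : G.Adj l[l.length - 1] v := by
    rw [List.getLast_eq_getElem] at hlast; exact hlast
  have hchain : ∀ (j : ℕ) (hj : j + 1 < l.length), G.Adj l[j] l[j + 1] := by
    intro j hj
    exact List.isChain_iff_getElem.1 hch j hj
  refine ⟨H, (F \ {(v, d)}) ∪ (fun x => (x, nrm d (δ * (l.idxOf x : ℝ)))) '' {x | x ∈ l},
    ?_, ?_, ?_⟩
  · constructor
    · -- greedy
      intro s hs t ht hst
      rcases hs with hs | hs <;> rcases ht with ht | ht
      · obtain ⟨u, hu, h1, h2⟩ := h.greedy s hs t ht hst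
        exact ⟨u, Or.inl hu, h1, by rw [HS _ hu, HS _ ht, HS _ hs]; exact h2⟩
      · obtain ⟨j, hj, rfl⟩ := List.getElem_of_mem ht
        by_cases hsv : s = v
        · subst hsv
          refine ⟨l[0], Or.inr (List.getElem_mem hlen), hhead', ?_⟩
          rw [Hl 0 hlen, Hl j hj, HS _ hs, sqd_arc_arc, sqd_c_arc]
          have h0 : 0 < r ^ 2 * dot d d := by positivity
          apply mul_lt_mul_of_pos_left _ h0
          have := hy0 j
          have := hy8 j hj
          set z := δ * (j : ℝ)
          simp only [Nat.cast_zero, mul_zero, zero_sub, zero_add]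
          nlinarith [sq_nonneg z, sq_nonneg (z ^ 2)]
        · obtain ⟨h1, h2, h3⟩ := hn s hs hsv
          refine ⟨n s, Or.inl h1, h2, ?_⟩
          rw [HS _ h1, HS _ hs, Hl j hj]
          have := hr4 s l[j] hs hsv
          rwa [List.Nodup.idxOf_getElem hnd] at this
      · obtain ⟨j, hj, rfl⟩ := List.getElem_of_mem hs
        have hpt : dot (p t - p v) d ≤ 0 := by
          by_cases htv : t = v
          · subst htv; simp [dot]
          · exact (h.flag _ hf t ht htv).le
        have hend : sqd (p v) (p t) < sqd (arc (p v) d r (δ * (j : ℝ))) (p t) := by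
          by_cases htv : t = v
          · subst htv
            rw [sqd_self, sqd_comm, sqd_c_arc]
            have := hy0 j
            have := hy8 j hj
            set z := δ * (j : ℝ)
            have : 0 < 1 - z ^ 2 + z ^ 4 := by nlinarith [sq_nonneg (z ^ 2)]
            positivity
          · exact hub_closer hd hr0 (hy0 j) (hyK j hj) hδ1.le (hδ2 t ht htv)
        by_cases hj0 : j = 0
        · subst hj0
          refine ⟨v, Or.inl hvS, hhead'.symm, ?_⟩
          rw [HS _ hvS, HS _ ht, Hl 0 hj]
          exact hend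
        · by_cases hjl : j + 1 = l.length
          · refine ⟨v, Or.inl hvS, ?_, ?_⟩
            · have : l[j] = l[l.length - 1] := by congr 1; omega
              rw [this]; exact hlast'
            · rw [HS _ hvS, HS _ ht, Hl j hj]
              exact hend
          · have hj1 : j + 1 < l.length := by omega
            obtain ⟨i, rfl⟩ : ∃ i, j = i + 1 := ⟨j - 1, by omega⟩
            have hi : i < l.length := by omega
            rcases arc_step (c := p v) (d := d) (t := p t) (r := r) (y := δ * ((i + 1 : ℕ) : ℝ))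
              (e := δ) hd hr0 hδ0 (hy0 _) (hy8 _ hj) hδ8 hpt with h1 | h1
            · refine ⟨l[i], Or.inr (List.getElem_mem hi), (hchain i hj).symm, ?_⟩
              rw [Hl i hi, HS _ ht, Hl _ hj]
              have e : δ * ((i + 1 : ℕ) : ℝ) - δ = δ * (i : ℝ) := by push_cast; ring
              rwa [e] at h1
            · refine ⟨l[i + 1 + 1], Or.inr (List.getElem_mem hj1), hchain _ hj1, ?_⟩
              rw [Hl _ hj1, HS _ ht, Hl _ hj]
              have e : δ * ((i + 1 : ℕ) : ℝ) + δ = δ * ((i + 1 + 1 : ℕ) : ℝ) := by push_cast; ring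
              rwa [e] at h1
      · obtain ⟨i, hi, rfl⟩ := List.getElem_of_mem hs
        obtain ⟨j, hj, rfl⟩ := List.getElem_of_mem ht
        have hij : i ≠ j := by rintro rfl; exact hst rfl
        rcases lt_or_gt_of_ne hij with hlt | hlt
        · have hi1 : i + 1 < l.length := by omega
          refine ⟨l[i + 1], Or.inr (List.getElem_mem hi1), hchain _ hi1, ?_⟩
          rw [Hl _ hi1, Hl _ hi, Hl _ hj]
          refine arc_arc_step hd hr0 (hy0 _) (hy0 _) (hy0 _) (hy8 _ hi) (hy8 _ hj) (hy8 _ hi1)
            (Or.inl ⟨?_, ?_⟩)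
          · exact mul_lt_mul_of_pos_left (by push_cast; linarith) hδ0
          · exact mul_le_mul_of_nonneg_left (by exact_mod_cast hlt) hδ0.le
        · obtain ⟨i', rfl⟩ : ∃ i', i = i' + 1 := ⟨i - 1, by omega⟩
          have hi' : i' < l.length := by omega
          refine ⟨l[i'], Or.inr (List.getElem_mem hi'), (hchain _ hi).symm, ?_⟩
          rw [Hl _ hi', Hl _ hi, Hl _ hj]
          refine arc_arc_step hd hr0 (hy0 _) (hy0 _) (hy0 _) (hy8 _ hi) (hy8 _ hj) (hy8 _ hi')
            (Or.inr ⟨?_, ?_⟩)
          · exact mul_le_mul_of_nonneg_left (by exact_mod_cast (by omega : j ≤ i')) hδ0.le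
          · exact mul_lt_mul_of_pos_left (by push_cast; linarith) hδ0
    · exact (h.fin.subset Set.diff_subset).union ((List.finite_toSet l).image _)
    · rintro g (⟨hg, _⟩ | ⟨x, hx, rfl⟩)
      · exact Or.inl (h.mem g hg)
      · exact Or.inr hx
    · rintro g (⟨hg, _⟩ | ⟨x, hx, rfl⟩)
      · exact h.pos g hg
      · exact dot_nrm_pos hd _
    · rintro g (⟨hg, hg'⟩ | ⟨x, hx, rfl⟩) t ht htne
      · rw [HS _ (h.mem g hg)]
        rcases ht with ht | ht
        · rw [HS _ ht]; exact h.flag g hg t ht htne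
        · obtain ⟨j, hj, rfl⟩ := List.getElem_of_mem ht
          rw [Hl j hj]
          by_cases hgv : g.1 = v
          · rw [hgv]
            have h3 := hδ3 g hg hgv hg'
            have e : dot (arc (p v) d r (δ * (j : ℝ)) - p v) g.2 =
                r * ((1 - (δ * (j : ℝ)) ^ 2) * dot d g.2 + (δ * (j : ℝ)) * dot (perp d) g.2) := by
              simp only [arc, dot, perp, Prod.fst_sub, Prod.snd_sub]; ring
            rw [e]
            apply mul_neg_of_pos_of_neg hr0
            have hb := (abs_le.1 (abs_mul_le_of (b := dot (perp d) g.2) (hy0 j) (hyK j hj))).2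
            have hneg := h.cross _ hf _ hg hgv.symm (Ne.symm hg')
            have := hy0 j
            have := hy8 j hj
            set z := δ * (j : ℝ)
            have hz2 : z ^ 2 ≤ 1 / 64 := by nlinarith
            simp only at hneg
            nlinarith
          · have := hr5 g hg l[j] hgv
            rwa [List.Nodup.idxOf_getElem hnd] at this
      · obtain ⟨i, hi, rfl⟩ := List.getElem_of_mem hx
        simp only [List.Nodup.idxOf_getElem hnd] at htne ⊢
        rw [Hl i hi]
        rcases ht with ht | ht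
        · rw [HS _ ht]
          unfold nrm
          rw [dot_arc_normal]
          have h0 := hy0 i
          have h8 := hy8 i hi
          have hbb := (abs_le.1 (abs_mul_le_of (b := dot (p t - p v) (perp d)) (hy0 i) (hyK i hi))).2
          set z := δ * (i : ℝ)
          have hpos : 0 < r * dot d d * (1 + z ^ 2) := by positivity
          by_cases htv : t = v
          · subst htv
            have e1 : dot (p t - p t) d = 0 := by simp [dot]
            have e2 : dot (p t - p t) (perp d) = 0 := by simp [dot]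
            rw [e1, e2]; linarith
          · have := hδ2 t ht htv
            nlinarith
        · obtain ⟨j, hj, rfl⟩ := List.getElem_of_mem ht
          rw [Hl j hj]
          unfold nrm
          rw [dot_arc_arc_normal]
          have hij : i ≠ j := by rintro rfl; exact htne rfl
          have : δ * (i : ℝ) - δ * (j : ℝ) ≠ 0 := by
            rw [← mul_sub]
            refine mul_ne_zero hδ0.ne' (sub_ne_zero.2 ?_)
            exact_mod_cast hij
          have : 0 < (δ * (i : ℝ) - δ * (j : ℝ)) ^ 2 := by positivity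
          have := mul_pos (mul_pos hr0 hd) this
          linarith
    · rintro f (⟨hf1, hf2⟩ | ⟨x, hx, rfl⟩) g (⟨hg1, hg2⟩ | ⟨y, hy, rfl⟩) hfg hne'
      · exact h.cross f hf1 g hg1 hfg hne'
      · exact absurd (h.mem f hf1) (by rw [hfg]; exact hdisj _ hy)
      · exact absurd (h.mem g hg1) (by rw [← hfg]; exact hdisj _ hx)
      · simp only at hfg
        subst hfg
        exact absurd rfl hne'
  · intro g hg hg'
    exact Or.inl ⟨hg, hg'⟩
  · intro x hx
    exact ⟨_, Or.inr ⟨x, hx, rfl⟩⟩

end Pool.Agent.Helper673_greedy
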