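import Pool.Agent.Helper673_greedy.Cut

namespace Pool.Agent.Helper673_greedy

open SimpleGraph Pool.Agent.Helper96.TwoFactor

variable {V : Type}

/-- number of copies of a vertex in the auxiliary graph -/
noncomputable def cc (G : SimpleGraph V) (v : V) : ℕ :=
  if (G.neighborSet v).ncard = 3 then 1 else (G.neighborSet v).ncard

lemma cc_mod (G : SimpleGraph V) (v : V) : cc G v % 2 = (G.neighborSet v).ncard % 2 := by
  unfold cc
  split_ifs with h
  · rw [h]
  · rfl

lemma le_cc (G : SimpleGraph V) (v : V) : (G.neighborSet v).ncard ≤ 3 * cc G v := by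
  unfold cc
  split_ifs with h
  · omega
  · omega

/-- the auxiliary graph -/
def blow (G : SimpleGraph V) : SimpleGraph (Σ v : V, Fin (cc G v)) where
  Adj x y := x ≠ y ∧ (x.1 = y.1 ∨ G.Adj x.1 y.1)
  symm := ⟨fun _ _ h => ⟨h.1.symm, h.2.elim (fun h => Or.inl h.symm) (fun h => Or.inr h.symm)⟩⟩
  loopless := ⟨fun _ h => h.1 rfl⟩

section

variable [Fintype V] [DecidableEq V] (G : SimpleGraph V)

lemma oddComp_proj {U Z : Set (Σ v : V, Fin (cc G v))} (hZ : OddComp (blow G) U Z)
    {x z : Σ v : V, Fin (cc G v)} (hz : z ∈ Z) (hx : x ∉ U) (h : z.1 = x.1 ∨ G.Adj z.1 x.1) :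
    x ∈ Z := by
  by_cases hxz : z = x
  · rw [← hxz]; exact hz
  · exact hZ.closed hz hx ⟨hxz, h⟩

lemma oddComp_eq_of_proj {U Z Z' : Set (Σ v : V, Fin (cc G v))} (hZ : OddComp (blow G) U Z)
    (hZ' : OddComp (blow G) U Z') {z z' : Σ v : V, Fin (cc G v)} (hz : z ∈ Z) (hz' : z' ∈ Z')
    (h : z.1 = z'.1) : Z = Z' :=
  hZ.eq_of_mem hZ' (oddComp_proj G hZ hz (hZ'.notMem hz') (Or.inl h)) hz'

open Classical in
/-- projection of a set of copies -/
noncomputable def proj (Z : Set (Σ v : V, Fin (cc G v))) : Finset V :=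
  Finset.univ.filter (fun v => ∃ z ∈ Z, z.1 = v)

lemma mem_proj {Z : Set (Σ v : V, Fin (cc G v))} {v : V} : v ∈ proj G Z ↔ ∃ z ∈ Z, z.1 = v := by
  simp [proj]

lemma three_le_cut (hc : G.Connected) (hb : Bridgeless G) {U Z : Set (Σ v : V, Fin (cc G v))}
    (hZ : OddComp (blow G) U Z) (hfull : ∀ x : Σ v : V, Fin (cc G v), x.1 ∈ proj G Z → x ∉ U) :
    3 ≤ (cut G (proj G Z)).card := by
  classical
  have hodd := hZ.2
  have hne : Z.Nonempty := by
    by_contra h
    rw [Set.not_nonempty_iff_eq_empty] at h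
    rw [h] at hodd
    simp at hodd
  obtain ⟨z0, hz0⟩ := hne
  have hZeq : Z = {x : Σ v : V, Fin (cc G v) | x.1 ∈ proj G Z} := by
    ext x
    constructor
    · intro hx
      exact (mem_proj G).2 ⟨x, hx, rfl⟩
    · intro hx
      obtain ⟨z, hz, hzx⟩ := (mem_proj G).1 hx
      exact oddComp_proj G hZ hz (hfull x hx) (Or.inl hzx)
  have hcard : Z.ncard = ∑ v ∈ proj G Z, cc G v := by
    have h1 : Z = ((proj G Z).sigma (fun v => (Finset.univ : Finset (Fin (cc G v)))) :
        Finset (Σ v : V, Fin (cc G v))) := by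
      ext x
      rw [Finset.mem_coe, Finset.mem_sigma]
      constructor
      · intro hx
        exact ⟨(mem_proj G).2 ⟨x, hx, rfl⟩, Finset.mem_univ _⟩
      · rintro ⟨hx, -⟩
        rw [hZeq]; exact hx
    rw [h1, Set.ncard_coe_finset, Finset.card_sigma]
    refine Finset.sum_congr ?_ ?_
    · rw [← h1]
    · intro v _
      simp
  have hpar : (cut G (proj G Z)).card % 2 = 1 := by
    rw [← cut_parity]
    have h1 : (∑ v ∈ proj G Z, cc G v) % 2 = (∑ v ∈ proj G Z, (G.neighborSet v).ncard) % 2 := by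
      rw [Finset.sum_nat_mod, Finset.sum_nat_mod (f := fun v => (G.neighborSet v).ncard)]
      congr 1
      exact Finset.sum_congr rfl fun v _ => cc_mod G v
    rw [← h1, ← hcard]
    exact Nat.odd_iff.1 hodd
  have h2 : 2 ≤ (cut G (proj G Z)).card := by
    refine two_le_cut G hc hb _ ⟨z0.1, (mem_proj G).2 ⟨z0, hz0, rfl⟩⟩ ?_
    intro huniv
    have : cut G (proj G Z) = ∅ := by
      rw [huniv]
      ext d
      simp [cut]
    rw [this] at hpar
    simp at hpar
  omega

theorem blow_tutte (hc : G.Connected) (hb : Bridgeless G) (U : Set (Σ v : V, Fin (cc G v))) :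
    {Z | OddComp (blow G) U Z}.ncard ≤ U.ncard := by
  classical
  set A : Finset V := Finset.univ.filter (fun v => ∀ x : Σ v : V, Fin (cc G v), x.1 = v → x ∈ U)
    with hA
  have memA : ∀ v, v ∈ A ↔ ∀ x : Σ v : V, Fin (cc G v), x.1 = v → x ∈ U := by
    intro v; simp [hA]
  set Sf : Set (Set (Σ v : V, Fin (cc G v))) := {Z | OddComp (blow G) U Z ∧
    ∀ x : Σ v : V, Fin (cc G v), x.1 ∈ proj G Z → x ∉ U} with hSf
  set Sn : Set (Set (Σ v : V, Fin (cc G v))) := {Z | OddComp (blow G) U Z ∧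
    ¬ ∀ x : Σ v : V, Fin (cc G v), x.1 ∈ proj G Z → x ∉ U} with hSn
  have hS : {Z | OddComp (blow G) U Z} = Sf ∪ Sn := by
    ext Z
    simp only [hSf, hSn, Set.mem_union, Set.mem_setOf_eq]
    tauto
  have h1 : Sn.ncard ≤ {x | x ∈ U ∧ x.1 ∉ A}.ncard := by
    rcases isEmpty_or_nonempty (Σ v : V, Fin (cc G v)) with hW | hW
    · have hemp : Sn = ∅ := by
        rw [Set.eq_empty_iff_forall_notMem]
        intro Z hZ
        have h1 := hZ.1.2
        rw [Set.eq_empty_of_isEmpty Z] at h1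
        simp at h1
      rw [hemp]
      simp
    have hch : ∀ Z : Set (Σ v : V, Fin (cc G v)), ∃ x : Σ v : V, Fin (cc G v),
        Z ∈ Sn → x.1 ∈ proj G Z ∧ x ∈ U := by
      intro Z
      by_cases hZ : Z ∈ Sn
      · have := hZ.2
        push Not at this
        obtain ⟨x, hx, hxU⟩ := this
        exact ⟨x, fun _ => ⟨hx, hxU⟩⟩
      · exact ⟨hW.some, fun h => absurd h hZ⟩
    choose g hg using hch
    refine Set.ncard_le_ncard_of_injOn g ?_ ?_ (Set.toFinite _)
    · intro Z hZ
      obtain ⟨h1, h2⟩ := hg Z hZ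
      refine ⟨h2, ?_⟩
      rw [memA]
      intro h
      obtain ⟨z, hz, hzx⟩ := (mem_proj G).1 h1
      exact hZ.1.notMem hz (h z hzx)
    · intro Z hZ Z' hZ' heq
      obtain ⟨h1, -⟩ := hg Z hZ
      obtain ⟨h2, -⟩ := hg Z' hZ'
      obtain ⟨z, hz, hzx⟩ := (mem_proj G).1 h1
      obtain ⟨z', hz', hzx'⟩ := (mem_proj G).1 h2
      refine oddComp_eq_of_proj G hZ.1 hZ'.1 hz hz' ?_
      rw [hzx, hzx', heq]
  have h2 : 3 * Sf.ncard ≤ 3 * {x | x ∈ U ∧ x.1 ∈ A}.ncard := by
    set T := (Set.toFinite Sf).toFinset with hT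
    have hTcard : Sf.ncard = T.card := by rw [Set.ncard_eq_toFinset_card _ (Set.toFinite Sf)]
    have memT : ∀ Z, Z ∈ T ↔ Z ∈ Sf := fun Z => (Set.toFinite Sf).mem_toFinset
    set E : Finset (V × V) := Finset.univ.filter (fun d : V × V => G.Adj d.1 d.2 ∧ d.1 ∈ A) with hE
    have ha : 3 * T.card ≤ (T.biUnion (fun Z => (cut G (proj G Z)).map
        ⟨Prod.swap, Prod.swap_injective⟩)).card := by
      rw [Finset.card_biUnion]
      · rw [mul_comm, ← smul_eq_mul, ← Finset.sum_const]
        refine Finset.sum_le_sum fun Z hZ => ?_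
        rw [Finset.card_map]
        rw [memT] at hZ
        exact three_le_cut G hc hb hZ.1 hZ.2
      · intro Z hZ Z' hZ' hne
        show Disjoint _ _
        rw [Finset.disjoint_left]
        rintro d hd hd'
        rw [Finset.mem_map] at hd hd'
        obtain ⟨e, he, rfl⟩ := hd
        obtain ⟨e', he', hee⟩ := hd'
        have hee' : e' = e := Prod.swap_injective hee
        subst hee'
        simp only [cut, Finset.mem_filter, Finset.mem_univ, true_and] at he he'
        obtain ⟨z, hz, hzx⟩ := (mem_proj G).1 he.2.1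
        obtain ⟨z', hz', hzx'⟩ := (mem_proj G).1 he'.2.1
        rw [Finset.mem_coe, memT] at hZ hZ'
        exact hne (oddComp_eq_of_proj G hZ.1 hZ'.1 hz hz' (hzx.trans hzx'.symm))
    have hbsub : (T.biUnion (fun Z => (cut G (proj G Z)).map
        ⟨Prod.swap, Prod.swap_injective⟩)) ⊆ E := by
      intro d hd
      rw [Finset.mem_biUnion] at hd
      obtain ⟨Z, hZ, hd⟩ := hd
      rw [Finset.mem_map] at hd
      obtain ⟨e, he, rfl⟩ := hd
      rw [memT] at hZ
      simp only [cut, Finset.mem_filter, Finset.mem_univ, true_and] at he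
      simp only [hE, Finset.mem_filter, Finset.mem_univ, true_and, Function.Embedding.coeFn_mk,
        Prod.fst_swap, Prod.snd_swap]
      refine ⟨he.1.symm, ?_⟩
      rw [memA]
      intro x hx
      by_contra hxU
      obtain ⟨z, hz, hzx⟩ := (mem_proj G).1 he.2.1
      have : x ∈ Z := oddComp_proj G hZ.1 hz hxU (Or.inr (by rw [hzx, hx]; exact he.1))
      exact he.2.2 ((mem_proj G).2 ⟨x, this, hx⟩)
    have hcE : E.card ≤ 3 * {x | x ∈ U ∧ x.1 ∈ A}.ncard := by
      have e1 : E.card = ∑ v ∈ A, (G.neighborSet v).ncard := (sum_degree_eq G A).symm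
      have e2 : {x : Σ v : V, Fin (cc G v) | x ∈ U ∧ x.1 ∈ A} =
          ((A.sigma (fun v => (Finset.univ : Finset (Fin (cc G v)))) :
          Finset (Σ v : V, Fin (cc G v))) : Set _) := by
        ext x
        rw [Finset.mem_coe, Finset.mem_sigma]
        constructor
        · rintro ⟨-, hx⟩
          exact ⟨hx, Finset.mem_univ _⟩
        · rintro ⟨hx, -⟩
          exact ⟨(memA x.1).1 hx x rfl, hx⟩
      rw [e1, e2, Set.ncard_coe_finset, Finset.card_sigma, Finset.mul_sum]
      refine Finset.sum_le_sum fun v _ => ?_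
      simpa using le_cc G v
    rw [hTcard]
    exact ha.trans ((Finset.card_le_card hbsub).trans hcE)
  have h3 : U.ncard = {x | x ∈ U ∧ x.1 ∉ A}.ncard + {x | x ∈ U ∧ x.1 ∈ A}.ncard := by
    rw [← Set.ncard_union_eq]
    · congr 1
      ext x
      simp only [Set.mem_union, Set.mem_setOf_eq]
      tauto
    · rw [Set.disjoint_left]
      rintro x ⟨-, h1⟩ ⟨-, h2⟩
      exact h1 h2
  rw [hS, h3]
  have h4 := Set.ncard_union_le Sf Sn
  omega

end

end Pool.Agent.Helper673_greedy
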