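import Pool.Agent.Helper673_greedy.Factor

namespace Pool.Agent.Helper673_greedy

open SimpleGraph Pool.Agent.Helper96.TwoFactor

variable {V : Type}

theorem exists_even_factor [Finite V] (G : SimpleGraph V) (hc : G.Connected)
    (hb : Bridgeless G) : ∃ F : SimpleGraph V, F ≤ G ∧ (∀ v, Even (F.neighborSet v).ncard) ∧
      ∀ v, (G.neighborSet v).ncard = 3 → (F.neighborSet v).ncard = 2 := by
  classical
  haveI := Fintype.ofFinite V
  obtain ⟨P, hP⟩ := (SimpleGraph.tutte (G := blow G)).2 (fun U => by
    unfold IsTutteViolator
    rw [ncard_oddComp]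
    exact not_lt.2 (blow_tutte G hc hb U))
  have hP' : ∀ x, ∃! y, P.Adj x y := fun x => hP.1 (hP.2 x)
  choose f hf huniq using hP'
  have hff : ∀ x, f (f x) = x := fun x => (huniq (f x) x (hf x).symm).symm
  have hfne : ∀ x, f x ≠ x := fun x h => by
    have := (P.adj_sub (hf x)).ne
    rw [h] at this
    exact this rfl
  have hfadj : ∀ x, x.1 = (f x).1 ∨ G.Adj x.1 (f x).1 := fun x => (P.adj_sub (hf x)).2
  set m : V → V → ℕ := fun u v => (Finset.univ.filter
    (fun x : Σ v : V, Fin (cc G v) => x.1 = u ∧ (f x).1 = v)).card with hm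
  have m_symm : ∀ u v, m u v = m v u := by
    intro u v
    refine Finset.card_bij (fun x _ => f x) ?_ ?_ ?_
    · intro x hx
      simp only [Finset.mem_filter, Finset.mem_univ, true_and] at hx ⊢
      exact ⟨hx.2, by rw [hff]; exact hx.1⟩
    · intro x _ y _ h
      rw [← hff x, h, hff]
    · intro y hy
      simp only [Finset.mem_filter, Finset.mem_univ, true_and] at hy
      refine ⟨f y, ?_, hff y⟩
      simp only [Finset.mem_filter, Finset.mem_univ, true_and]
      exact ⟨hy.2, by rw [hff]; exact hy.1⟩
  have m_self : ∀ u, Even (m u u) := by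
    intro u
    refine even_card_of_invol _ f ?_ ?_ ?_
    · intro x hx
      simp only [Finset.mem_filter, Finset.mem_univ, true_and] at hx ⊢
      exact ⟨hx.2, by rw [hff]; exact hx.1⟩
    · intro x _; exact hff x
    · intro x _; exact hfne x
  have m_sum : ∀ u, ∑ v, m u v = cc G u := by
    intro u
    have h1 : (Finset.univ.filter (fun x : Σ v : V, Fin (cc G v) => x.1 = u)).card = cc G u := by
      have : (Finset.univ.filter (fun x : Σ v : V, Fin (cc G v) => x.1 = u)) =
          ({u} : Finset V).sigma (fun v => (Finset.univ : Finset (Fin (cc G v)))) := by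
        ext x
        simp
      rw [this, Finset.card_sigma]
      simp
    rw [← h1, Finset.card_eq_sum_card_fiberwise (f := fun x => (f x).1) (t := Finset.univ)
      (by intro x _; simp)]
    refine Finset.sum_congr rfl fun v _ => ?_
    simp only [hm, Finset.filter_filter]
  have m_adj : ∀ u v, Odd (m u v) → G.Adj u v := by
    intro u v h
    have hne : u ≠ v := by
      rintro rfl
      exact (Nat.not_odd_iff_even.2 (m_self u)) h
    have hpos : 0 < m u v := h.pos
    obtain ⟨x, hx⟩ := Finset.card_pos.1 hpos
    simp only [Finset.mem_filter, Finset.mem_univ, true_and] at hx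
    rcases hfadj x with h1 | h1
    · exact absurd (hx.1.symm.trans (h1.trans hx.2)) hne
    · rw [hx.1, hx.2] at h1
      exact h1
  let F : SimpleGraph V :=
    { Adj := fun u v => G.Adj u v ∧ ¬ Odd (m u v)
      symm := ⟨fun u v h => ⟨h.1.symm, by rw [m_symm]; exact h.2⟩⟩
      loopless := ⟨fun u h => h.1.ne rfl⟩ }
  have hO : ∀ u, (F.neighborSet u).ncard + (Finset.univ.filter (fun v => Odd (m u v))).card =
      (G.neighborSet u).ncard := by
    intro u
    have h1 : F.neighborSet u = G.neighborSet u \
        ((Finset.univ.filter (fun v => Odd (m u v)) : Finset V) : Set V) := by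
      ext v
      simp only [mem_neighborSet, Set.mem_diff, Finset.mem_coe, Finset.mem_filter,
        Finset.mem_univ, true_and]
      exact Iff.rfl
    rw [h1, ← Set.ncard_coe_finset]
    refine Set.ncard_diff_add_ncard_of_subset ?_
    intro v hv
    simp only [Finset.mem_coe, Finset.mem_filter, Finset.mem_univ, true_and] at hv
    exact m_adj u v hv
  have hpar : ∀ u, (Finset.univ.filter (fun v => Odd (m u v))).card % 2 = cc G u % 2 := by
    intro u
    have h1 := Finset.odd_sum_iff_odd_card_odd (s := Finset.univ) (fun v => m u v)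
    rw [m_sum u] at h1
    rcases Nat.even_or_odd (cc G u) with h2 | h2
    · have h3 : ¬ Odd (Finset.univ.filter (fun v => Odd (m u v))).card := by
        intro h3
        exact (Nat.not_odd_iff_even.2 h2) (h1.2 h3)
      rw [Nat.not_odd_iff_even, Nat.even_iff] at h3
      rw [Nat.even_iff] at h2
      omega
    · have h3 := h1.1 h2
      rw [Nat.odd_iff] at h3 h2
      omega
  refine ⟨F, fun u v h => h.1, ?_, ?_⟩
  · intro v
    have h1 := hO v
    have h2 := hpar v
    have h3 := cc_mod G v
    rw [Nat.even_iff]
    omega
  · intro v hv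
    have h1 := hO v
    have h2 := hpar v
    have h4 : cc G v = 1 := by
      unfold cc; rw [if_pos hv]
    have h5 : (Finset.univ.filter (fun w => Odd (m v w))).card ≤ ∑ w, m v w := by
      rw [Finset.card_eq_sum_ones, Finset.sum_filter]
      refine Finset.sum_le_sum fun w _ => ?_
      split_ifs with h
      · exact h.pos
      · exact Nat.zero_le _
    rw [m_sum v] at h5
    omega

end Pool.Agent.Helper673_greedy
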