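import Mathlib

namespace Pool.Agent.Helper673_greedy

open Complex ComplexConjugate

/-- the directions `z` and `w` form an angle larger than sixty degrees -/
def Far (z w : ℂ) : Prop := 2 * (z * conj w).re < ‖z‖ * ‖w‖

lemma Far.symm {z w : ℂ} (h : Far z w) : Far w z := by
  unfold Far at *
  have : (w * conj z).re = (z * conj w).re := by
    simp only [mul_re, conj_re, conj_im]; ring
  rw [this, mul_comm ‖w‖ ‖z‖]
  exact h

lemma norm_sub_sq' (z w : ℂ) : ‖z - w‖ ^ 2 = ‖z‖ ^ 2 + ‖w‖ ^ 2 - 2 * (z * conj w).re := by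
  rw [← Complex.normSq_eq_norm_sq, ← Complex.normSq_eq_norm_sq, ← Complex.normSq_eq_norm_sq,
    Complex.normSq_sub]

lemma far_of {a x y : ℂ} (h1 : ‖a - x‖ < ‖x - y‖) (h2 : ‖a - y‖ < ‖x - y‖) :
    x - a ≠ 0 ∧ y - a ≠ 0 ∧ Far (x - a) (y - a) := by
  rw [norm_sub_rev] at h1 h2
  refine ⟨?_, ?_, ?_⟩
  · intro h
    have : x = a := sub_eq_zero.1 h
    subst this
    rw [norm_sub_rev] at h2
    exact lt_irrefl _ h2
  · intro h
    have : y = a := sub_eq_zero.1 h
    subst this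
    exact lt_irrefl _ h1
  · unfold Far
    have h3 := norm_sub_sq' (x - a) (y - a)
    rw [sub_sub_sub_cancel_right] at h3
    have h4 : 0 ≤ ‖x - a‖ := norm_nonneg _
    have h5 : 0 ≤ ‖y - a‖ := norm_nonneg _
    rcases le_total ‖x - a‖ ‖y - a‖ with h | h
    · nlinarith [norm_nonneg (x - y)]
    · nlinarith [norm_nonneg (x - y)]

lemma re_mul_conj {z w : ℂ} (hz : z ≠ 0) (hw : w ≠ 0) :
    (z * conj w).re = ‖z‖ * ‖w‖ * Real.cos (arg z - arg w) := by
  rw [Real.cos_sub, Complex.cos_arg hz, Complex.cos_arg hw, Complex.sin_arg, Complex.sin_arg]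
  have h1 : ‖z‖ ≠ 0 := norm_ne_zero_iff.2 hz
  have h2 : ‖w‖ ≠ 0 := norm_ne_zero_iff.2 hw
  simp only [mul_re, conj_re, conj_im]
  field_simp
  ring

lemma Far.cos_lt {z w : ℂ} (hz : z ≠ 0) (hw : w ≠ 0) (h : Far z w) :
    Real.cos (arg z - arg w) < 1 / 2 := by
  unfold Far at h
  rw [re_mul_conj hz hw] at h
  have h1 : 0 < ‖z‖ * ‖w‖ := mul_pos (norm_pos_iff.2 hz) (norm_pos_iff.2 hw)
  by_contra hc
  push Not at hc
  nlinarith

lemma abs_of_cos_lt {δ : ℝ} (h : Real.cos δ < 1 / 2) (h2 : |δ| < 2 * Real.pi) :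
    Real.pi / 3 < |δ| ∧ |δ| < 5 * Real.pi / 3 := by
  have hpi := Real.pi_pos
  rw [← Real.cos_abs] at h
  constructor
  · by_contra hc
    push Not at hc
    have := Real.cos_le_cos_of_nonneg_of_le_pi (abs_nonneg δ) (by linarith) hc
    rw [Real.cos_pi_div_three] at this
    linarith
  · by_contra hc
    push Not at hc
    have h3 : Real.cos |δ| = Real.cos (2 * Real.pi - |δ|) := by
      rw [Real.cos_two_pi_sub]
    have := Real.cos_le_cos_of_nonneg_of_le_pi (x := 2 * Real.pi - |δ|) (y := Real.pi / 3)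
      (by linarith) (by linarith) (by linarith)
    rw [Real.cos_pi_div_three] at this
    linarith

lemma Far.arg_diff {z w : ℂ} (hz : z ≠ 0) (hw : w ≠ 0) (h : Far z w) :
    Real.pi / 3 < |arg z - arg w| ∧ |arg z - arg w| < 5 * Real.pi / 3 := by
  refine abs_of_cos_lt (h.cos_lt hz hw) ?_
  have h1 := neg_pi_lt_arg z
  have h2 := arg_le_pi z
  have h3 := neg_pi_lt_arg w
  have h4 := arg_le_pi w
  rw [abs_lt]
  constructor <;> linarith

lemma Far.arg_one {z : ℂ} (hz : z ≠ 0) (h : Far z 1) : Real.pi / 3 < |arg z| := by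
  have := (h.arg_diff hz one_ne_zero).1
  simpa using this

lemma three_false {a b c x y : ℝ} (ha : a ∈ Set.Ioc x y) (hb : b ∈ Set.Ioc x y)
    (hc : c ∈ Set.Ioc x y) (hxy : y - x ≤ 2 * (Real.pi / 3)) (hab : Real.pi / 3 < |a - b|)
    (hac : Real.pi / 3 < |a - c|) (hbc : Real.pi / 3 < |b - c|) : False := by
  obtain ⟨ha1, ha2⟩ := ha
  obtain ⟨hb1, hb2⟩ := hb
  obtain ⟨hc1, hc2⟩ := hc
  rcases lt_abs.1 hab with h1 | h1 <;> rcases lt_abs.1 hac with h2 | h2 <;>
    rcases lt_abs.1 hbc with h3 | h3 <;> linarith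

/-- the points of `X` form pairwise angles larger than sixty degrees, also with `1` -/
structure Spread (X : Finset ℂ) : Prop where
  ne : ∀ z ∈ X, z ≠ 0
  one : ∀ z ∈ X, Far z 1
  far : ∀ z ∈ X, ∀ w ∈ X, z ≠ w → Far z w

lemma Spread.pos_card {X : Finset ℂ} (h : Spread X) :
    (X.filter (fun z => 0 < arg z)).card ≤ 2 := by
  by_contra hc
  obtain ⟨a, ha, b, hb, c, hc', hab, hac, hbc⟩ := Finset.two_lt_card.1 (not_le.1 hc)
  rw [Finset.mem_filter] at ha hb hc'
  have key : ∀ z, z ∈ X ∧ 0 < arg z → arg z ∈ Set.Ioc (Real.pi / 3) Real.pi := by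
    intro z hz
    have := (h.one z hz.1).arg_one (h.ne z hz.1)
    rw [abs_of_pos hz.2] at this
    exact ⟨this, arg_le_pi z⟩
  exact three_false (key a ha) (key b hb) (key c hc') (by linarith)
    ((h.far a ha.1 b hb.1 hab).arg_diff (h.ne a ha.1) (h.ne b hb.1)).1
    ((h.far a ha.1 c hc'.1 hac).arg_diff (h.ne a ha.1) (h.ne c hc'.1)).1
    ((h.far b hb.1 c hc'.1 hbc).arg_diff (h.ne b hb.1) (h.ne c hc'.1)).1

lemma Spread.neg_card {X : Finset ℂ} (h : Spread X) :
    (X.filter (fun z => ¬ 0 < arg z)).card ≤ 2 := by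
  by_contra hc
  obtain ⟨a, ha, b, hb, c, hc', hab, hac, hbc⟩ := Finset.two_lt_card.1 (not_le.1 hc)
  rw [Finset.mem_filter] at ha hb hc'
  have key : ∀ z, z ∈ X ∧ ¬ 0 < arg z → arg z ∈ Set.Ioc (-Real.pi) (-(Real.pi / 3)) := by
    intro z hz
    have := (h.one z hz.1).arg_one (h.ne z hz.1)
    rw [abs_of_nonpos (not_lt.1 hz.2)] at this
    exact ⟨neg_pi_lt_arg z, by linarith⟩
  exact three_false (key a ha) (key b hb) (key c hc') (by linarith)
    ((h.far a ha.1 b hb.1 hab).arg_diff (h.ne a ha.1) (h.ne b hb.1)).1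
    ((h.far a ha.1 c hc'.1 hac).arg_diff (h.ne a ha.1) (h.ne c hc'.1)).1
    ((h.far b hb.1 c hc'.1 hbc).arg_diff (h.ne b hb.1) (h.ne c hc'.1)).1

lemma Spread.card_le {X : Finset ℂ} (h : Spread X) : X.card ≤ 4 := by
  have h1 := h.pos_card
  have h2 := h.neg_card
  have h3 := Finset.card_filter_add_card_filter_not (s := X) (fun z => 0 < arg z)
  omega

/-- four directions: the gap containing `1` is smaller than a half turn -/
lemma Spread.gap {X : Finset ℂ} (h : Spread X) (hX : X.card = 4) :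
    ∃ u ∈ X, ∃ v ∈ X, Real.pi / 3 < arg u ∧ arg v < -(Real.pi / 3) ∧
      arg u - arg v < Real.pi := by
  have h1 := h.pos_card
  have h2 := h.neg_card
  have h3 := Finset.card_filter_add_card_filter_not (s := X) (fun z => 0 < arg z)
  have h4 : (X.filter (fun z => 0 < arg z)).card = 2 := by omega
  have h5 : (X.filter (fun z => ¬ 0 < arg z)).card = 2 := by omega
  obtain ⟨a, b, hab, he⟩ := Finset.card_eq_two.1 h4
  obtain ⟨c, d, hcd, he'⟩ := Finset.card_eq_two.1 h5
  have ha : a ∈ X.filter (fun z => 0 < arg z) := by rw [he]; simp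
  have hb : b ∈ X.filter (fun z => 0 < arg z) := by rw [he]; simp
  have hc : c ∈ X.filter (fun z => ¬ 0 < arg z) := by rw [he']; simp
  have hd : d ∈ X.filter (fun z => ¬ 0 < arg z) := by rw [he']; simp
  rw [Finset.mem_filter] at ha hb hc hd
  have keyp : ∀ z, z ∈ X ∧ 0 < arg z → Real.pi / 3 < arg z := by
    intro z hz
    have := (h.one z hz.1).arg_one (h.ne z hz.1)
    rwa [abs_of_pos hz.2] at this
  have keyn : ∀ z, z ∈ X ∧ ¬ 0 < arg z → arg z < -(Real.pi / 3) := by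
    intro z hz
    have := (h.one z hz.1).arg_one (h.ne z hz.1)
    rw [abs_of_nonpos (not_lt.1 hz.2)] at this
    linarith
  have d1 := (h.far a ha.1 b hb.1 hab).arg_diff (h.ne a ha.1) (h.ne b hb.1)
  have d2 := (h.far c hc.1 d hd.1 hcd).arg_diff (h.ne c hc.1) (h.ne d hd.1)
  have hne : ∀ z w, z ∈ X ∧ 0 < arg z → w ∈ X ∧ ¬ 0 < arg w → arg z - arg w < 5 * Real.pi / 3 := by
    intro z w hz hw
    have hzw : z ≠ w := by rintro rfl; exact hw.2 hz.2
    have := ((h.far z hz.1 w hw.1 hzw).arg_diff (h.ne z hz.1) (h.ne w hw.1)).2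
    exact (le_abs_self _).trans_lt this
  have e1 := hne a c ha hc
  have e2 := hne a d ha hd
  have e3 := hne b c hb hc
  have e4 := hne b d hb hd
  rcases lt_abs.1 d1.1 with h6 | h6 <;> rcases lt_abs.1 d2.1 with h7 | h7
  · exact ⟨b, hb.1, c, hc.1, keyp b hb, keyn c hc, by linarith⟩
  · exact ⟨b, hb.1, d, hd.1, keyp b hb, keyn d hd, by linarith⟩
  · exact ⟨a, ha.1, c, hc.1, keyp a ha, keyn c hc, by linarith⟩
  · exact ⟨a, ha.1, d, hd.1, keyp a ha, keyn d hd, by linarith⟩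

/-- two hubs at `0` and `1` facing each other, `u` seen from `0` and `v` seen from `1`
(rotated by a half turn) on the same side -/
lemma facing {u v : ℂ} (hu : u ≠ 0) (hv : v ≠ 0) (h1 : Real.pi / 3 < arg u)
    (h2 : arg v < -(Real.pi / 3)) (h3 : arg u - arg v < Real.pi)
    (h4 : 2 * u.re - 2 * (u * conj v).re < ‖u‖ ^ 2)
    (h5 : 2 * v.re - 2 * (u * conj v).re < ‖v‖ ^ 2) : False := by
  have hpi := Real.pi_pos
  have hl : 0 < ‖u‖ := norm_pos_iff.2 hu
  have hm : 0 < ‖v‖ := norm_pos_iff.2 hv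
  rw [re_mul_conj hu hv] at h4 h5
  have hure : u.re = ‖u‖ * Real.cos (arg u) := by
    rw [Complex.cos_arg hu]; field_simp
  have hvre : v.re = ‖v‖ * Real.cos (arg v) := by
    rw [Complex.cos_arg hv]; field_simp
  rw [hure] at h4
  rw [hvre] at h5
  set c := Real.cos (arg u - arg v) with hc
  have hc1 : c < -(1 / 2) := by
    have h6 : Real.cos (arg u - arg v) < Real.cos (2 * Real.pi / 3) :=
      Real.cos_lt_cos_of_nonneg_of_le_pi (by linarith) h3.le (by linarith)
    have h7 : Real.cos (2 * Real.pi / 3) = -(1 / 2) := by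
      have : 2 * Real.pi / 3 = Real.pi - Real.pi / 3 := by ring
      rw [this, Real.cos_pi_sub, Real.cos_pi_div_three]
    rw [h7] at h6
    exact h6
  have hsum : 0 < Real.cos (arg u) + Real.cos (arg v) := by
    have h6 : Real.cos (Real.pi + arg v) < Real.cos (arg u) :=
      Real.cos_lt_cos_of_nonneg_of_le_pi (by linarith) (by linarith) (by linarith)
    have h7 : Real.cos (Real.pi + arg v) = - Real.cos (arg v) := by
      rw [add_comm, Real.cos_add_pi]
    rw [h7] at h6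
    linarith
  have e1 : 2 * Real.cos (arg u) - 2 * ‖v‖ * c < ‖u‖ := by
    by_contra hcon
    push Not at hcon
    nlinarith
  have e2 : 2 * Real.cos (arg v) - 2 * ‖u‖ * c < ‖v‖ := by
    by_contra hcon
    push Not at hcon
    nlinarith
  nlinarith

lemma facing' {u v : ℂ} (hu : u ≠ 0) (hv : v ≠ 0) (h1 : arg u < -(Real.pi / 3))
    (h2 : Real.pi / 3 < arg v) (h3 : arg v - arg u < Real.pi)
    (h4 : 2 * u.re - 2 * (u * conj v).re < ‖u‖ ^ 2)
    (h5 : 2 * v.re - 2 * (u * conj v).re < ‖v‖ ^ 2) : False := by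
  have h6 : (v * conj u).re = (u * conj v).re := by
    simp only [mul_re, conj_re, conj_im]; ring
  exact facing hv hu h2 h1 h3 (by rw [h6]; exact h5) (by rw [h6]; exact h4)

end Pool.Agent.Helper673_greedy
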