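import Pool.Agent.Helper673_greedy.Drawable
import Pool.Agent.Helper673_greedy.Factor2

namespace Pool.Agent.Helper673_greedy

open SimpleGraph

variable {V : Type}

/-- the cycle of an even factor through a vertex, as a list -/
lemma exists_cycle_list [Finite V] {F : SimpleGraph V} (hF : F.IsCycles) {x : V}
    (hx : (F.neighborSet x).Nonempty) :
    ∃ (l : List V) (hne : l ≠ []), l.Nodup ∧ x ∉ l ∧ l.IsChain F.Adj ∧ F.Adj x (l.head hne) ∧
      F.Adj (l.getLast hne) x ∧ ∀ y, y = x ∨ y ∈ l ↔ F.Reachable x y := by
  obtain ⟨p, hp, hverts⟩ := hF.exists_cycle_toSubgraph_verts_eq_connectedComponentSupp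
    (c := F.connectedComponentMk x) (v := x) rfl hx
  have hsupp : ∀ y, y ∈ p.support ↔ F.Reachable x y := by
    intro y
    rw [← Walk.mem_verts_toSubgraph, hverts, ConnectedComponent.mem_supp_iff,
      ConnectedComponent.eq]
    exact ⟨fun h => h.symm, fun h => h.symm⟩
  cases p with
  | nil => exact absurd rfl hp.ne_nil
  | @cons _ w _ h q =>
    rw [Walk.cons_isCycle_iff] at hp
    have hq := hp.1.support_nodup
    have hlast := q.getLast_support
    have hsplit : q.support.dropLast ++ [x] = q.support := by
      have := List.dropLast_append_getLast q.support_ne_nil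
      rw [hlast] at this
      exact this
    set l := q.support.dropLast with hl
    have hnd : (l ++ [x]).Nodup := by rw [hsplit]; exact hq
    have hch : List.IsChain F.Adj (x :: (l ++ [x])) := by
      rw [hsplit]; exact Walk.isChain_adj_cons_support h q
    have hne : l ≠ [] := by
      intro h0
      rw [h0] at hch
      simp at hch
    obtain ⟨a, l', hal⟩ := List.exists_cons_of_ne_nil hne
    rw [List.nodup_append] at hnd
    have hch2 : List.IsChain F.Adj (l ++ [x]) := by
      rw [hal] at hch ⊢
      rw [List.cons_append, List.isChain_cons_cons] at hch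
      exact hch.2
    rw [List.isChain_append] at hch2
    refine ⟨l, hne, hnd.1, ?_, hch2.1, ?_, ?_, ?_⟩
    · intro hxl
      exact hnd.2.2 x hxl x (by simp) rfl
    · have : List.IsChain F.Adj (x :: a :: (l' ++ [x])) := by
        rw [hal] at hch; exact hch
      rw [List.isChain_cons_cons] at this
      have h2 : l.head hne = a := by simp [hal]
      rw [h2]; exact this.1
    · exact hch2.2.2 _ (List.getLast?_eq_getLast_of_ne_nil hne ▸ rfl) x (by simp)
    · intro y
      rw [← hsupp, Walk.support_cons, List.mem_cons, ← hsplit, List.mem_append,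
        List.mem_singleton]
      tauto

/-- the growing set: closed in the factor, with its boundary vertices open -/
structure Grown (G F : SimpleGraph V) (S O : Set V) : Prop where
  draw : Drawable G S O
  closed : ∀ v ∈ S, ∀ w, F.Adj v w → w ∈ S
  bd : ∀ v ∈ S, ∀ w, w ∉ S → G.Adj v w → v ∈ O
  iso : ∀ v ∈ S, ¬ (F.neighborSet v).Nonempty → ∃ w ∈ S, G.Adj v w

lemma closed_reach {F : SimpleGraph V} {S : Set V} (h : ∀ v ∈ S, ∀ w, F.Adj v w → w ∈ S)
    {x y : V} (hxy : F.Reachable x y) (hx : x ∈ S) : y ∈ S := by
  obtain ⟨p⟩ := hxy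
  induction p with
  | nil => exact hx
  | cons hadj _ ih => exact ih (h _ hx _ hadj)

variable [Finite V] {G F : SimpleGraph V}

/-- a vertex of degree at most three with a neighbour outside and one more outside neighbour
cannot occur -/
lemma Grown.unique_out {S O : Set V} (h : Grown G F S O) (hFG : F ≤ G) (hF : F.IsCycles)
    (hdeg : ∀ v, (G.neighborSet v).ncard ≤ 3)
    (h3 : ∀ v, (G.neighborSet v).ncard = 3 → (F.neighborSet v).Nonempty)
    {v x w : V} (hv : v ∈ S) (hx : x ∉ S) (hw : w ∉ S) (hvx : G.Adj v x) (hvw : G.Adj v w) :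
    w = x := by
  by_contra hne
  by_cases hn : (F.neighborSet v).Nonempty
  · have h2 := hF hn
    obtain ⟨a, b, hab, hs⟩ := Set.ncard_eq_two.1 h2
    have ha : F.Adj v a := by
      have : a ∈ F.neighborSet v := by rw [hs]; simp
      exact this
    have hb : F.Adj v b := by
      have : b ∈ F.neighborSet v := by rw [hs]; simp
      exact this
    have haS := h.closed v hv a ha
    have hbS := h.closed v hv b hb
    have hsub : ({a, b, x, w} : Set V) ⊆ G.neighborSet v := by
      rintro y (rfl | rfl | rfl | rfl)
      · exact hFG ha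
      · exact hFG hb
      · exact hvx
      · exact hvw
    have hcard : ({a, b, x, w} : Set V).ncard = 4 := by
      rw [Set.ncard_insert_of_notMem, Set.ncard_insert_of_notMem, Set.ncard_pair (Ne.symm hne)]
      · rintro (rfl | rfl)
        · exact hx hbS
        · exact hw hbS
      · rintro (rfl | rfl | rfl)
        · exact hab rfl
        · exact hx haS
        · exact hw haS
    have := Set.ncard_le_ncard hsub (Set.toFinite _)
    have := hdeg v
    omega
  · obtain ⟨y, hyS, hy⟩ := h.iso v hv hn
    have hsub : ({y, x, w} : Set V) ⊆ G.neighborSet v := by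
      rintro z (rfl | rfl | rfl)
      · exact hy
      · exact hvx
      · exact hvw
    have hcard : ({y, x, w} : Set V).ncard = 3 := by
      rw [Set.ncard_insert_of_notMem, Set.ncard_pair (Ne.symm hne)]
      rintro (rfl | rfl)
      · exact hx hyS
      · exact hw hyS
    have h4 := Set.ncard_le_ncard hsub (Set.toFinite _)
    have h5 := hdeg v
    exact hn (h3 v (by omega))

theorem Grown.step {S O : Set V} (h : Grown G F S O) (hG : G.Connected) (hFG : F ≤ G)
    (hF : F.IsCycles) (hdeg : ∀ v, (G.neighborSet v).ncard ≤ 3)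
    (h3 : ∀ v, (G.neighborSet v).ncard = 3 → (F.neighborSet v).Nonempty)
    (hne : S.Nonempty) (hS : S ≠ Set.univ) : ∃ S' O', Grown G F S' O' ∧ S ⊂ S' := by
  obtain ⟨v, hv, x, hx, hvx⟩ : ∃ u ∈ S, ∃ x, x ∉ S ∧ G.Adj u x := by
    obtain ⟨a, ha⟩ := hne
    obtain ⟨b, hb⟩ := (Set.ne_univ_iff_exists_notMem S).1 hS
    obtain ⟨p⟩ := hG.preconnected a b
    obtain ⟨d, _, hd1, hd2⟩ := p.exists_boundary_dart S ha hb
    exact ⟨d.fst, hd1, d.snd, hd2, d.adj⟩
  have hvO := h.bd v hv x hx hvx
  have hOS := h.draw.sub
  have hd1 := h.draw.ear hvO [x] (by simp) (by simp)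
    (by intro y hy; rw [List.mem_singleton.1 hy]; exact hx) (by simp) (by simpa using hvx)
    (by simpa using hvx.symm)
  by_cases hn : (F.neighborSet x).Nonempty
  · obtain ⟨l, hlne, hnd, hxl, hch, hhead, hlast, hmem⟩ := exists_cycle_list hF hn
    have hlS : ∀ y ∈ l, y ∉ S := by
      intro y hy hyS
      have : F.Reachable y x := ((hmem y).1 (Or.inr hy)).symm
      exact hx (closed_reach h.closed this hyS)
    have hd2 := hd1.ear (v := x) (Or.inr (by simp)) l hlne hnd (by
      rintro y hy (hyS | hyx)
      · exact hlS y hy hyS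
      · rw [Set.mem_setOf_eq, List.mem_singleton] at hyx
        rw [hyx] at hy
        exact hxl hy) (hch.imp fun _ _ hab => hFG hab) (hFG hhead) (hFG hlast)
    refine ⟨_, _, ⟨hd2, ?_, ?_, ?_⟩, ?_⟩
    · -- closed
      rintro u ((hu | hu) | hu) w huw
      · exact Or.inl (Or.inl (h.closed u hu w huw))
      · rw [Set.mem_setOf_eq, List.mem_singleton] at hu
        subst hu
        rcases (hmem w).2 huw.reachable with h1 | h1
        · exact absurd h1 huw.ne'
        · exact Or.inr h1
      · rcases (hmem w).2 (((hmem u).1 (Or.inr hu)).trans huw.reachable) with h1 | h1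
        · exact Or.inl (Or.inr (by simp [h1]))
        · exact Or.inr h1
    · -- boundary
      rintro u hu w hw huw
      have hwS : w ∉ S := fun h' => hw (Or.inl (Or.inl h'))
      have hwx : w ≠ x := fun h' => hw (Or.inl (Or.inr (by simp [h'])))
      have hwl : w ∉ l := fun h' => hw (Or.inr h')
      rcases hu with (hu | hu) | hu
      · have hux : u ≠ x := by rintro rfl; exact hx hu
        have huv : u ≠ v := by
          rintro rfl
          exact hwx (h.unique_out hFG hF hdeg h3 hv hx hwS hvx huw)
        exact Or.inl ⟨Or.inl ⟨h.bd u hu w hwS huw, huv⟩, hux⟩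
      · exfalso
        rw [Set.mem_setOf_eq, List.mem_singleton] at hu
        subst hu
        obtain ⟨a, b, hab, hs⟩ := Set.ncard_eq_two.1 (hF hn)
        have ha : F.Adj u a := by
          have : a ∈ F.neighborSet u := by rw [hs]; simp
          exact this
        have hb : F.Adj u b := by
          have : b ∈ F.neighborSet u := by rw [hs]; simp
          exact this
        have hal : a ∈ l := by
          rcases (hmem a).2 ha.reachable with h1 | h1
          · exact absurd h1 ha.ne'
          · exact h1
        have hbl : b ∈ l := by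
          rcases (hmem b).2 hb.reachable with h1 | h1
          · exact absurd h1 hb.ne'
          · exact h1
        have hsub : ({a, b, v, w} : Set V) ⊆ G.neighborSet u := by
          rintro y (rfl | rfl | rfl | rfl)
          · exact hFG ha
          · exact hFG hb
          · exact hvx.symm
          · exact huw
        have hcard : ({a, b, v, w} : Set V).ncard = 4 := by
          rw [Set.ncard_insert_of_notMem, Set.ncard_insert_of_notMem, Set.ncard_pair]
          · rintro rfl; exact hwS hv
          · rintro (rfl | rfl)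
            · exact hlS _ hbl hv
            · exact hwl hbl
          · rintro (rfl | rfl | rfl)
            · exact hab rfl
            · exact hlS _ hal hv
            · exact hwl hal
        have := Set.ncard_le_ncard hsub (Set.toFinite _)
        have := hdeg u
        omega
      · exact Or.inr hu
    · -- isolated vertices
      rintro u ((hu | hu) | hu) hun
      · obtain ⟨w, hw, h1⟩ := h.iso u hu hun
        exact ⟨w, Or.inl (Or.inl hw), h1⟩
      · rw [Set.mem_setOf_eq, List.mem_singleton] at hu
        subst hu
        exact absurd hn hun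
      · exfalso
        obtain ⟨q⟩ := ((hmem u).1 (Or.inr hu)).symm
        cases q with
        | nil => exact hxl hu
        | cons h1 _ => exact hun ⟨_, h1⟩
    · refine ⟨fun y hy => Or.inl (Or.inl hy), fun h' => hx (h' (Or.inl (Or.inr (by simp))))⟩
  · refine ⟨_, _, ⟨hd1, ?_, ?_, ?_⟩, ?_⟩
    · rintro u (hu | hu) w huw
      · exact Or.inl (h.closed u hu w huw)
      · rw [Set.mem_setOf_eq, List.mem_singleton] at hu
        subst hu
        exact absurd ⟨w, huw⟩ hn
    · rintro u hu w hw huw
      have hwS : w ∉ S := fun h' => hw (Or.inl h')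
      have hwx : w ≠ x := fun h' => hw (Or.inr (by simp [h']))
      rcases hu with hu | hu
      · have huv : u ≠ v := by
          rintro rfl
          exact hwx (h.unique_out hFG hF hdeg h3 hv hx hwS hvx huw)
        exact Or.inl ⟨h.bd u hu w hwS huw, huv⟩
      · exact Or.inr hu
    · rintro u (hu | hu) hun
      · obtain ⟨w, hw, h1⟩ := h.iso u hu hun
        exact ⟨w, Or.inl hw, h1⟩
      · rw [Set.mem_setOf_eq, List.mem_singleton] at hu
        subst hu
        exact ⟨v, Or.inl hv, hvx.symm⟩
    · refine ⟨fun y hy => Or.inl hy, fun h' => hx (h' (Or.inr (by simp)))⟩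

theorem Grown.finish {S O : Set V} (h : Grown G F S O) (hG : G.Connected) (hFG : F ≤ G)
    (hF : F.IsCycles) (hdeg : ∀ v, (G.neighborSet v).ncard ≤ 3)
    (h3 : ∀ v, (G.neighborSet v).ncard = 3 → (F.neighborSet v).Nonempty)
    (hne : S.Nonempty) : HasGreedyDrawing G := by
  obtain ⟨T, hT⟩ := (Set.toFinite {T : Set V | S ⊆ T ∧ ∃ O, Grown G F T O}).exists_maximal
    ⟨S, subset_rfl, O, h⟩
  obtain ⟨hST, O', hO'⟩ := hT.prop
  by_cases hU : T = Set.univ
  · subst hU
    exact hO'.draw.hasGreedyDrawing
  · exfalso
    obtain ⟨T', O'', h1, h2⟩ := hO'.step hG hFG hF hdeg h3 (hne.mono hST) hU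
    exact h2.2 (hT.le_of_ge ⟨hST.trans h2.1, O'', h1⟩ h2.1)

end Pool.Agent.Helper673_greedy
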