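import Pool.Agent.Helper673_greedy.Far
import Pool.Agent.Helper673_greedy.Defs

namespace Pool.Agent.Helper673_greedy

open SimpleGraph Complex ComplexConjugate

variable {V : Type}

/-- greedy placement in the complex plane -/
def GreedyC (G : SimpleGraph V) (q : V → ℂ) : Prop :=
  ∀ s t : V, s ≠ t → ∃ u, G.Adj s u ∧ ‖q u - q t‖ < ‖q s - q t‖

lemma greedyC_of {G : SimpleGraph V} {p : V → EuclideanSpace ℝ (Fin 2)}
    (h : IsGreedyDrawing G p) : GreedyC G (fun v => ⟨p v 0, p v 1⟩) := by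
  have hd : ∀ u v : V, dist (p u) (p v) = ‖(⟨p u 0, p u 1⟩ : ℂ) - ⟨p v 0, p v 1⟩‖ := by
    intro u v
    rw [EuclideanSpace.dist_eq, Complex.norm_def, Complex.normSq_apply]
    congr 1
    simp only [Fin.sum_univ_two, sub_re, sub_im, Real.dist_eq, sq_abs]
    ring
  intro s t hst
  obtain ⟨u, h1, h2⟩ := h.2 s t hst
  exact ⟨u, h1, by rw [← hd, ← hd]; exact h2⟩

lemma GreedyC.reachable [Finite V] {G : SimpleGraph V} {q : V → ℂ} (h : GreedyC G q) (s t : V) :
    G.Reachable s t := by
  obtain ⟨v, hv, hmin⟩ := Set.exists_min_image {v | G.Reachable s v} (fun v => ‖q v - q t‖)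
    (Set.toFinite _) ⟨s, Reachable.refl s⟩
  by_cases hvt : v = t
  · rw [← hvt]; exact hv
  · exfalso
    obtain ⟨u, hu, hlt⟩ := h v t hvt
    have : G.Reachable s u := hv.trans hu.reachable
    exact absurd (hmin u this) (not_le.2 hlt)

/-- routing from one component of `G - A` into another passes closer through `A` -/
lemma GreedyC.route [Finite V] {G : SimpleGraph V} {q : V → ℂ} (h : GreedyC G q) {A : Set V}
    {x t : ↥(Aᶜ)} (hne : (G.induce Aᶜ).connectedComponentMk x ≠
      (G.induce Aᶜ).connectedComponentMk t) :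
    ∃ s ∈ A, ‖q s - q t‖ < ‖q x - q t‖ := by
  obtain ⟨v, hv, hmin⟩ := Set.exists_min_image
    {v : ↥(Aᶜ) | (G.induce Aᶜ).connectedComponentMk v = (G.induce Aᶜ).connectedComponentMk x ∧
      ‖q v - q t‖ ≤ ‖q x - q t‖} (fun v => ‖q v - q t‖) (Set.toFinite _) ⟨x, rfl, le_refl _⟩
  have hvt : (v : V) ≠ t := by
    intro heq
    have : v = t := Subtype.ext heq
    exact hne (by rw [← this]; exact hv.1.symm)
  obtain ⟨u, hu, hlt⟩ := h v t hvt
  by_cases huA : u ∈ A
  · exact ⟨u, huA, hlt.trans_le hv.2⟩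
  · exfalso
    have hadj : (G.induce Aᶜ).Adj ⟨u, huA⟩ v := hu.symm
    have h1 : (G.induce Aᶜ).connectedComponentMk ⟨u, huA⟩ =
        (G.induce Aᶜ).connectedComponentMk x := by
      rw [← hv.1]
      exact ConnectedComponent.eq.2 hadj.reachable
    exact absurd (hmin ⟨u, huA⟩ ⟨h1, hlt.le.trans hv.2⟩) (not_le.2 hlt)

/-- `hub t` is a vertex of `A` closest to `t` -/
def IsHub (q : V → ℂ) (A : Set V) (hub : V → V) : Prop :=
  ∀ t, hub t ∈ A ∧ ∀ s ∈ A, ‖q (hub t) - q t‖ ≤ ‖q s - q t‖

lemma exists_hub [Finite V] (q : V → ℂ) {A : Set V} (hA : A.Nonempty) : ∃ hub, IsHub q A hub := by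
  have : ∀ t, ∃ a ∈ A, ∀ s ∈ A, ‖q a - q t‖ ≤ ‖q s - q t‖ := fun t =>
    Set.exists_min_image A (fun s => ‖q s - q t‖) (Set.toFinite _) hA
  choose hub h1 h2 using this
  exact ⟨hub, fun t => ⟨h1 t, h2 t⟩⟩

lemma Far.div {z w r : ℂ} (hr : r ≠ 0) (h : Far z w) : Far (z / r) (w / r) := by
  unfold Far at *
  have hr' : 0 < ‖r‖ := norm_pos_iff.2 hr
  have h1 : z / r * conj (w / r) = (z * conj w) * ((‖r‖ ^ 2)⁻¹ : ℝ) := by
    rw [map_div₀]
    have h2 : r * conj r = ((‖r‖ ^ 2 : ℝ) : ℂ) := by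
      rw [Complex.mul_conj, Complex.normSq_eq_norm_sq]
    rw [div_mul_div_comm, h2, Complex.ofReal_inv, div_eq_mul_inv]
  rw [h1, Complex.re_mul_ofReal, norm_div, norm_div]
  have h3 : ‖z‖ / ‖r‖ * (‖w‖ / ‖r‖) = (‖z‖ * ‖w‖) * (‖r‖ ^ 2)⁻¹ := by
    field_simp
  rw [h3, ← mul_assoc]
  exact mul_lt_mul_of_pos_right h (by positivity)

section hubs

variable [Finite V] {G : SimpleGraph V} {q : V → ℂ} {A : Set V} {hub : V → V}

lemma GreedyC.far_hub (h : GreedyC G q) (hh : IsHub q A hub) {x y : ↥(Aᶜ)}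
    (hxy : (G.induce Aᶜ).connectedComponentMk x ≠ (G.induce Aᶜ).connectedComponentMk y)
    (heq : hub x = hub y) : q x - q (hub y) ≠ 0 ∧ q y - q (hub y) ≠ 0 ∧
      Far (q x - q (hub y)) (q y - q (hub y)) := by
  obtain ⟨s, hs, h1⟩ := h.route hxy
  obtain ⟨s', hs', h2⟩ := h.route hxy.symm
  refine far_of ?_ ?_
  · rw [← heq, norm_sub_rev (q (x : V)) (q (y : V))]
    exact ((hh x).2 s' hs').trans_lt h2
  · exact ((hh y).2 s hs).trans_lt h1

/-- the components other than that of `t` whose representative has the same hub as `t` -/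
def others (G : SimpleGraph V) (A : Set V) (hub : V → V)
    (rep : (G.induce Aᶜ).ConnectedComponent → ↥(Aᶜ)) (t : ↥(Aᶜ)) :
    Set (G.induce Aᶜ).ConnectedComponent :=
  {C | hub (rep C) = hub t ∧ C ≠ (G.induce Aᶜ).connectedComponentMk t}

variable {rep : (G.induce Aᶜ).ConnectedComponent → ↥(Aᶜ)}

open Classical in
lemma GreedyC.spread (h : GreedyC G q) (hh : IsHub q A hub)
    (hrep : ∀ C, (G.induce Aᶜ).connectedComponentMk (rep C) = C) (t : ↥(Aᶜ)) :
    ∃ X : Finset ℂ, Spread X ∧ X.card = (others G A hub rep t).ncard ∧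
      ∀ z ∈ X, ∃ C ∈ others G A hub rep t,
        z = (q (rep C) - q (hub t)) / (q t - q (hub t)) := by
  set S : Finset (G.induce Aᶜ).ConnectedComponent := (Set.toFinite (others G A hub rep t)).toFinset
    with hS
  have memS : ∀ C, C ∈ S ↔ C ∈ others G A hub rep t := fun C => Set.Finite.mem_toFinset _
  have key : ∀ C ∈ S, q (rep C) - q (hub t) ≠ 0 ∧ q t - q (hub t) ≠ 0 ∧
      Far (q (rep C) - q (hub t)) (q t - q (hub t)) := by
    intro C hC
    rw [memS] at hC
    exact h.far_hub hh (by rw [hrep]; exact hC.2) hC.1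
  have key2 : ∀ C ∈ S, ∀ D ∈ S, C ≠ D →
      Far (q (rep C) - q (hub t)) (q (rep D) - q (hub t)) ∧ q (rep C) ≠ q (rep D) := by
    intro C hC D hD hne
    rw [memS] at hC hD
    have hne' : (G.induce Aᶜ).connectedComponentMk (rep C) ≠
        (G.induce Aᶜ).connectedComponentMk (rep D) := by rw [hrep, hrep]; exact hne
    have h1 := h.far_hub hh hne' (hC.1.trans hD.1.symm)
    rw [hD.1] at h1
    refine ⟨h1.2.2, ?_⟩
    obtain ⟨s, hs, h2⟩ := h.route hne'
    intro heq
    rw [heq, sub_self, norm_zero] at h2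
    exact absurd h2 (not_lt.2 (norm_nonneg _))
  refine ⟨S.image (fun C => (q (rep C) - q (hub t)) / (q t - q (hub t))), ?_, ?_, ?_⟩
  · refine ⟨?_, ?_, ?_⟩
    · intro z hz
      obtain ⟨C, hC, rfl⟩ := Finset.mem_image.1 hz
      exact div_ne_zero (key C hC).1 (key C hC).2.1
    · intro z hz
      obtain ⟨C, hC, rfl⟩ := Finset.mem_image.1 hz
      have h1 := (key C hC).2.2.div (key C hC).2.1
      rwa [div_self (key C hC).2.1] at h1
    · intro z hz w hw hzw
      obtain ⟨C, hC, rfl⟩ := Finset.mem_image.1 hz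
      obtain ⟨D, hD, rfl⟩ := Finset.mem_image.1 hw
      have hne : C ≠ D := by rintro rfl; exact hzw rfl
      exact (key2 C hC D hD hne).1.div (key C hC).2.1
  · rw [Finset.card_image_of_injOn]
    · rw [hS, Set.ncard_eq_toFinset_card _ (Set.toFinite _)]
    · intro C hC D hD hCD
      by_contra hne
      rw [Finset.mem_coe] at hC hD
      refine (key2 C hC D hD hne).2 ?_
      have h1 : q (rep C) - q (hub t) = q (rep D) - q (hub t) := by
        have := (key C hC).2.1
        field_simp at hCD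
        exact hCD
      exact sub_left_injective h1
  · intro z hz
    obtain ⟨C, hC, rfl⟩ := Finset.mem_image.1 hz
    exact ⟨C, (memS C).1 hC, rfl⟩

lemma GreedyC.others_le (h : GreedyC G q) (hh : IsHub q A hub)
    (hrep : ∀ C, (G.induce Aᶜ).connectedComponentMk (rep C) = C) (t : ↥(Aᶜ)) :
    (others G A hub rep t).ncard ≤ 4 := by
  obtain ⟨X, h1, h2, -⟩ := h.spread hh hrep t
  rw [← h2]
  exact h1.card_le

lemma GreedyC.fiber_le (h : GreedyC G q) (hh : IsHub q A hub)
    (hrep : ∀ C, (G.induce Aᶜ).connectedComponentMk (rep C) = C) (a : V) :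
    {C | hub (rep C) = a}.ncard ≤ 5 := by
  rcases Set.eq_empty_or_nonempty {C | hub (rep C) = a} with h0 | ⟨C0, hC0⟩
  · rw [h0]; simp
  · have h1 := h.others_le hh hrep (rep C0)
    have h2 : {C | hub (rep C) = a} ⊆ insert C0 (others G A hub rep (rep C0)) := by
      intro C hC
      by_cases hCC : C = C0
      · exact Or.inl hCC
      · refine Or.inr ⟨?_, ?_⟩
        · exact (show hub (rep C) = a from hC).trans (show hub (rep C0) = a from hC0).symm
        · rw [hrep]; exact hCC
    have h3 := Set.ncard_le_ncard h2 (Set.toFinite _)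
    have h4 := Set.ncard_insert_le C0 (others G A hub rep (rep C0))
    omega

open Classical in
lemma card_comp_eq_sum (hh : IsHub q A hub) (rep : (G.induce Aᶜ).ConnectedComponent → ↥(Aᶜ)) :
    Nat.card (G.induce Aᶜ).ConnectedComponent =
      ∑ a ∈ (Set.toFinite A).toFinset, {C | hub (rep C) = a}.ncard := by
  have : Fintype (G.induce Aᶜ).ConnectedComponent := Fintype.ofFinite _
  rw [Nat.card_eq_fintype_card, ← Finset.card_univ,
    Finset.card_eq_sum_card_fiberwise (f := fun C => hub (rep C)) (t := (Set.toFinite A).toFinset)]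
  · refine Finset.sum_congr rfl fun a _ => ?_
    rw [Set.ncard_eq_toFinset_card']
    congr 1
    ext C
    simp
  · intro C _
    simp only [Set.Finite.coe_toFinset]
    exact (hh _).1

/-- the classical bound -/
theorem GreedyC.card_comp_le (h : GreedyC G q) (hA : A.Nonempty) :
    Nat.card (G.induce Aᶜ).ConnectedComponent ≤ 5 * A.ncard := by
  classical
  obtain ⟨hub, hh⟩ := exists_hub q hA
  have hex : ∀ C : (G.induce Aᶜ).ConnectedComponent, ∃ x,
      (G.induce Aᶜ).connectedComponentMk x = C := fun C => C.exists_rep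
  choose rep hrep using hex
  rw [card_comp_eq_sum hh rep]
  have h1 : A.ncard = (Set.toFinite A).toFinset.card := Set.ncard_eq_toFinset_card _ _
  rw [h1, mul_comm, ← smul_eq_mul, ← Finset.sum_const]
  exact Finset.sum_le_sum fun a _ => h.fiber_le hh hrep a

lemma GreedyC.tight_fiber (h : GreedyC G q) (hh : IsHub q A hub)
    (hrep : ∀ C, (G.induce Aᶜ).connectedComponentMk (rep C) = C)
    (htight : 5 * A.ncard ≤ Nat.card (G.induce Aᶜ).ConnectedComponent) {a : V} (ha : a ∈ A) :
    {C | hub (rep C) = a}.ncard = 5 := by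
  classical
  by_contra hne
  have hlt : {C | hub (rep C) = a}.ncard < 5 := lt_of_le_of_ne (h.fiber_le hh hrep a) hne
  rw [card_comp_eq_sum hh rep] at htight
  have h1 : A.ncard = (Set.toFinite A).toFinset.card := Set.ncard_eq_toFinset_card _ _
  have h2 : ∑ a ∈ (Set.toFinite A).toFinset, {C | hub (rep C) = a}.ncard <
      ∑ a ∈ (Set.toFinite A).toFinset, 5 :=
    Finset.sum_lt_sum (fun a _ => h.fiber_le hh hrep a) ⟨a, by simpa using ha, hlt⟩
  rw [Finset.sum_const, smul_eq_mul] at h2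
  omega

lemma GreedyC.tight_hub (h : GreedyC G q) (hh : IsHub q A hub)
    (hrep : ∀ C, (G.induce Aᶜ).connectedComponentMk (rep C) = C)
    (htight : 5 * A.ncard ≤ Nat.card (G.induce Aᶜ).ConnectedComponent) (t : ↥(Aᶜ)) :
    hub (rep ((G.induce Aᶜ).connectedComponentMk t)) = hub t ∧
      (others G A hub rep t).ncard = 4 := by
  have h5 := h.tight_fiber hh hrep htight (hh t).1
  have h4 := h.others_le hh hrep t
  have hsub : {C | hub (rep C) = hub t} ⊆
      insert ((G.induce Aᶜ).connectedComponentMk t) (others G A hub rep t) := by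
    intro C hC
    by_cases hCC : C = (G.induce Aᶜ).connectedComponentMk t
    · exact Or.inl hCC
    · exact Or.inr ⟨hC, hCC⟩
  have h6 := Set.ncard_le_ncard hsub (Set.toFinite _)
  have h7 := Set.ncard_insert_le ((G.induce Aᶜ).connectedComponentMk t) (others G A hub rep t)
  refine ⟨?_, by omega⟩
  by_contra hne
  have h8 : {C | hub (rep C) = hub t} ⊆ others G A hub rep t := by
    intro C hC
    refine ⟨hC, ?_⟩
    rintro rfl
    exact hne hC
  have h9 := Set.ncard_le_ncard h8 (Set.toFinite _)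
  omega

end hubs

end Pool.Agent.Helper673_greedy
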