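import Pool.Agent.Helper673_greedy.BTree

namespace Pool.Agent.Helper673_greedy

open BT

variable {E : Type} [NormedAddCommGroup E] [InnerProductSpace ℝ E] [FiniteDimensional ℝ E]

omit [InnerProductSpace ℝ E] [FiniteDimensional ℝ E] in
lemma exists_net [InnerProductSpace ℝ E] [FiniteDimensional ℝ E] (r : ℝ) {ε : ℝ} (hε : 0 < ε) :
    ∃ S : Finset E, ∀ x : E, ‖x‖ ≤ r → ∃ e ∈ S, dist x e < ε := by
  have : ProperSpace E := FiniteDimensional.proper ℝ E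
  obtain ⟨t, _, hfin, hcov⟩ := (isCompact_closedBall (0 : E) r).finite_cover_balls hε
  refine ⟨hfin.toFinset, fun x hx => ?_⟩
  have h1 : x ∈ Metric.closedBall (0 : E) r := by simpa using hx
  have h2 := hcov h1
  simp only [Set.mem_iUnion, Metric.mem_ball] at h2
  obtain ⟨e, he, h3⟩ := h2
  exact ⟨e, hfin.mem_toFinset.2 he, h3⟩

/-- `b` is closer to `c` than `a` is, and closer to `a` than `c` is -/
def Bet (a b c : E) : Prop := dist b c < dist a c ∧ dist b a < dist c a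

/-- the same, but only where the other end is not farther away than `o` -/
def BetO (o a b c : E) : Prop :=
  (dist a c ≤ dist o c → dist b c < dist a c) ∧ (dist c a ≤ dist o a → dist b a < dist c a)

/-- unit vector pointing from `o` to `x` -/
noncomputable def dir (o x : E) : E := (‖x - o‖)⁻¹ • (x - o)

lemma norm_dir {o x : E} (h : x ≠ o) : ‖dir o x‖ = 1 := by
  have : ‖x - o‖ ≠ 0 := norm_ne_zero_iff.2 (sub_ne_zero.2 h)
  rw [dir, norm_smul, norm_inv, norm_norm, inv_mul_cancel₀ this]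

lemma smul_dir {o x : E} (h : x ≠ o) : ‖x - o‖ • dir o x = x - o := by
  have : ‖x - o‖ ≠ 0 := norm_ne_zero_iff.2 (sub_ne_zero.2 h)
  rw [dir, smul_smul, mul_inv_cancel₀ this, one_smul]

lemma cone_dist {o a c : E} (ha : a ≠ o) (hc : c ≠ o) (hd : dist (dir o a) (dir o c) ≤ 1 / 2)
    (hle : ‖a - o‖ ≤ ‖c - o‖) : dist a c ≤ ‖c - o‖ - ‖a - o‖ / 2 := by
  have h1 : a - c = ‖a - o‖ • (dir o a - dir o c) + (‖a - o‖ - ‖c - o‖) • dir o c := by
    rw [smul_sub, sub_smul, smul_dir ha, smul_dir hc]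
    abel
  rw [dist_eq_norm, h1]
  refine (norm_add_le _ _).trans ?_
  rw [norm_smul, norm_smul, norm_norm, norm_dir hc, mul_one, Real.norm_eq_abs,
    abs_of_nonpos (by linarith), ← dist_eq_norm (dir o a)]
  nlinarith [norm_nonneg (a - o)]

lemma BetO.symm {o a b c : E} (h : BetO o a b c) : BetO o c b a := ⟨h.2, h.1⟩

lemma mid_aux {o a b c : E} (h : BetO o a b c) (ha : a ≠ o) (hc : c ≠ o)
    (hd : dist (dir o a) (dir o c) ≤ 1 / 2) (hle : ‖a - o‖ ≤ ‖c - o‖) :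
    ‖b - o‖ < 2 * ‖c - o‖ ∧ ‖a - o‖ / 2 < ‖b - o‖ := by
  have h1 := cone_dist ha hc hd hle
  have h2 : dist o c = ‖c - o‖ := by rw [dist_comm, dist_eq_norm]
  have h0 : 0 ≤ ‖a - o‖ := norm_nonneg _
  have h3 := h.1 (by rw [h2]; linarith)
  have h4 : ‖b - o‖ ≤ dist b c + ‖c - o‖ := by
    rw [dist_eq_norm]
    calc ‖b - o‖ = ‖(b - c) + (c - o)‖ := by rw [sub_add_sub_cancel]
      _ ≤ _ := norm_add_le _ _
  have h5 : ‖c - o‖ ≤ dist b c + ‖b - o‖ := by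
    rw [dist_comm, dist_eq_norm]
    calc ‖c - o‖ = ‖(c - b) + (b - o)‖ := by rw [sub_add_sub_cancel]
      _ ≤ _ := norm_add_le _ _
  constructor <;> linarith

lemma mid_scale {o a b c : E} (h : BetO o a b c) (ha : a ≠ o) (hc : c ≠ o)
    (hd : dist (dir o a) (dir o c) ≤ 1 / 2) :
    ¬ (‖a - o‖ ≤ ‖b - o‖ / 2 ∧ ‖c - o‖ ≤ ‖b - o‖ / 2) ∧
      ¬ (2 * ‖b - o‖ ≤ ‖a - o‖ ∧ 2 * ‖b - o‖ ≤ ‖c - o‖) := by
  rcases le_total ‖a - o‖ ‖c - o‖ with hle | hle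
  · obtain ⟨h1, h2⟩ := mid_aux h ha hc hd hle
    exact ⟨fun hh => by linarith [hh.1, hh.2], fun hh => by linarith [hh.1, hh.2]⟩
  · obtain ⟨h1, h2⟩ := mid_aux h.symm hc ha (by rwa [dist_comm]) hle
    exact ⟨fun hh => by linarith [hh.1, hh.2], fun hh => by linarith [hh.1, hh.2]⟩

/-- among three pairwise separated branches at `b`, seen in a narrow cone from `o`, one has all its
points at the same distance scale from `o` as `b` -/
lemma branch_scale {o b : E} {X Y Z : E → Prop} (hX : ∀ x, X x → x ≠ o)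
    (hY : ∀ x, Y x → x ≠ o) (hZ : ∀ x, Z x → x ≠ o)
    (hXY : ∀ x y, X x → Y y → BetO o x b y ∧ dist (dir o x) (dir o y) ≤ 1 / 2)
    (hXZ : ∀ x y, X x → Z y → BetO o x b y ∧ dist (dir o x) (dir o y) ≤ 1 / 2)
    (hYZ : ∀ x y, Y x → Z y → BetO o x b y ∧ dist (dir o x) (dir o y) ≤ 1 / 2) :
    (∀ x, X x → ‖b - o‖ / 2 < ‖x - o‖ ∧ ‖x - o‖ < 2 * ‖b - o‖) ∨
    (∀ x, Y x → ‖b - o‖ / 2 < ‖x - o‖ ∧ ‖x - o‖ < 2 * ‖b - o‖) ∨
    (∀ x, Z x → ‖b - o‖ / 2 < ‖x - o‖ ∧ ‖x - o‖ < 2 * ‖b - o‖) := by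
  by_contra hcon
  push Not at hcon
  obtain ⟨⟨x, hx, h1⟩, ⟨y, hy, h2⟩, ⟨z, hz, h3⟩⟩ := hcon
  have h1' : ‖x - o‖ ≤ ‖b - o‖ / 2 ∨ 2 * ‖b - o‖ ≤ ‖x - o‖ := by
    rcases le_or_gt ‖x - o‖ (‖b - o‖ / 2) with h | h
    · exact Or.inl h
    · exact Or.inr (h1 h)
  have h2' : ‖y - o‖ ≤ ‖b - o‖ / 2 ∨ 2 * ‖b - o‖ ≤ ‖y - o‖ := by
    rcases le_or_gt ‖y - o‖ (‖b - o‖ / 2) with h | h
    · exact Or.inl h
    · exact Or.inr (h2 h)
  have h3' : ‖z - o‖ ≤ ‖b - o‖ / 2 ∨ 2 * ‖b - o‖ ≤ ‖z - o‖ := by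
    rcases le_or_gt ‖z - o‖ (‖b - o‖ / 2) with h | h
    · exact Or.inl h
    · exact Or.inr (h3 h)
  obtain ⟨hxy, hxy'⟩ := hXY x y hx hy
  obtain ⟨hxz, hxz'⟩ := hXZ x z hx hz
  obtain ⟨hyz, hyz'⟩ := hYZ y z hy hz
  obtain ⟨a1, a2⟩ := mid_scale hxy (hX x hx) (hY y hy) hxy'
  obtain ⟨b1, b2⟩ := mid_scale hxz (hX x hx) (hZ z hz) hxz'
  obtain ⟨c1, c2⟩ := mid_scale hyz (hY y hy) (hZ z hz) hyz'
  rcases h1' with h1' | h1' <;> rcases h2' with h2' | h2' <;> rcases h3' with h3' | h3'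
  · exact a1 ⟨h1', h2'⟩
  · exact a1 ⟨h1', h2'⟩
  · exact b1 ⟨h1', h3'⟩
  · exact c2 ⟨h2', h3'⟩
  · exact c1 ⟨h2', h3'⟩
  · exact b2 ⟨h1', h3'⟩
  · exact a2 ⟨h1', h2'⟩
  · exact a2 ⟨h1', h2'⟩

/-- Localisation: a deep tree has a deep selected subtree of small diameter, measured by its
distance from `o`. -/
lemma localise {η : ℝ} (hη : 0 < η) (n : ℕ) : ∃ N : ℕ, ∀ (o : E) (t : BT E), N ≤ rk t →
    (∀ x, mem x t → x ≠ o) → Sep (BetO o) (fun _ => False) t →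
      ∃ t', Sub t' t ∧ n ≤ rk t' ∧ ∃ R : ℝ, 0 < R ∧ (∀ x, mem x t' → R ≤ dist x o) ∧
        ∀ x y, mem x t' → mem y t' → dist x y ≤ η * R := by
  obtain ⟨S, hS⟩ := exists_net (E := E) 1 (ε := 1 / 4) (by norm_num)
  obtain ⟨C, hC⟩ := exists_net (E := E) 2 (ε := η / 4) (by positivity)
  refine ⟨S.card * (C.card * n + 2), fun o t hN ho hsep => ?_⟩
  obtain ⟨e, _, t1, hs1, hr1, he⟩ := ramsey_color S (fun e x => dist (dir o x) e < 1 / 4)
    (C.card * n + 2) t hN (fun x hx => hS _ (by rw [norm_dir (ho x hx)]))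
  have hdir : ∀ x y, mem x t1 → mem y t1 → dist (dir o x) (dir o y) ≤ 1 / 2 := by
    intro x y hx hy
    have := dist_triangle_right (dir o x) (dir o y) e
    linarith [he x hx, he y hy]
  have ho1 : ∀ x, mem x t1 → x ≠ o := fun x hx => ho x (hs1.mem hx)
  have hsep1 := hsep.sub hs1
  -- a branch at the same scale as `b`
  have key : ∃ (b : E) (t2 : BT E), b ≠ o ∧ Sub t2 t1 ∧ C.card * n ≤ rk t2 ∧
      ∀ x, mem x t2 → ‖b - o‖ / 2 < ‖x - o‖ ∧ ‖x - o‖ < 2 * ‖b - o‖ := by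
    cases t1 with
    | leaf v => simp [rk] at hr1
    | node v l r =>
      cases l with
      | leaf w => simp [rk] at hr1
      | node b l1 r1 =>
        simp only [rk] at hr1
        obtain ⟨q1, q2, q3, q4⟩ := hsep1
        obtain ⟨q5, q6, -, -⟩ := q3
        have ml : ∀ x, mem x l1 → mem x (node v (node b l1 r1) r) := fun x hx =>
          Or.inr (Or.inl (Or.inr (Or.inl hx)))
        have mr : ∀ x, mem x r1 → mem x (node v (node b l1 r1) r) := fun x hx =>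
          Or.inr (Or.inl (Or.inr (Or.inr hx)))
        have mz : ∀ x, mem x r → mem x (node v (node b l1 r1) r) := fun x hx =>
          Or.inr (Or.inr hx)
        have mb : mem b (node v (node b l1 r1) r) := Or.inr (Or.inl (Or.inl rfl))
        rcases branch_scale (o := o) (b := b) (X := fun x => mem x l1) (Y := fun x => mem x r1)
          (Z := fun x => mem x r) (fun x hx => ho1 x (ml x hx)) (fun x hx => ho1 x (mr x hx))
          (fun x hx => ho1 x (mz x hx))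
          (fun x y hx hy => ⟨q5 x hx y hy, hdir x y (ml x hx) (mr y hy)⟩)
          (fun x y hx hy => ⟨q6 x (Or.inl hx) y (Or.inr (Or.inr hy)), hdir x y (ml x hx) (mz y hy)⟩)
          (fun x y hx hy => ⟨q6 x (Or.inr hx) y (Or.inr (Or.inr hy)), hdir x y (mr x hx) (mz y hy)⟩)
          with h | h | h
        · exact ⟨b, l1, ho1 b mb, Sub.inl _ _ (Sub.inl _ _ (Sub.refl l1)), by omega, h⟩
        · exact ⟨b, r1, ho1 b mb, Sub.inl _ _ (Sub.inr _ _ (Sub.refl r1)), by omega, h⟩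
        · exact ⟨b, r, ho1 b mb, Sub.inr _ _ (Sub.refl r), by omega, h⟩
  obtain ⟨b, t2, hbo, hs2, hr2, hsc⟩ := key
  have hb : 0 < ‖b - o‖ := norm_pos_iff.2 (sub_ne_zero.2 hbo)
  obtain ⟨c, _, t3, hs3, hr3, hc⟩ := ramsey_color C
    (fun c x => dist ((‖b - o‖)⁻¹ • (x - o)) c < η / 4) n t2 hr2 (fun x hx => by
      apply hC
      rw [norm_smul, norm_inv, norm_norm, inv_mul_le_iff₀ hb]
      linarith [(hsc x hx).2])
  refine ⟨t3, hs3.trans (hs2.trans hs1), hr3, ‖b - o‖ / 2, by positivity, fun x hx => ?_,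
    fun x y hx hy => ?_⟩
  · rw [dist_eq_norm]
    exact (hsc x (hs3.mem hx)).1.le
  · have h1 := dist_triangle_right ((‖b - o‖)⁻¹ • (x - o)) ((‖b - o‖)⁻¹ • (y - o)) c
    have h2 : dist ((‖b - o‖)⁻¹ • (x - o)) ((‖b - o‖)⁻¹ • (y - o)) = (‖b - o‖)⁻¹ * dist x y := by
      rw [dist_eq_norm, ← smul_sub, norm_smul, norm_inv, norm_norm, sub_sub_sub_cancel_right,
        dist_eq_norm]
    have h3 : (‖b - o‖)⁻¹ * dist x y ≤ η / 2 := by
      rw [← h2]; linarith [hc x hx, hc y hy]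
    rw [inv_mul_le_iff₀ hb] at h3
    linarith

end Pool.Agent.Helper673_greedy
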