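import Pool.Agent.Helper673_greedy.Defs

namespace Pool.Agent.Helper673_greedy

open Filter Topology

/-- points of the plane, in coordinates -/
abbrev Pt := ℝ × ℝ

/-- scalar product -/
def dot (a b : Pt) : ℝ := a.1 * b.1 + a.2 * b.2

/-- squared distance -/
def sqd (a b : Pt) : ℝ := (a.1 - b.1) ^ 2 + (a.2 - b.2) ^ 2

/-- quarter turn -/
def perp (d : Pt) : Pt := (-d.2, d.1)

lemma sqd_nonneg (a b : Pt) : 0 ≤ sqd a b := by unfold sqd; positivity

lemma sqd_comm (a b : Pt) : sqd a b = sqd b a := by unfold sqd; ring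

lemma sqd_self (a : Pt) : sqd a a = 0 := by unfold sqd; ring

/-- points of a small arc hanging from `c` in direction `d` -/
def arc (c d : Pt) (r y : ℝ) : Pt :=
  (c.1 + r * ((1 - y ^ 2) * d.1 - y * d.2), c.2 + r * ((1 - y ^ 2) * d.2 + y * d.1))

lemma sqd_arc (c d t : Pt) (r y : ℝ) : sqd (arc c d r y) t =
    sqd c t - 2 * r * ((1 - y ^ 2) * dot (t - c) d + y * dot (t - c) (perp d)) +
      r ^ 2 * dot d d * (1 - y ^ 2 + y ^ 4) := by
  simp only [sqd, arc, dot, perp, Prod.fst_sub, Prod.snd_sub]; ring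

lemma sqd_arc_arc (c d : Pt) (r y z : ℝ) : sqd (arc c d r y) (arc c d r z) =
    r ^ 2 * dot d d * ((y - z) ^ 2 * (1 + (y + z) ^ 2)) := by
  simp only [sqd, arc, dot]; ring

lemma sqd_c_arc (c d : Pt) (r y : ℝ) : sqd c (arc c d r y) =
    r ^ 2 * dot d d * (1 - y ^ 2 + y ^ 4) := by
  simp only [sqd, arc, dot]; ring

lemma second_diff (c d t : Pt) (r y e : ℝ) :
    sqd (arc c d r (y - e)) t + sqd (arc c d r (y + e)) t - 2 * sqd (arc c d r y) t =
      2 * e ^ 2 * (2 * r * dot (t - c) d - r ^ 2 * dot d d * (1 - 6 * y ^ 2 - e ^ 2)) := by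
  simp only [sqd, arc, dot, Prod.fst_sub, Prod.snd_sub]; ring

lemma dot_arc_normal (c d t : Pt) (r y : ℝ) :
    dot (t - arc c d r y) (d.1 - 2 * y * d.2, d.2 + 2 * y * d.1) =
      dot (t - c) d + 2 * y * dot (t - c) (perp d) - r * dot d d * (1 + y ^ 2) := by
  simp only [arc, dot, perp, Prod.fst_sub, Prod.snd_sub]; ring

lemma dot_arc_arc_normal (c d : Pt) (r y z : ℝ) :
    dot (arc c d r z - arc c d r y) (d.1 - 2 * y * d.2, d.2 + 2 * y * d.1) =
      - (r * dot d d * (y - z) ^ 2) := by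
  simp only [arc, dot, Prod.fst_sub, Prod.snd_sub]; ring

lemma arc_zero (c d : Pt) (y : ℝ) : arc c d 0 y = c := by
  simp [arc]

lemma continuous_arc_r (c d : Pt) (y : ℝ) : Continuous (fun r => arc c d r y) := by
  unfold arc; fun_prop

lemma continuous_sqd_left (t : Pt) : Continuous (fun x : Pt => sqd x t) := by
  unfold sqd; fun_prop

lemma continuous_sqd_right (t : Pt) : Continuous (fun x : Pt => sqd t x) := by
  unfold sqd; fun_prop

lemma continuous_dot_left (t : Pt) : Continuous (fun x : Pt => dot x t) := by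
  unfold dot; fun_prop

/-- a continuous function negative at `0` is negative just to the right of `0` -/
lemma ev_neg {f : ℝ → ℝ} (hf : Continuous f) (h0 : f 0 < 0) : ∀ᶠ x in 𝓝[>] (0 : ℝ), f x < 0 :=
  (hf.continuousAt.eventually (gt_mem_nhds h0)).filter_mono nhdsWithin_le_nhds

lemma ev_lt {f g : ℝ → ℝ} (hf : Continuous f) (hg : Continuous g) (h0 : f 0 < g 0) :
    ∀ᶠ x in 𝓝[>] (0 : ℝ), f x < g x := by
  have := ev_neg (f := fun x => f x - g x) (hf.sub hg) (by simpa using h0)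
  filter_upwards [this] with x hx
  linarith

lemma ev_pos : ∀ᶠ x in 𝓝[>] (0 : ℝ), 0 < x := eventually_mem_nhdsWithin

/-- transfer to Mathlib's Euclidean plane -/
noncomputable def toE (a : Pt) : EuclideanSpace ℝ (Fin 2) := !₂[a.1, a.2]

lemma dist_toE (a b : Pt) : dist (toE a) (toE b) = Real.sqrt (sqd a b) := by
  rw [EuclideanSpace.dist_eq]
  simp [toE, sqd, Fin.sum_univ_two, Real.dist_eq, sq_abs]

lemma hasGreedyDrawing_of {V : Type} (G : SimpleGraph V) (p : V → Pt)
    (h : ∀ s t : V, s ≠ t → ∃ u : V, G.Adj s u ∧ sqd (p u) (p t) < sqd (p s) (p t)) :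
    HasGreedyDrawing G := by
  refine ⟨fun v => toE (p v), ?_, ?_⟩
  · intro s t hst
    by_contra hne
    obtain ⟨u, _, hu⟩ := h s t hne
    have h1 : dist (toE (p s)) (toE (p t)) = 0 := by
      have : toE (p s) = toE (p t) := hst
      rw [this, dist_self]
    rw [dist_toE, Real.sqrt_eq_zero (sqd_nonneg _ _)] at h1
    have := sqd_nonneg (p u) (p t)
    linarith
  · intro s t hne
    obtain ⟨u, hu, hlt⟩ := h s t hne
    refine ⟨u, hu, ?_⟩
    change dist (toE (p u)) (toE (p t)) < dist (toE (p s)) (toE (p t))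
    rw [dist_toE, dist_toE]
    exact Real.sqrt_lt_sqrt (sqd_nonneg _ _) hlt

end Pool.Agent.Helper673_greedy
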