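import Pool.Agent.Helper673_greedy.Growth

namespace Pool.Agent.Helper673_greedy

open SimpleGraph

variable {V : Type} [Finite V]

theorem Grown.start {G F : SimpleGraph V} (hFG : F ≤ G) (hF : F.IsCycles) {r : V}
    (hn : (F.neighborSet r).Nonempty) : ∃ S O, Grown G F S O ∧ S.Nonempty := by
  obtain ⟨l, hlne, hnd, hrl, hch, hhead, hlast, hmem⟩ := exists_cycle_list hF hn
  have h1 := drawable_first_ear G r l hlne hnd hrl (hch.imp fun _ _ hab => hFG hab)
    (hFG hhead) (hFG hlast)
  have hmem' : ∀ y, y ∈ ({r} ∪ {x | x ∈ l} : Set V) ↔ F.Reachable r y := by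
    intro y
    rw [← hmem y]
    simp
  refine ⟨_, _, ⟨h1, ?_, ?_, ?_⟩, ⟨r, Or.inl rfl⟩⟩
  · intro v hv w hvw
    rw [hmem'] at hv ⊢
    exact hv.trans hvw.reachable
  · intro v hv w _ _
    exact hv
  · intro v hv hvn
    exfalso
    rw [hmem'] at hv
    obtain ⟨q⟩ := hv.symm
    cases q with
    | nil => exact hvn hn
    | cons h1 _ => exact hvn ⟨_, h1⟩

lemma two_le_degree [Nontrivial V] (G : SimpleGraph V) (hc : G.Connected) (hb : Bridgeless G)
    (v : V) : 2 ≤ (G.neighborSet v).ncard := by
  classical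
  have := Fintype.ofFinite V
  obtain ⟨w, hw⟩ := exists_ne v
  have h1 := two_le_cut G hc hb {v} ⟨v, by simp⟩ (by
    intro h
    have : w ∈ ({v} : Finset V) := by rw [h]; exact Finset.mem_univ _
    exact hw (Finset.mem_singleton.1 this))
  have h2 : ∑ u ∈ ({v} : Finset V), (G.neighborSet u).ncard = _ := sum_degree_eq G {v}
  rw [Finset.sum_singleton] at h2
  rw [h2]
  refine h1.trans (Finset.card_le_card ?_)
  intro d hd
  simp only [cut, Finset.mem_filter, Finset.mem_univ, true_and] at hd ⊢
  exact ⟨hd.1, hd.2.1⟩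

omit [Finite V] in
lemma HasGreedyDrawing.mono {G H : SimpleGraph V} (hHG : H ≤ G) (h : HasGreedyDrawing H) :
    HasGreedyDrawing G := by
  obtain ⟨p, h1, h2⟩ := h
  refine ⟨p, h1, fun s t hst => ?_⟩
  obtain ⟨u, h3, h4⟩ := h2 s t hst
  exact ⟨u, hHG h3, h4⟩

theorem subcubic_hasGreedyDrawing {G : SimpleGraph V} (hG : G.Connected)
    (hb : Bridgeless G) (hdeg : ∀ v, (G.neighborSet v).ncard ≤ 3) : HasGreedyDrawing G := by
  rcases subsingleton_or_nontrivial V with hV | hV
  · exact ⟨fun _ => 0, fun a b _ => Subsingleton.elim a b,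
      fun s t hst => absurd (Subsingleton.elim s t) hst⟩
  obtain ⟨F, hFG, hev, h3⟩ := exists_even_factor G hG hb
  have hF : F.IsCycles := by
    intro v hv
    have h1 : (F.neighborSet v).ncard ≤ (G.neighborSet v).ncard :=
      Set.ncard_le_ncard (fun w hw => hFG hw) (Set.toFinite _)
    have h2 := hdeg v
    have h4 : (F.neighborSet v).ncard ≠ 0 := by
      rw [Ne, Set.ncard_eq_zero (Set.toFinite _)]
      exact hv.ne_empty
    obtain ⟨k, hk⟩ := hev v
    omega
  by_cases hex : ∃ r, (F.neighborSet r).Nonempty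
  · obtain ⟨r, hr⟩ := hex
    obtain ⟨S, O, h1, h2⟩ := Grown.start hFG hF hr
    refine h1.finish hG hFG hF hdeg ?_ h2
    intro v hv
    have := h3 v hv
    by_contra hn
    rw [Set.not_nonempty_iff_eq_empty] at hn
    rw [hn] at this
    simp at this
  · push Not at hex
    have hG2 : ∀ v, (G.neighborSet v).ncard = 2 := by
      intro v
      have h1 := two_le_degree G hG hb v
      have h2 := hdeg v
      have h4 : (G.neighborSet v).ncard ≠ 3 := by
        intro h
        have := h3 v h
        rw [hex v] at this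
        simp at this
      omega
    obtain ⟨r⟩ := hG.nonempty
    have hr : (G.neighborSet r).Nonempty := by
      by_contra hn
      rw [Set.not_nonempty_iff_eq_empty] at hn
      have := hG2 r
      rw [hn] at this
      simp at this
    have hGc : G.IsCycles := fun v _ => hG2 v
    obtain ⟨S, O, h1, h2⟩ := Grown.start (le_refl G) hGc hr
    refine h1.finish hG (le_refl G) hGc hdeg ?_ h2
    intro v hv
    have := hG2 v
    omega

end Pool.Agent.Helper673_greedy
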