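import Pool.Agent.Helper673_greedy.Hubs

namespace Pool.Agent.Helper673_greedy

open SimpleGraph Complex ComplexConjugate

variable {V : Type}

lemma reach_avoid {G : SimpleGraph V} {A B : Set V} {x : ↥(Aᶜ)}
    (hx : ∀ y : ↥(Aᶜ), (G.induce Aᶜ).connectedComponentMk y =
      (G.induce Aᶜ).connectedComponentMk x → (y : V) ∉ B) {u w : ↥(Aᶜ)}
    (p : (G.induce Aᶜ).Walk u w) :
    (G.induce Aᶜ).connectedComponentMk u = (G.induce Aᶜ).connectedComponentMk x →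
    ∀ (hu : (u : V) ∈ Bᶜ) (hw : (w : V) ∈ Bᶜ), (G.induce Bᶜ).Reachable ⟨u, hu⟩ ⟨w, hw⟩ := by
  induction p with
  | nil => intro _ hu hw; exact Reachable.refl _
  | @cons a b c hab p ih =>
    intro ha hu hw
    have hb : (G.induce Aᶜ).connectedComponentMk b = (G.induce Aᶜ).connectedComponentMk x := by
      rw [← ha]
      exact ConnectedComponent.eq.2 hab.symm.reachable
    have hbB : (b : V) ∈ Bᶜ := hx b hb
    have hadj : (G.induce Bᶜ).Adj ⟨a, hu⟩ ⟨b, hbB⟩ := hab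
    exact hadj.reachable.trans (ih hb hbB hw)

lemma GreedyC.reach_other [Finite V] {G : SimpleGraph V} {q : V → ℂ} (h : GreedyC G q)
    {A B : Set V} (hA : A.Nonempty) (hdis : Disjoint A B) {x : ↥(Aᶜ)}
    (hx : ∀ y : ↥(Aᶜ), (G.induce Aᶜ).connectedComponentMk y =
      (G.induce Aᶜ).connectedComponentMk x → (y : V) ∉ B) (hxB : (x : V) ∈ Bᶜ) :
    ∃ (a : V) (_ : a ∈ A) (ha : a ∈ Bᶜ), (G.induce Bᶜ).Reachable ⟨x, hxB⟩ ⟨a, ha⟩ := by
  obtain ⟨a0, ha0⟩ := hA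
  obtain ⟨p⟩ := h.reachable (x : V) a0
  obtain ⟨d, -, hd1, hd2⟩ := p.exists_boundary_dart
    {v | ∃ hv : v ∈ Aᶜ, (G.induce Aᶜ).Reachable x ⟨v, hv⟩} ⟨x.2, Reachable.refl _⟩
    (fun h' => h'.1 ha0)
  obtain ⟨hv, hr⟩ := hd1
  have hdA : d.snd ∈ A := by
    by_contra hdA
    apply hd2
    have hadj : (G.induce Aᶜ).Adj ⟨d.fst, hv⟩ ⟨d.snd, hdA⟩ := d.adj
    exact ⟨hdA, hr.trans hadj.reachable⟩
  have hfB : d.fst ∈ Bᶜ := hx ⟨d.fst, hv⟩ (ConnectedComponent.eq.2 hr.symm)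
  have hsB : d.snd ∈ Bᶜ := Set.disjoint_left.1 hdis hdA
  obtain ⟨p'⟩ := hr
  have h1 := reach_avoid hx p' rfl hxB hfB
  have hadj : (G.induce Bᶜ).Adj ⟨d.fst, hfB⟩ ⟨d.snd, hsB⟩ := d.adj
  exact ⟨d.snd, hdA, hsB, h1.trans hadj.reachable⟩

lemma facing_pair {a b x y : ℂ} (hw : b - a ≠ 0) (h1 : ‖a - y‖ < ‖x - y‖)
    (h2 : ‖b - x‖ < ‖x - y‖) :
    2 * ((x - a) / (b - a)).re -
      2 * ((x - a) / (b - a) * conj ((y - b) / (a - b))).re < ‖(x - a) / (b - a)‖ ^ 2 ∧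
    2 * ((y - b) / (a - b)).re -
      2 * ((x - a) / (b - a) * conj ((y - b) / (a - b))).re < ‖(y - b) / (a - b)‖ ^ 2 := by
  set w := b - a with hwd
  set u := (x - a) / w with hu
  set v := (y - b) / (a - b) with hv
  have hw' : a - b ≠ 0 := by rw [← neg_sub]; exact neg_ne_zero.2 hw
  have hx : x = a + w * u := by rw [hu]; field_simp; ring
  have hy : y = b - w * v := by
    rw [hv, hwd]
    have : b - a = -(a - b) := by ring
    rw [this]; field_simp; ring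
  have hwn : 0 < ‖w‖ := norm_pos_iff.2 hw
  have e1 : x - y = w * (u - (1 - v)) := by rw [hx, hy, hwd]; ring
  have e2 : a - y = w * (v - 1) := by rw [hy, hwd]; ring
  have e3 : b - x = w * (1 - u) := by rw [hx, hwd]; ring
  rw [e1, e2, norm_mul, norm_mul] at h1
  rw [e1, e3, norm_mul, norm_mul] at h2
  have h1' : ‖v - 1‖ < ‖u - (1 - v)‖ := lt_of_mul_lt_mul_left h1 hwn.le
  have h2' : ‖1 - u‖ < ‖u - (1 - v)‖ := lt_of_mul_lt_mul_left h2 hwn.le
  have f1 : ‖u - (1 - v)‖ ^ 2 = ‖u‖ ^ 2 + ‖v - 1‖ ^ 2 - 2 * (u.re - (u * conj v).re) := by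
    rw [norm_sub_sq', norm_sub_rev 1 v]
    congr 2
    simp only [mul_re, conj_re, conj_im, sub_re, sub_im, one_re, one_im]
    ring
  have f2 : ‖u - (1 - v)‖ ^ 2 = ‖v‖ ^ 2 + ‖1 - u‖ ^ 2 - 2 * (v.re - (u * conj v).re) := by
    have : u - (1 - v) = v - (1 - u) := by ring
    rw [this, norm_sub_sq']
    congr 2
    simp only [mul_re, conj_re, conj_im, sub_re, sub_im, one_re, one_im]
    ring
  have g1 : ‖v - 1‖ ^ 2 < ‖u - (1 - v)‖ ^ 2 := by
    have := norm_nonneg (v - 1)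
    nlinarith
  have g2 : ‖1 - u‖ ^ 2 < ‖u - (1 - v)‖ ^ 2 := by
    have := norm_nonneg (1 - u)
    nlinarith
  constructor
  · linarith
  · linarith

/-- the data of a tight set seen from outside -/
lemma GreedyC.tight_spread [Finite V] {G : SimpleGraph V} {q : V → ℂ} (h : GreedyC G q)
    {A B : Set V} {hub : V → V} (hh : IsHub q A hub)
    {rep : (G.induce Aᶜ).ConnectedComponent → ↥(Aᶜ)}
    (hrep : ∀ C, (G.induce Aᶜ).connectedComponentMk (rep C) = C)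
    (htight : 5 * A.ncard ≤ Nat.card (G.induce Aᶜ).ConnectedComponent)
    (hA : A.Nonempty) (hdis : Disjoint A B)
    (hB : ∀ b b' : ↥(Aᶜ), (b : V) ∈ B → (b' : V) ∈ B → (G.induce Aᶜ).Reachable b b')
    (t : ↥(Aᶜ)) (ht : (t : V) ∈ B) :
    ∃ X : Finset ℂ, Spread X ∧ X.card = 4 ∧ q t - q (hub t) ≠ 0 ∧
      ∀ z ∈ X, ∃ x : ↥(Aᶜ), (G.induce Aᶜ).connectedComponentMk x ≠
        (G.induce Aᶜ).connectedComponentMk t ∧ (∃ hxB : (x : V) ∈ Bᶜ, ∃ (a : V) (_ : a ∈ A)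
          (ha : a ∈ Bᶜ), (G.induce Bᶜ).Reachable ⟨x, hxB⟩ ⟨a, ha⟩) ∧
        z = (q x - q (hub t)) / (q t - q (hub t)) := by
  obtain ⟨h1, h2⟩ := h.tight_hub hh hrep htight t
  obtain ⟨X, h3, h4, h5⟩ := h.spread hh hrep t
  have h6 : X.card = 4 := h4.trans h2
  refine ⟨X, h3, h6, ?_, ?_⟩
  · obtain ⟨z, hz⟩ := Finset.card_pos.1 (by omega : 0 < X.card)
    obtain ⟨C, hC, -⟩ := h5 z hz
    exact (h.far_hub hh (by rw [hrep]; exact hC.2) hC.1).2.1
  · intro z hz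
    obtain ⟨C, hC, hzC⟩ := h5 z hz
    have hne : (G.induce Aᶜ).connectedComponentMk (rep C) ≠
        (G.induce Aᶜ).connectedComponentMk t := by rw [hrep]; exact hC.2
    have havoid : ∀ y : ↥(Aᶜ), (G.induce Aᶜ).connectedComponentMk y =
        (G.induce Aᶜ).connectedComponentMk (rep C) → (y : V) ∉ B := by
      intro y hy hyB
      apply hne
      rw [← hy]
      exact ConnectedComponent.eq.2 (hB y t hyB ht)
    have hxB : ((rep C : ↥(Aᶜ)) : V) ∈ Bᶜ := havoid _ rfl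
    exact ⟨rep C, hne, ⟨hxB, h.reach_other hA hdis havoid hxB⟩, hzC⟩

theorem GreedyC.two_sets [Finite V] {G : SimpleGraph V} {q : V → ℂ} (h : GreedyC G q)
    {A B : Set V} (hA : A.Nonempty) (hB : B.Nonempty) (hdis : Disjoint A B)
    (hAB : ∀ b b' : ↥(Aᶜ), (b : V) ∈ B → (b' : V) ∈ B → (G.induce Aᶜ).Reachable b b')
    (hBA : ∀ a a' : ↥(Bᶜ), (a : V) ∈ A → (a' : V) ∈ A → (G.induce Bᶜ).Reachable a a') :
    Nat.card (G.induce Aᶜ).ConnectedComponent + Nat.card (G.induce Bᶜ).ConnectedComponent + 1 ≤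
      5 * A.ncard + 5 * B.ncard := by
  by_contra hcon
  have hlA := h.card_comp_le hA
  have hlB := h.card_comp_le hB
  have htA : 5 * A.ncard ≤ Nat.card (G.induce Aᶜ).ConnectedComponent := by omega
  have htB : 5 * B.ncard ≤ Nat.card (G.induce Bᶜ).ConnectedComponent := by omega
  obtain ⟨hubA, hhA⟩ := exists_hub q hA
  obtain ⟨hubB, hhB⟩ := exists_hub q hB
  have hexA : ∀ C : (G.induce Aᶜ).ConnectedComponent, ∃ x,
      (G.induce Aᶜ).connectedComponentMk x = C := fun C => C.exists_rep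
  choose repA hrepA using hexA
  have hexB : ∀ C : (G.induce Bᶜ).ConnectedComponent, ∃ x,
      (G.induce Bᶜ).connectedComponentMk x = C := fun C => C.exists_rep
  choose repB hrepB using hexB
  obtain ⟨b1, hb1⟩ := hB
  obtain ⟨a1, ha1⟩ := hA
  have memB : ∀ b ∈ B, b ∈ Aᶜ := fun b hb hbA => Set.disjoint_left.1 hdis hbA hb
  have memA : ∀ a ∈ A, a ∈ Bᶜ := fun a ha haB => Set.disjoint_left.1 hdis ha haB
  -- the hubs facing each other
  set a0 := hubA b1 with ha0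
  set b0 := hubB a1 with hb0
  have ha0A : a0 ∈ A := (hhA b1).1
  have hb0B : b0 ∈ B := (hhB a1).1
  have hubA_eq : ∀ t : ↥(Aᶜ), (G.induce Aᶜ).connectedComponentMk t =
      (G.induce Aᶜ).connectedComponentMk ⟨b1, memB b1 hb1⟩ → hubA t = a0 := by
    intro t ht
    rw [← (h.tight_hub hhA hrepA htA t).1, ht]
    exact (h.tight_hub hhA hrepA htA ⟨b1, memB b1 hb1⟩).1
  have hubB_eq : ∀ t : ↥(Bᶜ), (G.induce Bᶜ).connectedComponentMk t =
      (G.induce Bᶜ).connectedComponentMk ⟨a1, memA a1 ha1⟩ → hubB t = b0 := by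
    intro t ht
    rw [← (h.tight_hub hhB hrepB htB t).1, ht]
    exact (h.tight_hub hhB hrepB htB ⟨a1, memA a1 ha1⟩).1
  have hcb0 : (G.induce Aᶜ).connectedComponentMk ⟨b0, memB b0 hb0B⟩ =
      (G.induce Aᶜ).connectedComponentMk ⟨b1, memB b1 hb1⟩ :=
    ConnectedComponent.eq.2 (hAB _ _ hb0B hb1)
  have hca0 : (G.induce Bᶜ).connectedComponentMk ⟨a0, memA a0 ha0A⟩ =
      (G.induce Bᶜ).connectedComponentMk ⟨a1, memA a1 ha1⟩ :=
    ConnectedComponent.eq.2 (hBA _ _ ha0A ha1)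
  have hub1 : hubA b0 = a0 := hubA_eq ⟨b0, memB b0 hb0B⟩ hcb0
  have hub2 : hubB a0 = b0 := hubB_eq ⟨a0, memA a0 ha0A⟩ hca0
  obtain ⟨X, hX, hX4, hw, hXr⟩ := h.tight_spread hhA hrepA htA ⟨a1, ha1⟩ hdis hAB
    ⟨b0, memB b0 hb0B⟩ hb0B
  obtain ⟨Y, hY, hY4, -, hYr⟩ := h.tight_spread hhB hrepB htB ⟨b1, hb1⟩ hdis.symm hBA
    ⟨a0, memA a0 ha0A⟩ ha0A
  simp only [hub1] at hw hXr
  simp only [hub2] at hYr
  -- the two inequalities between a point at `a0` and a point at `b0`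
  have key : ∀ u ∈ X, ∀ v ∈ Y, 2 * u.re - 2 * (u * conj v).re < ‖u‖ ^ 2 ∧
      2 * v.re - 2 * (u * conj v).re < ‖v‖ ^ 2 := by
    intro u hu v hv
    obtain ⟨x, hxne, ⟨hxB, a, haA, haB, hxa⟩, rfl⟩ := hXr u hu
    obtain ⟨y, hyne, ⟨hyA, b, hbB, hbA, hyb⟩, rfl⟩ := hYr v hv
    have hxc : (G.induce Bᶜ).connectedComponentMk ⟨x, hxB⟩ =
        (G.induce Bᶜ).connectedComponentMk ⟨a0, memA a0 ha0A⟩ :=
      ConnectedComponent.eq.2 (hxa.trans (hBA _ _ haA ha0A))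
    have hyc : (G.induce Aᶜ).connectedComponentMk ⟨y, hyA⟩ =
        (G.induce Aᶜ).connectedComponentMk ⟨b0, memB b0 hb0B⟩ :=
      ConnectedComponent.eq.2 (hyb.trans (hAB _ _ hbB hb0B))
    have hubx : hubB x = b0 := hubB_eq ⟨x, hxB⟩ (hxc.trans hca0)
    have huby : hubA y = a0 := hubA_eq ⟨y, hyA⟩ (hyc.trans hcb0)
    obtain ⟨s, hs, h1⟩ := h.route (A := A) (x := x) (t := ⟨y, hyA⟩) (by rw [hyc]; exact hxne)
    obtain ⟨s', hs', h2⟩ := h.route (A := B) (x := y) (t := ⟨x, hxB⟩) (by rw [hxc]; exact hyne)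
    refine facing_pair hw ?_ ?_
    · have := (hhA y).2 s hs
      rw [huby] at this
      exact this.trans_lt h1
    · have := (hhB x).2 s' hs'
      rw [hubx] at this
      rw [norm_sub_rev (q (x : V)) (q (y : V))]
      exact this.trans_lt h2
  obtain ⟨u, hu, u', hu', hu1, hu2, hu3⟩ := hX.gap hX4
  obtain ⟨v, hv, v', hv', hv1, hv2, hv3⟩ := hY.gap hY4
  rcases lt_or_ge (arg u - arg v') Real.pi with hlt | hge
  · exact facing (hX.ne u hu) (hY.ne v' hv') hu1 hv2 hlt (key u hu v' hv').1 (key u hu v' hv').2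
  · exact facing' (hX.ne u' hu') (hY.ne v hv) hu2 hv1 (by linarith) (key u' hu' v hv).1
      (key u' hu' v hv).2

end Pool.Agent.Helper673_greedy
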